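import Pool.Agent.Helper59.EV.Chain
import Pool.Agent.Helper89.LS.MainE

/-! `ST_D(n - 1)` implies that Kakeya sets of `ℝ ^ n` have dimension `n`. -/

set_option autoImplicit false

namespace Pool.Agent.Helper59.EV

/-- if points over `kappa_0` fill the regular volume of the canonical form of some degree, Kakeya sets of `ℝ ^ n`
have full dimension -/
theorem kakeya_of_st (n : ℕ) (hn : 2 ≤ n) {D : ℕ} (hD : 1 ≤ D) (hst : ST D (n - 1))
    (K : Set (EuclideanSpace ℝ (Fin n)))
    (hK : ∀ e : EuclideanSpace ℝ (Fin n), ‖e‖ = 1 → ∃ p, ∀ t : ℝ, 0 ≤ t → t ≤ 1 → p + t • e ∈ K) :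
    dimH K = n :=
  Pool.Agent.Helper89.LS.kakeya_of_ek n hn (ek_of_st hD hst) K hK

end Pool.Agent.Helper59.EV
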