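import Pool.Agent.Helper59.EV.Chain
import Pool.Agent.Helper80.MX.Rich
import Pool.Agent.Helper52.KP.IcF

/-! Reduction of the exact Kakeya statement to extremal, rich, robust, connected systems; the system over a label. -/

set_option autoImplicit false

namespace Pool.Agent.Helper59.EV

open Finset Filter Topology Matrix Pool.Agent.Helper69.RK
open Pool.Agent.Helper31.EC Pool.Agent.Helper31.EC.Sp Pool.Agent.Helper40.EL
open Pool.Agent.Helper3.LF Pool.Agent.Helper89.LX Pool.Agent.Helper89.LS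
open Pool.Agent.Helper42.NS Pool.Agent.Helper52.KP Pool.Agent.Helper80.MX

noncomputable section

variable {S : Sp} {m : ℕ}

/-! ### the system over a label -/

/-- the system over a label which knows nothing about the height -/
def ovs (s : Sys S m) (l : Lab S) (hT : h (up1 l s.T) (up1 l (s.xi 1)) = 1) : Sys (l.ovr 1 one_pos) m where
  a := ovv l s.a
  x := ovv l s.x
  t := ovv l s.t
  ht := by
    rw [ovv_dg, ovv_dg, ovv_dg, ← up1_sup]
    exact hT

section

variable (s : Sys S m) (l : Lab S) (hT : h (up1 l s.T) (up1 l (s.xi 1)) = 1)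

theorem ovs_a_dg (r : ℝ) : (ovs s l hT).a.dg r = up1 l (s.a.dg r) := ovv_dg l s.a r

theorem ovs_x_dg (r : ℝ) : (ovs s l hT).x.dg r = up1 l (s.x.dg r) := ovv_dg l s.x r

theorem ovs_t_dg (r : ℝ) : (ovs s l hT).t.dg r = up1 l (s.t.dg r) := ovv_dg l s.t r

theorem ovs_T : (ovs s l hT).T = up1 l s.T := ovv_dg l s.t 1

theorem ovs_xi (r : ℝ) : (ovs s l hT).xi r = up1 l (s.xi r) := by
  unfold Sys.xi
  rw [ovs_a_dg, ovs_x_dg, up1_sup]

theorem ovs_P : (ovs s l hT).P = ovv l s.P := rfl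

theorem ovs_P_dg (r : ℝ) : (ovs s l hT).P.dg r = up1 l (s.P.dg r) := by
  rw [ovs_P]
  exact ovv_dg l s.P r

theorem lag_ovs (th : ℝ) : (ovs s l hT).lag th =
    h (up1 l (s.P.dg 1)) (up1 l s.T) - th * H (up1 l (s.x.dg 1)) := by
  unfold Sys.lag
  rw [ovs_P_dg, ovs_T, ovs_x_dg]

end

/-- a label of the window `0` knows nothing about the height -/
theorem t_zero (s : Sys S m) (l : Lab S) : up1 l (s.t.dg 0) = ⊥ := by
  rw [s.t.dg_nonpos le_rfl]
  exact l.upL_bot 1 one_pos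

theorem hT_of_DM {s : Sys S m} {l : Lab S} (hl : DMc s 0 l) : h (up1 l s.T) (up1 l (s.xi 1)) = 1 := by
  have := hl.h_T le_rfl zero_le_one (t_zero s l)
  rwa [sub_zero] at this

theorem lA_zero (s : Sys S m) : lA s 0 = s.xi 1 := by
  unfold lA
  rw [s.t.dg_nonpos le_rfl, sup_bot_eq]

/-- the information of a label of the window `0` about the line and about the point -/
theorem info_two {s : Sys S m} {l : Lab S} (hl : DMc s 0 l) :
    l.info = H (s.xi 1) - H (up1 l (s.xi 1)) ∧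
      l.info = h (s.P.dg 1) s.T - h (up1 l (s.P.dg 1)) (up1 l s.T) := by
  have h1 := hl.info_A
  have h2 := hl.info_B
  rw [lA_zero] at h1
  have h3 : H (up1 l (lB s)) = h (up1 l (s.P.dg 1)) (up1 l s.T) + 1 := by
    unfold lB
    rw [up1_sup, sup_comm, H_chain, hl.H_T le_rfl zero_le_one (t_zero s l)]
    ring
  rw [H_B s, h3] at h2
  exact ⟨h1, by linarith⟩

/-- extremal systems are connected at the window `0` -/
theorem info_zero_of_extremal {th : ℝ} (h0 : 0 ≤ th) (h1 : th < 1) {s : Sys S m} (he : Extremal th s) {l : Lab S}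
    (hl : DMc s 0 l) : l.info = 0 := by
  obtain ⟨h2, h3⟩ := info_two hl
  have h4 := he _ (ovs s l (hT_of_DM hl))
  rw [lag_ovs] at h4
  unfold Sys.lag at h4
  have h5 := H_x_le s l
  have h6 := mul_le_mul_of_nonneg_left h5 h0
  have h7 : 0 ≤ l.info := by
    rw [h2]
    have := H_up1_le l (s.xi 1)
    linarith
  have h8 : l.info ≤ th * l.info := by
    have : th * (H (s.x.dg 1) - H (up1 l (s.x.dg 1))) ≤ th * l.info := by rw [h2]; exact h6
    linarith
  nlinarith

theorem ic_zero_of_extremal {th : ℝ} (h0 : 0 ≤ th) (h1 : th < 1) {s : Sys S m} (he : Extremal th s) :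
    Helper40.EL.ic s 0 = 0 := by
  have h2 := info_zero_of_extremal h0 h1 he (kap_isKap s 0).dm
  have h3 := (kap_isKap s 0).info_eq
  linarith

/-! ### the reduction -/

/-- the systems to which the proof of `EK m` may be restricted -/
structure Good (G : ℕ → Gg m) (Φ : ℕ → Fnl m) (th g : ℝ) {S : Sp} (s : Sys S m) : Prop where
  th0 : 0 ≤ th
  th1 : th < 1
  g0 : 0 < g
  ext : Extremal th s
  lag : s.lag th ≤ -g
  rich : Rich s g
  robI : RobustI s
  robG : RobustG G s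
  robF : ∀ q, RobF (Φ q) s
  trn : ∀ (r : ℚ) (h0 : (0 : ℝ) < r) (h1 : (r : ℝ) ≤ 1), RobustI (trn s r h0 h1) ∧ RobustG G (trn s r h0 h1) ∧
    ∀ q, RobF (Φ q) (trn s r h0 h1)

theorem Good.ic_zero {G : ℕ → Gg m} {Φ : ℕ → Fnl m} {th g : ℝ} {s : Sys S m} (hs : Good G Φ th g s) :
    Helper40.EL.ic s 0 = 0 := ic_zero_of_extremal hs.th0 hs.th1 hs.ext

/-- labels of the window `0` of extremal systems change nothing -/
theorem h_up_of_extremal {th : ℝ} (h0 : 0 ≤ th) (h1 : th < 1) {s : Sys S m} (he : Extremal th s) {l : Lab S}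
    (hl : DMc s 0 l) : H (up1 l (s.xi 1)) = H (s.xi 1) ∧
      h (up1 l (s.P.dg 1)) (up1 l s.T) = h (s.P.dg 1) s.T := by
  obtain ⟨h2, h3⟩ := info_two hl
  have h4 := info_zero_of_extremal h0 h1 he hl
  constructor <;> linarith

/-- `EK m` follows if good systems have no gap -/
theorem ek_of_good (G : ℕ → Gg m) (Φ : ℕ → Fnl m) (M : ℝ) (hM : ∀ q S s, (Φ q).f S s ≤ M)
    (hyp : ∀ (th g : ℝ) (S : Sp) (s : Sys S m), Good G Φ th g s → H (s.x.dg 1) ≤ h (s.P.dg 1) s.T) : EK m := by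
  intro S a x t ht hx
  by_contra hne
  have h2 := (VV.pt a x t).H_dg_le (r := 1) zero_le_one
  rw [mul_one] at h2
  have h5 : h ((ptv a x t).dg 1) (t.dg 1) ≤ m := (h_le_H _ _).trans h2
  have h6 : h ((ptv a x t).dg 1) (t.dg 1) < m := lt_of_le_of_ne h5 hne
  obtain ⟨th, g, h0, h1, hg, hex, h7⟩ := exists_rich (⟨a, x, t, ht⟩ : Sys S m) hx h6
  obtain ⟨S', s', he, hI, hG, hF, hT⟩ := exists_robustAll_trn (fun (S : Sp) (s : Sys S m) => Extremal th s)
    (diag_extremal th h0) (fun S s hs T p E hE => Sys.Extremal.im hs p E hE) hex G Φ M hM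
  obtain ⟨h8, h9⟩ := h7 S' s' he
  have h10 := hyp th g S' s' ⟨h0, h1, hg, he, h8, h9, hI, hG, hF, hT⟩
  unfold Sys.lag at h8
  have h11 := H_nonneg (s'.x.dg 1)
  have h12 : th * H (s'.x.dg 1) ≤ H (s'.x.dg 1) := by nlinarith
  linarith

/-- directions have at most the entropy of the points, if over one label `kappa_0` with a form the points fill the
regular volume -/
theorem dir_le_of_can {D : ℕ} (hD : 1 ≤ D) (s : Sys S m) {x : ∀ k, FD (S.F k) (Mon (m + 1) D)}
    (hx : (gau s D).Ad (cA s 0) (cB s) x) (hk : IsKap s 0 (lb x))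
    (hst : rvol s D x ≤ h (up1 (lb x) (s.P.dg 1)) (up1 (lb x) s.T)) :
    H (s.x.dg 1) ≤ h (s.P.dg 1) s.T := by
  obtain ⟨h1, h2⟩ := info_two hk.dm
  have h3 := H_x_le s (lb x)
  have h5 := END_lab s hD hx (hT_of_DM hk.dm)
  linarith

/-- `ST_D(m)` for good systems -/
def STG (G : ℕ → Gg m) (Φ : ℕ → Fnl m) (D : ℕ) : Prop :=
  ∀ (th g : ℝ) (S : Sp) (s : Sys S m), Good G Φ th g s → ∀ x : ∀ k, FD (S.F k) (Mon (m + 1) D), IsCan s D 0 x →
    rvol s D x ≤ h (up1 (lb x) (s.P.dg 1)) (up1 (lb x) s.T)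

/-- `ST_D(m)` for good systems implies `EK m` -/
theorem ek_of_stg (G : ℕ → Gg m) (Φ : ℕ → Fnl m) (M : ℝ) (hM : ∀ q S s, (Φ q).f S s ≤ M) {D : ℕ} (hD : 1 ≤ D)
    (hst : STG G Φ D) : EK m := by
  apply ek_of_good G Φ M hM
  intro th g S s hs
  obtain ⟨x, hx⟩ := exists_can s D 0
  exact dir_le_of_can hD s hx.1.1 hx.2 (hst th g S s hs x hx)

end

end Pool.Agent.Helper59.EV
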