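import Pool.Agent.Helper59.EV.Cap
import Pool.Agent.Helper89.LS.Exact

/-! The last link of the chain (ns_proof (0.4)): if over the label `kappa_0` the points fill the regular volume of the
canonical form of degree `D`, then directions have at most the entropy of points. -/

set_option autoImplicit false

namespace Pool.Agent.Helper59.EV

open Finset Filter Topology Matrix Pool.Agent.Helper69.RK
open Pool.Agent.Helper31.EC Pool.Agent.Helper31.EC.Sp Pool.Agent.Helper40.EL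
open Pool.Agent.Helper3.LF Pool.Agent.Helper89.LX Pool.Agent.Helper89.LS
open Pool.Agent.Helper48.NS (GG)

noncomputable section

variable {S : Sp} {m : ℕ}

/-- the rate of the regular volume of the forms of the labels `x` at the points of the system:
`m - E log G_A (t, P) / (2 n)` -/
def rvol (s : Sys S m) (D : ℕ) (x : ∀ k, FD (S.F k) (Mon (m + 1) D)) : ℝ :=
  m - ul (fun k => ∑ ω, (x k).l.T.μ ω *
    (Real.logb 2 (GG (S.dl 1 k) ((x k).g ω) (ptf s k ((x k).l.p.π ω))) / (2 * (S.F k).n)))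

/-- admissible forms are typically bounded at the points by a subexponential sequence -/
theorem Ad_typ {s : Sys S m} {D : ℕ} {A B : Part S} {x : ∀ k, FD (S.F k) (Mon (m + 1) D)}
    (hx : (gau s D).Ad A B x) : ∃ K : ℕ → ℝ, S.Sub K ∧
      Tendsto (fun k => (x k).l.T.pb (fun ω => ¬ sph s D k ((x k).l.p.π ω) ((x k).g ω) ≤ K k)) UF (𝓝 0) := by
  obtain ⟨J, hJ, hG⟩ := dia (fun i k => (x k).l.T.pb (fun ω => ¬ sph s D k ((x k).l.p.π ω) ((x k).g ω) ≤
      2 ^ (1 / ((i : ℝ) + 1) * (S.F k).n)) ≤ 1 / ((i : ℝ) + 1)) (fun i => by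
    filter_upwards [hx (1 / ((i : ℝ) + 1)) (by positivity)] with k hk using hk.2.2.2.1)
  have h0 : Tendsto (fun k => 1 / ((J k : ℝ) + 1)) UF (𝓝 0) :=
    tendsto_one_div_add_atTop_nhds_zero_nat.comp hJ
  refine ⟨fun k => 2 ^ (1 / ((J k : ℝ) + 1) * (S.F k).n), ⟨Eventually.of_forall fun k => by positivity, ?_⟩, ?_⟩
  · have h1 : Tendsto (fun k => Real.logb 2 3 / (S.F k).n + 1 / ((J k : ℝ) + 1)) UF (𝓝 0) := by
      have := (S.div_n_tendsto (Real.logb 2 3)).add h0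
      rwa [add_zero] at this
    refine tendsto_of_tendsto_of_tendsto_of_le_of_le' tendsto_const_nhds h1 ?_ ?_
    · refine Eventually.of_forall fun k => div_nonneg (Real.logb_nonneg (by norm_num) ?_) (S.F k).pos.le
      have : (0 : ℝ) < 2 ^ (1 / ((J k : ℝ) + 1) * (S.F k).n) := by positivity
      linarith
    · refine Eventually.of_forall fun k => ?_
      have hn := (S.F k).pos
      have h2 : (1 : ℝ) ≤ 2 ^ (1 / ((J k : ℝ) + 1) * (S.F k).n) :=
        Real.one_le_rpow (by norm_num) (by positivity)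
      rw [div_add' _ _ _ hn.ne']
      apply div_le_div_of_nonneg_right _ hn.le
      calc Real.logb 2 (2 ^ (1 / ((J k : ℝ) + 1) * (S.F k).n) + 2) ≤
          Real.logb 2 (3 * 2 ^ (1 / ((J k : ℝ) + 1) * (S.F k).n)) :=
            Real.logb_le_logb_of_le (by norm_num) (by positivity) (by linarith)
        _ = _ := by
            rw [Real.logb_mul (by norm_num) (by positivity), Real.logb_rpow (by norm_num) (by norm_num)]
  · refine tendsto_of_tendsto_of_tendsto_of_le_of_le' tendsto_const_nhds h0 ?_ ?_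
    · exact Eventually.of_forall fun k => (x k).l.T.pb_nonneg _
    · filter_upwards [hG] with k hk using hk (J k) le_rfl

theorem sp_dl (l : Lab S) (r : ℝ) (k : ℕ) : l.sp.dl r k = S.dl r k := by
  unfold Sp.dl
  have h1 : (l.sp.F k).n = (S.F k).n := (l k).hn
  rw [h1]

theorem ovr_dl (l : Lab S) (k : ℕ) : (l.ovr 1 one_pos).dl 1 k = S.dl 1 k := by
  have h1 : (l.ovr 1 one_pos).dl 1 k = l.sp.dl (1 * 1) k := chg_dl (S := l.sp) l.V 1 one_pos 1 k
  rw [h1, sp_dl, one_mul]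

theorem ovr_n (l : Lab S) (k : ℕ) : ((l.ovr 1 one_pos).F k).n = (S.F k).n := by
  rw [l.n_over, one_mul]

/-- variables in the space over a label -/
def ovv {m : ℕ} (l : Lab S) (y : S.VV m) : (l.ovr 1 one_pos).VV m := VV.chg (S := l.sp) l.V 1 one_pos (l.pj.vv y)

theorem ovv_dg {m : ℕ} (l : Lab S) (y : S.VV m) (r : ℝ) : (ovv l y).dg r = up1 l (y.dg r) := by
  have h1 : (ovv l y).dg r = chgL l.V 1 one_pos ((l.pj.vv y).dg (1 * r)) :=
    VV.chg_dg (S := l.sp) l.V 1 one_pos (l.pj.vv y) r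
  rw [h1, one_mul, ← l.pj.map_dg]
  rfl

theorem ovv_v {m : ℕ} (l : Lab S) (y : S.VV m) (k : ℕ) (ω : (l k).T.Ω) :
    (ovv l y).v k ω = y.v k ((l k).p.π ω) := rfl

/-- the label of a sequence of labels with forms -/
def lb {D : ℕ} (x : ∀ k, FD (S.F k) (Mon (m + 1) D)) : Lab S := fun k => (x k).l

/-- the forms of the labels as forms in the space over the label -/
def ovf {D : ℕ} (x : ∀ k, FD (S.F k) (Mon (m + 1) D)) (k : ℕ) :
    (((lb x).ovr 1 one_pos).F k).Ω → Matrix (Mon (m + 1) D) (Mon (m + 1) D) ℝ := (x k).g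

theorem ovf_Cpd (s : Sys S m) {D : ℕ} {A B : Part S} {x : ∀ k, FD (S.F k) (Mon (m + 1) D)}
    (hx : (gau s D).Ad A B x) :
    ∀ᶠ k in UF, ∀ ω, (((lb x).ovr 1 one_pos).F k).μ ω ≠ 0 →
      Cpd (2 ^ (((gau s D).C + 1) * (((lb x).ovr 1 one_pos).F k).n)) (ovf x k ω) := by
  filter_upwards [hx 1 one_pos] with k hk ω hω
  rw [ovr_n]
  exact (hk.2.2.1 ω hω).1

theorem ovf_Z {D : ℕ} {x : ∀ k, FD (S.F k) (Mon (m + 1) D)} (k : ℕ)
    (ω ω' : (((lb x).ovr 1 one_pos).F k).Ω) (h1 : (((lb x).ovr 1 one_pos).F k).μ ω ≠ 0)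
    (h2 : (((lb x).ovr 1 one_pos).F k).μ ω' ≠ 0) (h3 : (((lb x).ovr 1 one_pos).F k).Z ω ω') :
    ovf x k ω = ovf x k ω' := by
  have h4 : ((x k).l.V ⊓ (x k).l.T.Z) ω ω' := h3
  exact ((x k).meas ω ω' h1 h2 h4.1 h4.2).1

theorem ovv_pl (s : Sys S m) {D : ℕ} (x : ∀ k, FD (S.F k) (Mon (m + 1) D)) (k : ℕ) (ω : (x k).l.T.Ω) :
    pl ((ovv (lb x) s.a).v k ω) ((ovv (lb x) s.x).v k ω) ((ovv (lb x) s.t).v k ω 0) =
      ptf s k ((x k).l.p.π ω) := rfl

theorem gex_ovv (s : Sys S m) {D : ℕ} (x : ∀ k, FD (S.F k) (Mon (m + 1) D)) (k : ℕ) (ω : (x k).l.T.Ω) :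
    gex (ovv (lb x) s.a) (ovv (lb x) s.x) (ovv (lb x) s.t) (ovf x) k ω =
      Real.logb 2 (GG (S.dl 1 k) ((x k).g ω) (ptf s k ((x k).l.p.π ω))) / (2 * (S.F k).n) := by
  unfold gex
  rw [ovr_dl, ovr_n, ovv_pl]
  rfl

theorem phi_ovv (s : Sys S m) {D : ℕ} (x : ∀ k, FD (S.F k) (Mon (m + 1) D)) (k : ℕ) (ω : (x k).l.T.Ω) :
    phi (((lb x).ovr 1 one_pos).dl 1 k) (ovf x k ω)
      (pl ((ovv (lb x) s.a).v k ω) ((ovv (lb x) s.x).v k ω) ((ovv (lb x) s.t).v k ω 0)) =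
      sph s D k ((x k).l.p.π ω) ((x k).g ω) := by
  rw [ovr_dl, ovv_pl]
  rfl

theorem ovf_typ (s : Sys S m) {D : ℕ} {x : ∀ k, FD (S.F k) (Mon (m + 1) D)} (K : ℕ → ℝ)
    (hKt : Tendsto (fun k => (x k).l.T.pb (fun ω => ¬ sph s D k ((x k).l.p.π ω) ((x k).g ω) ≤ K k)) UF (𝓝 0)) :
    Typ (S := (lb x).ovr 1 one_pos) (fun k ω => phi (((lb x).ovr 1 one_pos).dl 1 k) (ovf x k ω)
      (pl ((ovv (lb x) s.a).v k ω) ((ovv (lb x) s.x).v k ω) ((ovv (lb x) s.t).v k ω 0)) ≤ K k) := by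
  have h1 : ∀ k, (fun ω : (x k).l.T.Ω => ¬ phi (((lb x).ovr 1 one_pos).dl 1 k) (ovf x k ω)
      (pl ((ovv (lb x) s.a).v k ω) ((ovv (lb x) s.x).v k ω) ((ovv (lb x) s.t).v k ω 0)) ≤ K k) =
      fun ω => ¬ sph s D k ((x k).l.p.π ω) ((x k).g ω) ≤ K k := by
    intro k
    funext ω
    rw [phi_ovv]
  refine hKt.congr fun k => ?_
  exact congrArg (fun E => mass (res (x k).l.T.μ E)) (h1 k).symm

/-- END over a label, first form -/
theorem END_lab0 (s : Sys S m) {D : ℕ} (hD : 1 ≤ D) {A B : Part S} {x : ∀ k, FD (S.F k) (Mon (m + 1) D)}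
    (hx : (gau s D).Ad A B x) (hT : h (up1 (lb x) s.T) (up1 (lb x) (s.xi 1)) = 1) :
    H (up1 (lb x) (s.x.dg 1)) ≤ m - ul (fun k => ∑ ω, (((lb x).ovr 1 one_pos).F k).μ ω *
      gex (ovv (lb x) s.a) (ovv (lb x) s.x) (ovv (lb x) s.t) (ovf x) k ω) := by
  obtain ⟨K, hK, hKt⟩ := Ad_typ hx
  have hK' : ((lb x).ovr 1 one_pos).Sub K := by
    refine ⟨hK.1, ?_⟩
    refine hK.2.congr fun k => ?_
    rw [ovr_n]
  have hT' : h ((ovv (lb x) s.t).dg 1) ((ovv (lb x) s.a).dg 1 ⊔ (ovv (lb x) s.x).dg 1) = 1 := by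
    rw [ovv_dg, ovv_dg, ovv_dg, ← up1_sup]
    exact hT
  have hend := END_cap (S := (lb x).ovr 1 one_pos) hD (ovv (lb x) s.a) (ovv (lb x) s.x) (ovv (lb x) s.t) (ovf x)
    ((gau s D).C + 1) (add_nonneg (gau s D).C0 zero_le_one) (ovf_Cpd s hx)
    (Eventually.of_forall fun k ω ω' h1 h2 h3 => ovf_Z k ω ω' h1 h2 h3) _ (ovf_typ s K hKt) K hK'
    (Eventually.of_forall fun k ω _ hE => hE) hT'
  rw [ovv_dg] at hend
  exact hend


/-- END over a label: directions given the label are at most the regular volume -/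
theorem END_lab (s : Sys S m) {D : ℕ} (hD : 1 ≤ D) {A B : Part S} {x : ∀ k, FD (S.F k) (Mon (m + 1) D)}
    (hx : (gau s D).Ad A B x) (hT : h (up1 (lb x) s.T) (up1 (lb x) (s.xi 1)) = 1) :
    H (up1 (lb x) (s.x.dg 1)) ≤ rvol s D x := by
  have h1 : ∀ k, ∑ ω, (((lb x).ovr 1 one_pos).F k).μ ω *
      gex (ovv (lb x) s.a) (ovv (lb x) s.x) (ovv (lb x) s.t) (ovf x) k ω =
      ∑ ω, (x k).l.T.μ ω * (Real.logb 2 (GG (S.dl 1 k) ((x k).g ω) (ptf s k ((x k).l.p.π ω))) / (2 * (S.F k).n)) :=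
    fun k => Finset.sum_congr rfl fun ω _ => congrArg (fun z => (x k).l.T.μ ω * z) (gex_ovv s x k ω)
  have h2 := END_lab0 s hD hx hT
  rw [funext h1] at h2
  exact h2

/-- STATEMENT `ST_D(m)`, regular volume form: over the label `kappa_0` the points fill the regular volume of the
canonical form -/
def ST (D m : ℕ) : Prop :=
  ∀ (S : Sp) (s : Sys S m) (x : ∀ k, FD (S.F k) (Mon (m + 1) D)), IsCan s D 0 x →
    rvol s D x ≤ h (up1 (lb x) (s.P.dg 1)) (up1 (lb x) s.T)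

/-- the information of a label about the direction is at most its information about the line -/
theorem H_x_le (s : Sys S m) (l : Lab S) :
    H (s.x.dg 1) - H (up1 l (s.x.dg 1)) ≤ H (s.xi 1) - H (up1 l (s.xi 1)) := by
  have h1 : s.xi 1 = s.x.dg 1 ⊔ s.a.dg 1 := by
    unfold Sys.xi
    rw [sup_comm]
  have h2 : H (s.x.dg 1 ⊔ s.a.dg 1) = H (s.x.dg 1) + h (s.a.dg 1) (s.x.dg 1) := H_chain _ _
  have h3 : H (up1 l (s.x.dg 1 ⊔ s.a.dg 1)) = H (up1 l (s.x.dg 1)) + h (up1 l (s.a.dg 1)) (up1 l (s.x.dg 1)) := by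
    rw [up1_sup]
    exact H_chain _ _
  have h4 := h_up1_le l (s.a.dg 1) (s.x.dg 1)
  rw [h1, h2, h3]
  linarith

/-- (0.4): directions have at most the entropy of the points -/
theorem dir_le_of_st {D : ℕ} (hD : 1 ≤ D) (hst : ST D m) (s : Sys S m) :
    H (s.x.dg 1) ≤ h (s.P.dg 1) s.T := by
  obtain ⟨x, hx⟩ := exists_can s D 0
  have hk : IsKap s 0 (lb x) := hx.2
  have h1 := hk.ic_xi le_rfl zero_le_one
  have h2 := hk.ic_P le_rfl zero_le_one
  have h3 := H_x_le s (lb x)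
  have h4 : h (up1 (lb x) s.T) (up1 (lb x) (s.xi 1)) = 1 := by
    have := hk.h_T le_rfl zero_le_one
    rwa [sub_zero] at this
  have h5 := END_lab s hD hx.1.1 h4
  have h6 := hst S s x hx
  linarith

/-- (0.4): `ST_D(m)` implies the exact form of the Kakeya conjecture in `ℝ ^ (m + 1)` -/
theorem ek_of_st {D : ℕ} (hD : 1 ≤ D) (hst : ST D m) : EK m := by
  intro S a x t ht hx
  have h1 := dir_le_of_st hD hst (⟨a, x, t, ht⟩ : Sys S m)
  have h2 := (VV.pt a x t).H_dg_le (r := 1) zero_le_one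
  rw [mul_one] at h2
  have h3 : H (x.dg 1) = m := hx
  have h4 : H (x.dg 1) ≤ h ((ptv a x t).dg 1) (t.dg 1) := h1
  have h5 : h ((ptv a x t).dg 1) (t.dg 1) ≤ m := (h_le_H _ _).trans h2
  exact le_antisymm h5 (by linarith)

end

end Pool.Agent.Helper59.EV
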