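import Pool.Agent.Helper59.EV.Fdg

/-! Glueing and restriction of labels with forms, sequences: admissibility, additivity of the regular volume. -/

set_option autoImplicit false

namespace Pool.Agent.Helper59.EV

open Finset Filter Topology Matrix Pool.Agent.Helper69.RK
open Pool.Agent.Helper31.EC Pool.Agent.Helper31.EC.Sp Pool.Agent.Helper40.EL
open Pool.Agent.Helper89.LX Pool.Agent.Helper3.LF Pool.Agent.Helper3.PR
open Pool.Agent.Helper48.NS (GG)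

noncomputable section

variable {T S : Sp} {m D : ℕ}

section
variable {ι : Type} [Fintype ι] [DecidableEq ι]

/-- glued sequences -/
def gluS (p : Pj T S) (E : ∀ k, (T.F k).Ω → Prop) (y1 : ∀ k, FD ((Sp.im p E).F k) ι)
    (y2 : ∀ k, FD ((Sp.im p fun k ω => ¬ E k ω).F k) ι) : ∀ k, FD (S.F k) ι :=
  fun k => gluFD (p.fp k) (E k) (y1 k) (y2 k)

/-- restricted sequences -/
def imS (p : Pj T S) (E : ∀ k, (T.F k).Ω → Prop) (y : ∀ k, FD (S.F k) ι) : ∀ k, FD ((Sp.im p E).F k) ι :=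
  fun k => imFD (p.fp k) (E k) (p.hn k) (y k)

omit [Fintype ι] [DecidableEq ι] in
/-- probabilities of events of the point and of the form -/
theorem pb_fval {F : FSp} (Q : F.Ω → Matrix ι ι ℝ → Prop) (y : FD F ι) :
    y.l.T.pb (fun ω => Q (y.l.p.π ω) (y.g ω)) = fval (fun ω A => e1_ind (Q ω A)) y := by
  unfold fval FSp.pb mass
  apply Finset.sum_congr rfl
  intro ω _
  by_cases h : Q (y.l.p.π ω) (y.g ω)
  · rw [res_pos y.l.T.μ (fun ω => Q (y.l.p.π ω) (y.g ω)) ω h]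
    simp only [e1_ind_pos h, mul_one]
  · rw [res_neg y.l.T.μ (fun ω => Q (y.l.p.π ω) (y.g ω)) ω h]
    simp only [e1_ind_neg h, mul_zero]

omit [Fintype ι] [DecidableEq ι] in
theorem pb_fval' {F : FSp} (Q : F.Ω → Matrix ι ι ℝ → Prop) (y : FD F ι) :
    y.l.T.pb (fun ω => Q (y.l.p.π ω) (y.g' ω)) = fval2 (fun ω _ A => e1_ind (Q ω A)) y := by
  unfold fval2 FSp.pb mass
  apply Finset.sum_congr rfl
  intro ω _
  by_cases h : Q (y.l.p.π ω) (y.g' ω)
  · rw [res_pos y.l.T.μ (fun ω => Q (y.l.p.π ω) (y.g' ω)) ω h]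
    simp only [e1_ind_pos h, mul_one]
  · rw [res_neg y.l.T.μ (fun ω => Q (y.l.p.π ω) (y.g' ω)) ω h]
    simp only [e1_ind_neg h, mul_zero]

omit [Fintype ι] [DecidableEq ι] in
theorem pb_glu {F T : FSp} {p : FPj T F} {E : T.Ω → Prop} (Q : F.Ω → Matrix ι ι ℝ → Prop) (y1 : FD (FSp.im p E) ι)
    (y2 : FD (FSp.im p (fun ω => ¬ E ω)) ι) :
    (gluFD p E y1 y2).l.T.pb (fun ω => Q ((gluFD p E y1 y2).l.p.π ω) ((gluFD p E y1 y2).g ω)) =
      T.pb E * y1.l.T.pb (fun ω => Q (y1.l.p.π ω) (y1.g ω)) +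
      (1 - T.pb E) * y2.l.T.pb (fun ω => Q (y2.l.p.π ω) (y2.g ω)) := by
  rw [pb_fval Q (gluFD p E y1 y2), pb_fval (F := FSp.im p E) Q y1, pb_fval (F := FSp.im p (fun ω => ¬ E ω)) Q y2]
  exact fval_glu _ y1 y2

omit [Fintype ι] [DecidableEq ι] in
theorem pb_glu' {F T : FSp} {p : FPj T F} {E : T.Ω → Prop} (Q : F.Ω → Matrix ι ι ℝ → Prop) (y1 : FD (FSp.im p E) ι)
    (y2 : FD (FSp.im p (fun ω => ¬ E ω)) ι) :
    (gluFD p E y1 y2).l.T.pb (fun ω => Q ((gluFD p E y1 y2).l.p.π ω) ((gluFD p E y1 y2).g' ω)) =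
      T.pb E * y1.l.T.pb (fun ω => Q (y1.l.p.π ω) (y1.g' ω)) +
      (1 - T.pb E) * y2.l.T.pb (fun ω => Q (y2.l.p.π ω) (y2.g' ω)) := by
  rw [pb_fval' Q (gluFD p E y1 y2), pb_fval' (F := FSp.im p E) Q y1, pb_fval' (F := FSp.im p (fun ω => ¬ E ω)) Q y2]
  exact fval2_glu _ y1 y2

omit [Fintype ι] [DecidableEq ι] in
theorem fval_nonneg {F : FSp} {f : F.Ω → Matrix ι ι ℝ → ℝ} (y : FD F ι)
    (h : ∀ ω, y.l.T.μ ω ≠ 0 → 0 ≤ f (y.l.p.π ω) (y.g ω)) : 0 ≤ fval f y := by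
  apply Finset.sum_nonneg
  intro ω _
  by_cases h0 : y.l.T.μ ω = 0
  · rw [h0, zero_mul]
  · exact mul_nonneg (y.l.T.nn ω) (h ω h0)

omit [Fintype ι] [DecidableEq ι] in
theorem pb_im_le {F T : FSp} {p : FPj T F} {E : T.Ω → Prop} (hn : T.n = F.n) (Q : F.Ω → Matrix ι ι ℝ → Prop)
    (y : FD F ι) : T.pb E * (imFD p E hn y).l.T.pb
      (fun ω => Q ((imFD p E hn y).l.p.π ω) ((imFD p E hn y).g ω)) ≤ y.l.T.pb (fun ω => Q (y.l.p.π ω) (y.g ω)) := by
  have h1 := fval_im (p := p) (E := E) hn (fun ω A => e1_ind (Q ω A)) y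
  rw [pb_fval Q y, pb_fval (F := FSp.im p E) Q (imFD p E hn y), h1]
  have h2 : 0 ≤ fval (F := FSp.im p (fun ω => ¬ E ω)) (fun ω A => e1_ind (Q ω A)) (imFD p (fun ω => ¬ E ω) hn y) :=
    fval_nonneg _ fun ω _ => ind_nonneg _
  exact le_add_of_nonneg_right (mul_nonneg (sub_nonneg.mpr (T.pb_le_one E)) h2)

omit [Fintype ι] [DecidableEq ι] in
theorem pb_im_le' {F T : FSp} {p : FPj T F} {E : T.Ω → Prop} (hn : T.n = F.n) (Q : F.Ω → Matrix ι ι ℝ → Prop)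
    (y : FD F ι) : T.pb E * (imFD p E hn y).l.T.pb
      (fun ω => Q ((imFD p E hn y).l.p.π ω) ((imFD p E hn y).g' ω)) ≤
      y.l.T.pb (fun ω => Q (y.l.p.π ω) (y.g' ω)) := by
  have h1 := fval2_im (p := p) (E := E) hn (fun ω _ A => e1_ind (Q ω A)) y
  rw [pb_fval' Q y, pb_fval' (F := FSp.im p E) Q (imFD p E hn y), h1]
  have h2 : 0 ≤ fval2 (F := FSp.im p (fun ω => ¬ E ω)) (fun ω _ A => e1_ind (Q ω A))
      (imFD p (fun ω => ¬ E ω) hn y) := by
    apply Finset.sum_nonneg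
    intro ω _
    exact mul_nonneg ((imFD p (fun ω => ¬ E ω) hn y).l.T.nn ω) (ind_nonneg _)
  exact le_add_of_nonneg_right (mul_nonneg (sub_nonneg.mpr (T.pb_le_one E)) h2)

end

variable {p : Pj T S} {E : ∀ k, (T.F k).Ω → Prop} {A B : Part S}

/-- restrictions of admissible sequences are admissible -/
theorem Ad_im (s : Sys S m) (hE : 0 < ul (T.pr E)) {y : ∀ k, FD (S.F k) (Mon (m + 1) D)}
    (hy : (gau s D).Ad A B y) : (gau (s.im p E hE) D).Ad (A.im p E) (B.im p E) (imS p E y) := by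
  intro η hη
  set r := ul (T.pr E) with hr
  have hr1 : r ≤ 1 := ul_pr_le_one E
  have hη' : 0 < η * r / 4 := by positivity
  have hle : η * r / 4 ≤ η := by nlinarith
  have hnk : ∀ᶠ k in UF, (4 / (η * r) : ℝ) ≤ (S.F k).n := S.lim.eventually (eventually_ge_atTop _)
  filter_upwards [hy _ hη', pr_half' hE, hnk] with k hk hp hn
  have hn0 := (S.F k).pos
  have hpb : r / 2 ≤ (T.F k).pb (E k) := hp
  have h4 : 4 ≤ (η * r) * (S.F k).n := by
    rw [div_le_iff₀ (by positivity)] at hn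
    linarith
  have hthr : (2 : ℝ) ^ (η * r / 4 * (S.F k).n) ≤ 2 ^ (η * (S.F k).n) :=
    Real.rpow_le_rpow_of_exponent_le (by norm_num) (mul_le_mul_of_nonneg_right hle hn0.le)
  have leak : ∀ X : Part S, (y k).l.leak (X k) ≤ η * r / 4 * (S.F k).n →
      (imS p E y k).l.leak ((X.im p E) k) ≤ η * (S.F k).n := by
    intro X hX
    have h1 := im_leak (p := p.fp k) (E := E k) (p.hn k) (y k) (X k)
    have h2 : 0 ≤ (imS p E y k).l.leak ((X.im p E) k) := FLab.leak_nonneg _ _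
    have h3 : r / 2 * (imS p E y k).l.leak ((X.im p E) k) ≤ r / 2 * (η * (S.F k).n) := by
      refine (mul_le_mul_of_nonneg_right hpb h2).trans (h1.trans ?_)
      nlinarith
    exact le_of_mul_le_mul_left h3 (by positivity)
  refine ⟨leak A hk.1, leak B hk.2.1, ?_, ?_, ?_⟩
  · intro w hw
    exact im_all (p := p.fp k) (E := E k) (p.hn k) (Cpd ((gau s D).cp k)) (y k) hk.2.2.1 w hw
  · have h1 := pb_im_le (p := p.fp k) (E := E k) (p.hn k) (fun ω A => ¬ (gau s D).φ k ω A ≤ 2 ^ (η * (S.F k).n)) (y k)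
    have h2 : (y k).l.T.pb (fun ω => ¬ (gau s D).φ k ((y k).l.p.π ω) ((y k).g ω) ≤ 2 ^ (η * (S.F k).n)) ≤
        η * r / 4 := by
      refine le_trans ((y k).l.T.pb_mono ?_) hk.2.2.2.1
      intro ω _ h3 h4
      exact h3 (h4.trans hthr)
    have h3 : 0 ≤ (imS p E y k).l.T.pb (fun ω => ¬ (gau s D).φ k ((imS p E y k).l.p.π ω) ((imS p E y k).g ω) ≤
        2 ^ (η * (S.F k).n)) := FSp.pb_nonneg _ _
    have h5 : r / 2 * (imS p E y k).l.T.pb (fun ω => ¬ (gau s D).φ k ((imS p E y k).l.p.π ω) ((imS p E y k).g ω) ≤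
        2 ^ (η * (S.F k).n)) ≤ r / 2 * η := by
      refine (mul_le_mul_of_nonneg_right hpb h3).trans (h1.trans (h2.trans ?_))
      nlinarith
    exact le_of_mul_le_mul_left h5 (by positivity)
  · have h1 := pb_im_le' (p := p.fp k) (E := E k) (p.hn k) (fun ω A => ¬ (gau s D).φ k ω A ≤ 2 ^ (η * (S.F k).n)) (y k)
    have h2 : (y k).l.T.pb (fun ω => ¬ (gau s D).φ k ((y k).l.p.π ω) ((y k).g' ω) ≤ 2 ^ (η * (S.F k).n)) ≤
        η * r / 4 := by
      refine le_trans ((y k).l.T.pb_mono ?_) hk.2.2.2.2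
      intro ω _ h3 h4
      exact h3 (h4.trans hthr)
    have h3 : 0 ≤ (imS p E y k).l.T.pb (fun ω => ¬ (gau s D).φ k ((imS p E y k).l.p.π ω) ((imS p E y k).g' ω) ≤
        2 ^ (η * (S.F k).n)) := FSp.pb_nonneg _ _
    have h5 : r / 2 * (imS p E y k).l.T.pb (fun ω => ¬ (gau s D).φ k ((imS p E y k).l.p.π ω) ((imS p E y k).g' ω) ≤
        2 ^ (η * (S.F k).n)) ≤ r / 2 * η := by
      refine (mul_le_mul_of_nonneg_right hpb h3).trans (h1.trans (h2.trans ?_))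
      nlinarith
    exact le_of_mul_le_mul_left h5 (by positivity)

/-- glued sequences, general form: the second sequence is only admissible after multiplication by the probability -/
theorem Ad_glu_of (s : Sys S m) (hE : 0 < ul (T.pr E)) {y1 : ∀ k, FD ((Sp.im p E).F k) (Mon (m + 1) D)}
    {y2 : ∀ k, FD ((Sp.im p fun k ω => ¬ E k ω).F k) (Mon (m + 1) D)}
    (h1 : (gau (s.im p E hE) D).Ad (A.im p E) (B.im p E) y1)
    (h2 : ∀ η : ℝ, 0 < η → ∀ᶠ k in UF, (1 - (T.F k).pb (E k)) * (y2 k).l.leak ((A.im p fun k ω => ¬ E k ω) k) ≤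
        η * (S.F k).n ∧ (1 - (T.F k).pb (E k)) * (y2 k).l.leak ((B.im p fun k ω => ¬ E k ω) k) ≤ η * (S.F k).n ∧
      (∀ ω, (y2 k).l.T.μ ω ≠ 0 → Cpd ((gau s D).cp k) ((y2 k).g ω) ∧ Cpd ((gau s D).cp k) ((y2 k).g' ω)) ∧
      (1 - (T.F k).pb (E k)) * (y2 k).l.T.pb (fun ω => ¬ (gau s D).φ k ((y2 k).l.p.π ω) ((y2 k).g ω) ≤
        2 ^ (η * (S.F k).n)) ≤ η ∧
      (1 - (T.F k).pb (E k)) * (y2 k).l.T.pb (fun ω => ¬ (gau s D).φ k ((y2 k).l.p.π ω) ((y2 k).g' ω) ≤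
        2 ^ (η * (S.F k).n)) ≤ η) : (gau s D).Ad A B (gluS p E y1 y2) := by
  intro η hη
  have hη' : 0 < η / 3 := by positivity
  have hnk : ∀ᶠ k in UF, (3 / η : ℝ) ≤ (S.F k).n := S.lim.eventually (eventually_ge_atTop _)
  filter_upwards [h1 _ hη', h2 _ hη', hnk] with k a b hn
  have hn0 := (S.F k).pos
  have h3 : 3 ≤ η * (S.F k).n := by
    rw [div_le_iff₀ hη] at hn
    linarith
  have hp0 := (T.F k).pb_nonneg (E k)
  have hp1 := (T.F k).pb_le_one (E k)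
  have hthr : (2 : ℝ) ^ (η / 3 * (S.F k).n) ≤ 2 ^ (η * (S.F k).n) :=
    Real.rpow_le_rpow_of_exponent_le (by norm_num) (mul_le_mul_of_nonneg_right (by linarith) hn0.le)
  have leak : ∀ X : Part S, (y1 k).l.leak ((X.im p E) k) ≤ η / 3 * (S.F k).n →
      (1 - (T.F k).pb (E k)) * (y2 k).l.leak ((X.im p fun k ω => ¬ E k ω) k) ≤ η / 3 * (S.F k).n →
      (gluS p E y1 y2 k).l.leak (X k) ≤ η * (S.F k).n := by
    intro X h4 h5
    have h6 : (gluS p E y1 y2 k).l.leak (X k) ≤ (T.F k).pb (E k) * (y1 k).l.leak ((X.im p E) k) +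
      (1 - (T.F k).pb (E k)) * (y2 k).l.leak ((X.im p fun k ω => ¬ E k ω) k) + 1 := glu_leak (y1 k) (y2 k) (X k)
    have h7 : (T.F k).pb (E k) * (y1 k).l.leak ((X.im p E) k) ≤ 1 * (η / 3 * (S.F k).n) :=
      mul_le_mul hp1 h4 (FLab.leak_nonneg _ _) zero_le_one
    linarith
  have a1 : (y1 k).l.leak ((A.im p E) k) ≤ η / 3 * (S.F k).n := a.1
  have a2 : (y1 k).l.leak ((B.im p E) k) ≤ η / 3 * (S.F k).n := a.2.1
  refine ⟨leak A a1 b.1, leak B a2 b.2.1, ?_, ?_, ?_⟩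
  · intro w hw
    exact glu_all (Cpd ((gau s D).cp k)) (y1 k) (y2 k) a.2.2.1 b.2.2.1 w hw
  · have h4 : (gluS p E y1 y2 k).l.T.pb (fun ω => ¬ (gau s D).φ k ((gluS p E y1 y2 k).l.p.π ω)
        ((gluS p E y1 y2 k).g ω) ≤ 2 ^ (η * (S.F k).n)) =
      (T.F k).pb (E k) * (y1 k).l.T.pb (fun ω => ¬ (gau s D).φ k ((y1 k).l.p.π ω) ((y1 k).g ω) ≤
        2 ^ (η * (S.F k).n)) +
      (1 - (T.F k).pb (E k)) * (y2 k).l.T.pb (fun ω => ¬ (gau s D).φ k ((y2 k).l.p.π ω) ((y2 k).g ω) ≤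
        2 ^ (η * (S.F k).n)) :=
      pb_glu (fun ω A => ¬ (gau s D).φ k ω A ≤ 2 ^ (η * (S.F k).n)) (y1 k) (y2 k)
    have h5 : (y1 k).l.T.pb (fun ω => ¬ (gau s D).φ k ((y1 k).l.p.π ω) ((y1 k).g ω) ≤ 2 ^ (η * (S.F k).n)) ≤
        η / 3 := by
      refine le_trans ((y1 k).l.T.pb_mono ?_) a.2.2.2.1
      intro ω _ h6 h7
      exact h6 (le_trans h7 hthr)
    have h6 : (1 - (T.F k).pb (E k)) * (y2 k).l.T.pb (fun ω => ¬ (gau s D).φ k ((y2 k).l.p.π ω) ((y2 k).g ω) ≤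
        2 ^ (η * (S.F k).n)) ≤ η / 3 := by
      refine le_trans (mul_le_mul_of_nonneg_left ((y2 k).l.T.pb_mono ?_) (sub_nonneg.mpr hp1)) b.2.2.2.1
      intro ω _ h6 h7
      exact h6 (le_trans h7 hthr)
    have h7 := mul_le_mul hp1 h5 (FSp.pb_nonneg _ _) zero_le_one
    rw [h4]
    linarith
  · have h4 : (gluS p E y1 y2 k).l.T.pb (fun ω => ¬ (gau s D).φ k ((gluS p E y1 y2 k).l.p.π ω)
        ((gluS p E y1 y2 k).g' ω) ≤ 2 ^ (η * (S.F k).n)) =
      (T.F k).pb (E k) * (y1 k).l.T.pb (fun ω => ¬ (gau s D).φ k ((y1 k).l.p.π ω) ((y1 k).g' ω) ≤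
        2 ^ (η * (S.F k).n)) +
      (1 - (T.F k).pb (E k)) * (y2 k).l.T.pb (fun ω => ¬ (gau s D).φ k ((y2 k).l.p.π ω) ((y2 k).g' ω) ≤
        2 ^ (η * (S.F k).n)) :=
      pb_glu' (fun ω A => ¬ (gau s D).φ k ω A ≤ 2 ^ (η * (S.F k).n)) (y1 k) (y2 k)
    have h5 : (y1 k).l.T.pb (fun ω => ¬ (gau s D).φ k ((y1 k).l.p.π ω) ((y1 k).g' ω) ≤ 2 ^ (η * (S.F k).n)) ≤
        η / 3 := by
      refine le_trans ((y1 k).l.T.pb_mono ?_) a.2.2.2.2
      intro ω _ h6 h7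
      exact h6 (le_trans h7 hthr)
    have h6 : (1 - (T.F k).pb (E k)) * (y2 k).l.T.pb (fun ω => ¬ (gau s D).φ k ((y2 k).l.p.π ω) ((y2 k).g' ω) ≤
        2 ^ (η * (S.F k).n)) ≤ η / 3 := by
      refine le_trans (mul_le_mul_of_nonneg_left ((y2 k).l.T.pb_mono ?_) (sub_nonneg.mpr hp1)) b.2.2.2.2
      intro ω _ h6 h7
      exact h6 (le_trans h7 hthr)
    have h7 := mul_le_mul hp1 h5 (FSp.pb_nonneg _ _) zero_le_one
    rw [h4]
    linarith

/-- glued admissible sequences are admissible -/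
theorem Ad_glu (s : Sys S m) (hE : 0 < ul (T.pr E)) (hE' : 0 < ul (T.pr fun k ω => ¬ E k ω))
    {y1 : ∀ k, FD ((Sp.im p E).F k) (Mon (m + 1) D)}
    {y2 : ∀ k, FD ((Sp.im p fun k ω => ¬ E k ω).F k) (Mon (m + 1) D)}
    (h1 : (gau (s.im p E hE) D).Ad (A.im p E) (B.im p E) y1)
    (h2 : (gau (s.im p (fun k ω => ¬ E k ω) hE') D).Ad (A.im p fun k ω => ¬ E k ω) (B.im p fun k ω => ¬ E k ω) y2) :
    (gau s D).Ad A B (gluS p E y1 y2) := by
  apply Ad_glu_of s hE h1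
  intro η hη
  filter_upwards [h2 η hη] with k b
  have hp0 := (T.F k).pb_nonneg (E k)
  have hp1 := (T.F k).pb_le_one (E k)
  have key : ∀ a c : ℝ, 0 ≤ a → a ≤ c → (1 - (T.F k).pb (E k)) * a ≤ c := by
    intro a c h3 h4
    nlinarith
  exact ⟨key _ _ (FLab.leak_nonneg _ _) b.1, key _ _ (FLab.leak_nonneg _ _) b.2.1, b.2.2.1,
    key _ _ (FSp.pb_nonneg _ _) b.2.2.2.1, key _ _ (FSp.pb_nonneg _ _) b.2.2.2.2⟩

/-- glueing with the trivial label outside of a typical event -/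
theorem Ad_glu_triv (s : Sys S m) (hE : 0 < ul (T.pr E)) (ht : Typ E) {y1 : ∀ k, FD ((Sp.im p E).F k) (Mon (m + 1) D)}
    (h1 : (gau (s.im p E hE) D).Ad (A.im p E) (B.im p E) y1) :
    (gau s D).Ad A B (gluS p E y1 fun k => trivFD ((Sp.im p fun k ω => ¬ E k ω).F k)) := by
  apply Ad_glu_of s hE h1
  intro η hη
  have h3 : ∀ᶠ k in UF, 1 - η ≤ (T.F k).pb (E k) := by
    have h4 : Tendsto (fun k => (T.F k).pb (E k)) UF (𝓝 1) := (Typ_iff E).mp ht
    exact h4.eventually (eventually_ge_nhds (by linarith))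
  filter_upwards [h3] with k b
  have hn0 := (S.F k).pos
  have hp1 := (T.F k).pb_le_one (E k)
  have l0 : ∀ X : FL ((Sp.im p fun k ω => ¬ E k ω).F k),
      (trivFD (ι := Mon (m + 1) D) ((Sp.im p fun k ω => ¬ E k ω).F k)).l.leak X = 0 := fun X => FLab.triv_leak X
  have key : ∀ a : ℝ, a ≤ 1 → 0 ≤ a → (1 - (T.F k).pb (E k)) * a ≤ η := by
    intro a h4 h5
    nlinarith
  refine ⟨?_, ?_, fun ω _ => ⟨Cpd_one (Gau.one_le_cp _ k), Cpd_one (Gau.one_le_cp _ k)⟩,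
    key _ (FSp.pb_le_one _ _) (FSp.pb_nonneg _ _), key _ (FSp.pb_le_one _ _) (FSp.pb_nonneg _ _)⟩
  · rw [l0, mul_zero]; positivity
  · rw [l0, mul_zero]; positivity

/-- the logarithm of the volume determinant as a function of the point and of the form -/
def vfun (s : Sys S m) (D : ℕ) (k : ℕ) (ω : (S.F k).Ω) (A : Matrix (Mon (m + 1) D) (Mon (m + 1) D) ℝ) : ℝ :=
  Real.logb 2 (GG (S.dl 1 k) A (ptf s k ω))

theorem lgd_fval (s : Sys S m) (y : ∀ k, FD (S.F k) (Mon (m + 1) D)) (k : ℕ) :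
    lgd s D y k = fval (vfun s D k) (y k) := rfl

theorem vfun_nonneg (s : Sys S m) (k : ℕ) (ω : (S.F k).Ω) {A : Matrix (Mon (m + 1) D) (Mon (m + 1) D) ℝ} {c : ℝ}
    (h : Cpd c A) : 0 ≤ vfun s D k ω A := logGG_nonneg _ h.pdM _

/-- additivity of the expected logarithm for glued sequences -/
theorem lgd_glu (s : Sys S m) (y1 : ∀ k, FD ((Sp.im p E).F k) (Mon (m + 1) D))
    (y2 : ∀ k, FD ((Sp.im p fun k ω => ¬ E k ω).F k) (Mon (m + 1) D)) (k : ℕ) :
    lgd s D (gluS p E y1 y2) k = (T.F k).pb (E k) * fval (F := (Sp.im p E).F k) (vfun s D k) (y1 k) +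
      (1 - (T.F k).pb (E k)) * fval (F := (Sp.im p fun k ω => ¬ E k ω).F k) (vfun s D k) (y2 k) :=
  fval_glu (vfun s D k) (y1 k) (y2 k)

/-- additivity of the expected logarithm for restricted sequences -/
theorem lgd_im (s : Sys S m) (y : ∀ k, FD (S.F k) (Mon (m + 1) D)) (k : ℕ) :
    lgd s D y k = (T.F k).pb (E k) * fval (F := (Sp.im p E).F k) (vfun s D k) (imS p E y k) +
      (1 - (T.F k).pb (E k)) * fval (F := (Sp.im p fun k ω => ¬ E k ω).F k) (vfun s D k)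
        (imS p (fun k ω => ¬ E k ω) y k) :=
  fval_im (p := p.fp k) (E := E k) (p.hn k) (vfun s D k) (y k)

theorem lgd_sim (s : Sys S m) (hE : 0 < ul (T.pr E)) (y : ∀ k, FD ((Sp.im p E).F k) (Mon (m + 1) D)) (k : ℕ) :
    lgd (s.im p E hE) D y k = fval (F := (Sp.im p E).F k) (vfun s D k) (y k) := rfl

/-- SUPERADDITIVITY of the logarithmic volume -/
theorem lvol_spl (s : Sys S m) (hE : 0 < ul (T.pr E)) (hE' : 0 < ul (T.pr fun k ω => ¬ E k ω)) (c : ℝ) :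
    ul (T.pr E) * lvol (s.im p E hE) D c + (1 - ul (T.pr E)) * lvol (s.im p (fun k ω => ¬ E k ω) hE') D c ≤
      lvol s D c := by
  obtain ⟨y1, a1⟩ := exists_can (s.im p E hE) D c
  obtain ⟨y2, a2⟩ := exists_can (s.im p (fun k ω => ¬ E k ω) hE') D c
  have b1 : (gau (s.im p E hE) D).Ad ((cA s c).im p E) ((cB s).im p E) y1 := a1.1.1
  have b2 : (gau (s.im p (fun k ω => ¬ E k ω) hE') D).Ad ((cA s c).im p fun k ω => ¬ E k ω)
    ((cB s).im p fun k ω => ¬ E k ω) y2 := a2.1.1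
  have h1 := Ad_glu s hE hE' b1 b2
  have h2 := lgd_le_lvol s h1
  have h3 : (fun k => lgd s D (gluS p E y1 y2) k / (S.F k).n) = fun k => T.pr E k *
      (lgd (s.im p E hE) D y1 k / (S.F k).n) + (1 - T.pr E k) *
      (lgd (s.im p (fun k ω => ¬ E k ω) hE') D y2 k / (S.F k).n) := by
    funext k
    have hn := (S.F k).pos.ne'
    rw [lgd_glu, lgd_sim, lgd_sim]
    show ((T.F k).pb (E k) * _ + (1 - (T.F k).pb (E k)) * _) / _ = (T.F k).pb (E k) * _ +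
      (1 - (T.F k).pb (E k)) * _
    ring
  have t0 := ul_tendsto (UB_pr E)
  have u1 : UB (fun k => lgd (s.im p E hE) D y1 k / (S.F k).n) := lgd_UB (s.im p E hE) a1.1.1
  have u2 : UB (fun k => lgd (s.im p (fun k ω => ¬ E k ω) hE') D y2 k / (S.F k).n) :=
    lgd_UB (s.im p (fun k ω => ¬ E k ω) hE') a2.1.1
  have t1 := ul_tendsto u1
  have t2 := ul_tendsto u2
  have e1 : ul (fun k => lgd (s.im p E hE) D y1 k / (S.F k).n) = lvol (s.im p E hE) D c :=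
    lvol_eq (s.im p E hE) a1.1
  have e2 : ul (fun k => lgd (s.im p (fun k ω => ¬ E k ω) hE') D y2 k / (S.F k).n) =
    lvol (s.im p (fun k ω => ¬ E k ω) hE') D c := lvol_eq (s.im p (fun k ω => ¬ E k ω) hE') a2.1
  rw [e1] at t1
  rw [e2] at t2
  have t3 := (t0.mul t1).add ((t0.const_sub 1).mul t2)
  rw [h3, ul_eq t3] at h2
  exact h2

/-- SUBADDITIVITY of the logarithmic volume -/
theorem lvol_spl' (s : Sys S m) (hE : 0 < ul (T.pr E)) (hE' : 0 < ul (T.pr fun k ω => ¬ E k ω)) (c : ℝ) :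
    lvol s D c ≤
      ul (T.pr E) * lvol (s.im p E hE) D c + (1 - ul (T.pr E)) * lvol (s.im p (fun k ω => ¬ E k ω) hE') D c := by
  obtain ⟨y, a⟩ := exists_can s D c
  have b1 : (gau (s.im p E hE) D).Ad (cA (s.im p E hE) c) (cB (s.im p E hE)) (imS p E y) :=
      Ad_im (A := cA s c) (B := cB s) s hE a.1.1
  have b2 : (gau (s.im p (fun k ω => ¬ E k ω) hE') D).Ad (cA (s.im p (fun k ω => ¬ E k ω) hE') c)
    (cB (s.im p (fun k ω => ¬ E k ω) hE')) (imS p (fun k ω => ¬ E k ω) y) :=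
      Ad_im (A := cA s c) (B := cB s) s hE' a.1.1
  have h1 := lgd_le_lvol (s.im p E hE) b1
  have h2 := lgd_le_lvol (s.im p (fun k ω => ¬ E k ω) hE') b2
  have h3 : (fun k => lgd s D y k / (S.F k).n) = fun k => T.pr E k *
      (lgd (s.im p E hE) D (imS p E y) k / (S.F k).n) + (1 - T.pr E k) *
      (lgd (s.im p (fun k ω => ¬ E k ω) hE') D (imS p (fun k ω => ¬ E k ω) y) k / (S.F k).n) := by
    funext k
    have hn := (S.F k).pos.ne'
    rw [lgd_im (p := p) (E := E), lgd_sim, lgd_sim]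
    show ((T.F k).pb (E k) * _ + (1 - (T.F k).pb (E k)) * _) / _ = (T.F k).pb (E k) * _ +
      (1 - (T.F k).pb (E k)) * _
    ring
  have t0 := ul_tendsto (UB_pr E)
  have u1 : UB (fun k => lgd (s.im p E hE) D (imS p E y) k / (S.F k).n) := lgd_UB (s.im p E hE) b1
  have u2 : UB (fun k => lgd (s.im p (fun k ω => ¬ E k ω) hE') D (imS p (fun k ω => ¬ E k ω) y) k / (S.F k).n) :=
    lgd_UB (s.im p (fun k ω => ¬ E k ω) hE') b2
  have t3 := (t0.mul (ul_tendsto u1)).add ((t0.const_sub 1).mul (ul_tendsto u2))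
  rw [← lvol_eq s a.1, h3, ul_eq t3]
  have h5 := ul_pr_le_one E
  exact add_le_add (mul_le_mul_of_nonneg_left h1 hE.le) (mul_le_mul_of_nonneg_left h2 (sub_nonneg.mpr h5))

/-- the logarithmic volume does not see typical events -/
theorem lvol_typ (s : Sys S m) (hE : 0 < ul (T.pr E)) (ht : Typ E) (c : ℝ) :
    lvol (s.im p E hE) D c = lvol s D c := by
  have hpr : Tendsto (fun k => (T.F k).pb (E k)) UF (𝓝 1) := (Typ_iff E).mp ht
  apply le_antisymm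
  · obtain ⟨y1, a1⟩ := exists_can (s.im p E hE) D c
    have b1 : (gau (s.im p E hE) D).Ad ((cA s c).im p E) ((cB s).im p E) y1 := a1.1.1
    have h1 := Ad_glu_triv s hE ht b1
    have h2 := lgd_le_lvol s h1
    have u1 : UB (fun k => lgd (s.im p E hE) D y1 k / (S.F k).n) := lgd_UB (s.im p E hE) a1.1.1
    have e1 : ul (fun k => lgd (s.im p E hE) D y1 k / (S.F k).n) = lvol (s.im p E hE) D c :=
      lvol_eq (s.im p E hE) a1.1
    have t1 := hpr.mul (ul_tendsto u1)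
    rw [e1, one_mul] at t1
    have hev : ∀ᶠ k in UF, (T.F k).pb (E k) * (lgd (s.im p E hE) D y1 k / (S.F k).n) ≤
        lgd s D (gluS p E y1 fun k => trivFD ((Sp.im p fun k ω => ¬ E k ω).F k)) k / (S.F k).n := by
      apply Eventually.of_forall
      intro k
      have hn := (S.F k).pos
      rw [lgd_glu, ← mul_div_assoc]
      apply div_le_div_of_nonneg_right _ hn.le
      rw [lgd_sim]
      have h6 : 0 ≤ fval (F := (Sp.im p fun k ω => ¬ E k ω).F k) (vfun s D k)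
          (trivFD ((Sp.im p fun k ω => ¬ E k ω).F k)) :=
        fval_nonneg _ fun ω _ => vfun_nonneg s k _ (Cpd_one (Gau.one_le_cp (gau s D) k))
      exact le_add_of_nonneg_right (mul_nonneg (sub_nonneg.mpr ((T.F k).pb_le_one (E k))) h6)
    exact (le_of_tendsto_of_tendsto t1 (ul_tendsto (lgd_UB s h1)) hev).trans h2
  · obtain ⟨y, a⟩ := exists_can s D c
    have b1 : (gau (s.im p E hE) D).Ad (cA (s.im p E hE) c) (cB (s.im p E hE)) (imS p E y) :=
      Ad_im (A := cA s c) (B := cB s) s hE a.1.1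
    have h1 := lgd_le_lvol (s.im p E hE) b1
    obtain ⟨C, hC, hub⟩ := logGG_ub s D
    have u1 : UB (fun k => lgd (s.im p E hE) D (imS p E y) k / (S.F k).n) := lgd_UB (s.im p E hE) b1
    have t1 := (hpr.mul (ul_tendsto u1)).add ((hpr.const_sub 1).mul_const C)
    rw [one_mul, sub_self, zero_mul, add_zero] at t1
    rw [← lvol_eq s a.1]
    have hev : ∀ᶠ k in UF, lgd s D y k / (S.F k).n ≤ (T.F k).pb (E k) *
        (lgd (s.im p E hE) D (imS p E y) k / (S.F k).n) + (1 - (T.F k).pb (E k)) * C := ?_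
    · exact (le_of_tendsto_of_tendsto (ul_tendsto (lgd_UB s a.1.1)) t1 hev).trans h1
    filter_upwards [hub, a.1.1 1 one_pos] with k h2 h3
    have hn := (S.F k).pos
    rw [lgd_im (p := p) (E := E), div_le_iff₀ hn, lgd_sim]
    have h4 : fval (F := (Sp.im p fun k ω => ¬ E k ω).F k) (vfun s D k) (imS p (fun k ω => ¬ E k ω) y k) ≤
        C * (S.F k).n := by
      apply sum_mul_le
      intro ω hω
      have h5 := im_all (p := p.fp k) (E := fun ω => ¬ E k ω) (p.hn k) (Cpd ((gau s D).cp k)) (y k) h3.2.2.1 ω hω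
      have h6 := (imS p (fun k ω => ¬ E k ω) y k).l.p.supp ω hω
      exact h2 _ (FSp.im_supp _ _ _ h6) _ h5.1
    have h7 := mul_le_mul_of_nonneg_left h4 (sub_nonneg.mpr ((T.F k).pb_le_one (E k)))
    have h8 : (fval (F := (Sp.im p E).F k) (vfun s D k) (imS p E y k) / ((S.F k).n : ℝ)) * (S.F k).n =
      fval (F := (Sp.im p E).F k) (vfun s D k) (imS p E y k) := div_mul_cancel₀ _ hn.ne'
    rw [add_mul, mul_assoc, h8, mul_assoc]
    exact add_le_add le_rfl h7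

end

end Pool.Agent.Helper59.EV
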