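import Pool.Agent.Helper59.EV.Reg
import Pool.Agent.Helper89.LX.Frm

/-! END in regular volume, corollary for forms between the identity and a cap: the exponent is not truncated. -/

set_option autoImplicit false

namespace Pool.Agent.Helper59.EV

open Finset Filter Topology MvPolynomial MeasureTheory Matrix Pool.Agent.Helper69.RK Pool.Agent.Helper59.EN
open Pool.Agent.Helper31.EC Pool.Agent.Helper31.EC.Sp Pool.Agent.Helper95.LF
open Pool.Agent.Helper3.LF Pool.Agent.Helper89.LX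
open Pool.Agent.Helper48.NS (GG cU cU_one one_le_GG GG_le_phi)

noncomputable section

/-- expectation of a function which is at most `e` on the event and at most `M` everywhere -/
theorem sum_split_le {F : FSp} (f : F.Ω → ℝ) (E : F.Ω → Prop) (e M : ℝ) (he : 0 ≤ e) (hM : 0 ≤ M)
    (h1 : ∀ ω, F.μ ω ≠ 0 → E ω → f ω ≤ e) (h2 : ∀ ω, F.μ ω ≠ 0 → f ω ≤ M) :
    ∑ ω, F.μ ω * f ω ≤ e + M * mass (res F.μ (fun ω => ¬ E ω)) := by
  classical
  have h3 : ∀ ω, F.μ ω * f ω ≤ F.μ ω * e + M * res F.μ (fun ω => ¬ E ω) ω := by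
    intro ω
    by_cases h0 : F.μ ω = 0
    · have h5 : res F.μ (fun ω => ¬ E ω) ω = 0 := by
        unfold res
        split_ifs
        · exact h0
        · rfl
      rw [h0, h5]
      simp
    · have hμ : 0 ≤ F.μ ω := F.nn ω
      by_cases hE : E ω
      · have h4 := mul_le_mul_of_nonneg_left (h1 ω h0 hE) hμ
        have h5 : 0 ≤ res F.μ (fun ω => ¬ E ω) ω := by
          unfold res
          split_ifs
          · exact hμ
          · exact le_rfl
        have h6 := mul_nonneg hM h5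
        linarith
      · have h4 := mul_le_mul_of_nonneg_left (h2 ω h0) hμ
        have h5 : res F.μ (fun ω => ¬ E ω) ω = F.μ ω := if_pos hE
        rw [h5]
        have h6 := mul_nonneg hμ he
        linarith
  refine (Finset.sum_le_sum fun ω _ => h3 ω).trans ?_
  rw [Finset.sum_add_distrib, ← Finset.sum_mul, ← Finset.mul_sum]
  have : ∑ ω, F.μ ω = 1 := F.ms
  rw [this, one_mul]
  exact le_rfl

/-- points of a system are tame -/
theorem pl_bd {S : Sp} {m : ℕ} (a x : S.VV m) (t : S.VV 1) : ∃ K : ℕ → ℝ, S.Sub K ∧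
    ∀ᶠ k in UF, ∀ ω, (S.F k).μ ω ≠ 0 → ∀ i, |pl (a.v k ω) (x.v k ω) (t.v k ω 0) i| ≤ K k := by
  obtain ⟨Ka, hKa, ha⟩ := a.bd
  obtain ⟨Kx, hKx, hx⟩ := x.bd
  obtain ⟨Kt, hKt, ht⟩ := t.bd
  refine ⟨fun k => Kt k + (Ka k + Kt k * Kx k), hKt.add (hKa.add (hKt.mul hKx)), ?_⟩
  filter_upwards [ha, hx, ht, hKa.1, hKx.1, hKt.1] with k h1 h2 h3 h4 h5 h6 ω hω i
  have h7 : 0 ≤ Kt k * Kx k := mul_nonneg h6 h5
  refine Fin.cases ?_ (fun j => ?_) i
  · show |t.v k ω 0| ≤ _
    have := h3 ω hω 0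
    linarith
  · show |a.v k ω j + t.v k ω 0 * x.v k ω j| ≤ _
    have e1 := abs_add_le (a.v k ω j) (t.v k ω 0 * x.v k ω j)
    rw [abs_mul] at e1
    have e2 : |t.v k ω 0| * |x.v k ω j| ≤ Kt k * Kx k :=
      mul_le_mul (h3 ω hω 0) (h2 ω hω j) (abs_nonneg _) h6
    have := h1 ω hω j
    linarith

/-- the exponent of the gradient determinant -/
def gex {S : Sp} {m D : ℕ} (a x : S.VV m) (t : S.VV 1)
    (A : ∀ k, (S.F k).Ω → Matrix (Mon (m + 1) D) (Mon (m + 1) D) ℝ) (k : ℕ) (ω : (S.F k).Ω) : ℝ :=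
  Real.logb 2 (GG (S.dl 1 k) (A k ω) (pl (a.v k ω) (x.v k ω) (t.v k ω 0))) / (2 * (S.F k).n)

theorem dl_sq_inv (S : Sp) (k : ℕ) : (S.dl 1 k ^ 2)⁻¹ = 2 ^ (2 * (S.F k).n) := by
  rw [← inv_pow, inv_dl_one, ← Real.rpow_natCast, ← Real.rpow_mul (by norm_num)]
  congr 1
  push_cast
  ring

/-- END IN REGULAR VOLUME, forms below a cap -/
theorem END_cap {S : Sp} {m D : ℕ} (hD : 1 ≤ D) (a x : S.VV m) (t : S.VV 1)
    (A : ∀ k, (S.F k).Ω → Matrix (Mon (m + 1) D) (Mon (m + 1) D) ℝ) (C : ℝ) (hC : 0 ≤ C)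
    (hA : ∀ᶠ k in UF, ∀ ω, (S.F k).μ ω ≠ 0 → Cpd (2 ^ (C * (S.F k).n)) (A k ω))
    (hZ : ∀ᶠ k in UF, ∀ ω ω', (S.F k).μ ω ≠ 0 → (S.F k).μ ω' ≠ 0 → (S.F k).Z ω ω' → A k ω = A k ω')
    (E : ∀ k, (S.F k).Ω → Prop) (hE : Typ E) (K0 : ℕ → ℝ) (hK0 : S.Sub K0)
    (hφE : ∀ᶠ k in UF, ∀ ω, (S.F k).μ ω ≠ 0 → E k ω →
      phi (S.dl 1 k) (A k ω) (pl (a.v k ω) (x.v k ω) (t.v k ω 0)) ≤ K0 k)
    (ht : h (t.dg 1) (a.dg 1 ⊔ x.dg 1) = 1) :
    H (x.dg 1) ≤ m - ul (fun k => ∑ ω, (S.F k).μ ω * gex a x t A k ω) := by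
  have hcU := cU_one m D
  obtain ⟨K1, hK1, hb⟩ := pl_bd a x t
  -- the cap
  set M : ℝ := (C + 3) * m with hM
  have hM0 : 0 ≤ M := by positivity
  have hnn := nn_one (m + 1) D
  have hsub : S.Sub (fun k => cU m D * (nn (m + 1) D * Fintype.card (Mon (m + 1) D) * (K1 k + 1) ^ (2 * D))) := by
    have h0 : (0 : ℝ) ≤ nn (m + 1) D * Fintype.card (Mon (m + 1) D) := by positivity
    exact (S.Sub_const (by linarith)).mul ((S.Sub_const h0).mul (Sub_pow' (hK1.add (S.Sub_const zero_le_one)) _))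
  have hg0 : ∀ᶠ k in UF, ∀ ω, (S.F k).μ ω ≠ 0 → 0 ≤ gex a x t A k ω := by
    filter_upwards [hA] with k hk ω hω
    have h1 := one_le_GG (S.dl 1 k) (hk ω hω).1 (hk ω hω).psd.2 (pl (a.v k ω) (x.v k ω) (t.v k ω 0))
    exact div_nonneg (Real.logb_nonneg (by norm_num) h1) (mul_nonneg (by norm_num) (S.F k).pos.le)
  have hup : ∀ᶠ k in UF, ∀ ω, (S.F k).μ ω ≠ 0 → ∀ B : ℝ, 0 < B →
      cU m D * phi (S.dl 1 k) (A k ω) (pl (a.v k ω) (x.v k ω) (t.v k ω 0)) ≤ B →
      gex a x t A k ω ≤ m + m * (Real.logb 2 B / (S.F k).n) := by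
    filter_upwards [hA] with k hk ω hω B hB hB'
    have hn := (S.F k).pos
    have h1 := one_le_GG (S.dl 1 k) (hk ω hω).1 (hk ω hω).psd.2 (pl (a.v k ω) (x.v k ω) (t.v k ω 0))
    have h2 := one_le_phi (A k ω) (hk ω hω).2.1 (S.dl 1 k) (pl (a.v k ω) (x.v k ω) (t.v k ω 0))
    have h3 := GG_le_phi (S.dl 1 k) (S.dl_pos 1 k) (dl_one_le S k) (A k ω) (hk ω hω).pdM _ h2
    rw [dl_sq_inv] at h3
    have h4 : cU m D * (2 ^ (2 * (S.F k).n) * phi (S.dl 1 k) (A k ω) (pl (a.v k ω) (x.v k ω) (t.v k ω 0))) ≤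
        2 ^ (2 * (S.F k).n) * B := by
      have := mul_le_mul_of_nonneg_left hB' (show (0 : ℝ) ≤ 2 ^ (2 * (S.F k).n) by positivity)
      linarith
    have h5 : GG (S.dl 1 k) (A k ω) (pl (a.v k ω) (x.v k ω) (t.v k ω 0)) ≤ (2 ^ (2 * (S.F k).n) * B) ^ m := by
      refine h3.trans (pow_le_pow_left₀ ?_ h4 m)
      have : (0 : ℝ) < 2 ^ (2 * (S.F k).n) := by positivity
      have h6 : 0 ≤ 2 ^ (2 * (S.F k).n) * phi (S.dl 1 k) (A k ω) (pl (a.v k ω) (x.v k ω) (t.v k ω 0)) :=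
        mul_nonneg this.le (by linarith)
      exact mul_nonneg (by linarith) h6
    have h6 := Real.logb_le_logb_of_le (b := 2) (by norm_num) (by linarith) h5
    rw [Real.logb_pow, Real.logb_mul (by positivity) hB.ne', Real.logb_rpow (by norm_num) (by norm_num)] at h6
    unfold gex
    rw [div_le_iff₀ (by positivity)]
    have e1 : (m + m * (Real.logb 2 B / (S.F k).n)) * (2 * (S.F k).n) = 2 * m * (S.F k).n + 2 * (m * Real.logb 2 B) := by
      field_simp
    rw [e1]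
    have hBl : 0 ≤ m * Real.logb 2 B := by
      apply mul_nonneg (Nat.cast_nonneg m)
      apply Real.logb_nonneg (by norm_num)
      have : 1 * 1 ≤ cU m D * phi (S.dl 1 k) (A k ω) (pl (a.v k ω) (x.v k ω) (t.v k ω 0)) :=
        mul_le_mul hcU h2 zero_le_one (by linarith)
      linarith
    linarith
  have hgM : ∀ᶠ k in UF, ∀ ω, (S.F k).μ ω ≠ 0 → gex a x t A k ω ≤ M := by
    filter_upwards [hup, hA, hb, hsub.eventually_le one_pos, hK1.1] with k h1 h2 h3 h4 h5 ω hω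
    have hn := (S.F k).pos
    have h6 := phi_le (A k ω) (2 ^ (C * (S.F k).n)) (h2 ω hω).2.2 (by positivity) (S.dl 1 k) (K1 k + 1)
      (S.dl_pos 1 k).le (by linarith) (pl (a.v k ω) (x.v k ω) (t.v k ω 0))
      (fun i => add_le_add (h3 ω hω i) (dl_one_le S k))
    have h7 := h1 ω hω (2 ^ (1 * (S.F k).n) * 2 ^ (C * (S.F k).n)) (by positivity) (by
      have h8 := mul_le_mul_of_nonneg_left h6 (show 0 ≤ cU m D by linarith)
      refine h8.trans ?_
      have h9 : cU m D * (nn (m + 1) D * Fintype.card (Mon (m + 1) D) * (K1 k + 1) ^ (2 * D)) ≤ 2 ^ (1 * (S.F k).n) := by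
        linarith
      calc cU m D * (nn (m + 1) D * Fintype.card (Mon (m + 1) D) * (K1 k + 1) ^ (2 * D) * 2 ^ (C * (S.F k).n)) =
          (cU m D * (nn (m + 1) D * Fintype.card (Mon (m + 1) D) * (K1 k + 1) ^ (2 * D))) * 2 ^ (C * (S.F k).n) := by ring
        _ ≤ _ := mul_le_mul_of_nonneg_right h9 (by positivity))
    rw [← Real.rpow_add (by norm_num), Real.logb_rpow (by norm_num) (by norm_num)] at h7
    have e2 : (1 * (S.F k).n + C * (S.F k).n) / (S.F k).n = 1 + C := by field_simp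
    rw [e2] at h7
    refine h7.trans ?_
    rw [hM]
    have : (0 : ℝ) ≤ m := Nat.cast_nonneg m
    nlinarith
  set σ : ∀ k, (S.F k).Ω → ℝ := fun k ω => min (m : ℝ) (max 0 (gex a x t A k ω)) with hσd
  have hK0' : S.Sub (fun k => K0 k + 1) := hK0.add (S.Sub_const zero_le_one)
  -- END
  have hend := END_reg hD a x t 1 one_pos A ?_ hZ E hE (fun k => K0 k + 1) hK0' σ ?_ ?_ ?_ ht.ge
  rotate_left
  · filter_upwards [hA] with k hk ω hω using ⟨(hk ω hω).1, (hk ω hω).2.1⟩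
  · refine Eventually.of_forall fun k ω _ => ⟨le_min (Nat.cast_nonneg m) (le_max_left _ _), ?_⟩
    rw [mul_one]
    exact min_le_left _ _
  · filter_upwards [hφE] with k hk ω hω hEω
    have := hk ω hω hEω
    linarith
  · filter_upwards [hA, hK0.1, hg0] with k hk h0 hg ω hω _
    have hn := (S.F k).pos
    have h1 := one_le_GG (S.dl 1 k) (hk ω hω).1 (hk ω hω).psd.2 (pl (a.v k ω) (x.v k ω) (t.v k ω 0))
    have h2 : σ k ω ≤ gex a x t A k ω := by
      rw [hσd]
      beta_reduce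
      rw [max_eq_right (hg ω hω)]
      exact min_le_right _ _
    have h3 : (2 : ℝ) ^ (2 * σ k ω * (S.F k).n) ≤ GG (S.dl 1 k) (A k ω) (pl (a.v k ω) (x.v k ω) (t.v k ω 0)) := by
      rw [← Real.le_logb_iff_rpow_le (by norm_num) (by linarith)]
      unfold gex at h2
      rw [le_div_iff₀ (by positivity)] at h2
      linarith
    refine h3.trans ?_
    have h4 : 0 < GG (S.dl 1 k) (A k ω) (pl (a.v k ω) (x.v k ω) (t.v k ω 0)) := by linarith
    nlinarith
  -- comparison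
  rw [mul_one] at hend
  refine hend.trans ?_
  have hσU : UB (fun k => ∑ ω, (S.F k).μ ω * σ k ω) := by
    apply UB_of_nonneg_le (C := m)
    · exact Eventually.of_forall fun k => Finset.sum_nonneg fun ω _ =>
        mul_nonneg ((S.F k).nn ω) (le_min (Nat.cast_nonneg m) (le_max_left _ _))
    · exact Eventually.of_forall fun k => sum_mul_le _ _ fun ω _ => min_le_left _ _
  have hgU : UB (fun k => ∑ ω, (S.F k).μ ω * gex a x t A k ω) := by
    apply UB_of_nonneg_le (C := M)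
    · filter_upwards [hg0] with k hk
      apply Finset.sum_nonneg
      intro ω _
      by_cases h0 : (S.F k).μ ω = 0
      · rw [h0, zero_mul]
      · exact mul_nonneg ((S.F k).nn ω) (hk ω h0)
    · filter_upwards [hgM] with k hk
      exact sum_mul_le _ _ hk
  set ee : ℕ → ℝ := fun k => m * (Real.logb 2 (cU m D * (K0 k + 1) + 2) / (S.F k).n) +
    M * mass (res (S.F k).μ (fun ω => ¬ E k ω)) with hee
  have hee0 : Tendsto ee UF (𝓝 0) := by
    have h1 : S.Sub (fun k => cU m D * (K0 k + 1)) := (S.Sub_const (by linarith)).mul hK0'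
    have h2 := (h1.2.const_mul (m : ℝ)).add (hE.const_mul M)
    simpa using h2
  have hle : ∀ᶠ k in UF, ∑ ω, (S.F k).μ ω * gex a x t A k ω ≤ ∑ ω, (S.F k).μ ω * σ k ω + ee k := by
    filter_upwards [hup, hgM, hg0, hφE, hK0.1] with k h1 h2 h3 h4 h5
    have hn := (S.F k).pos
    have hlog : 0 ≤ Real.logb 2 (cU m D * (K0 k + 1) + 2) / (S.F k).n := by
      apply div_nonneg _ hn.le
      apply Real.logb_nonneg (by norm_num)
      have : 0 ≤ cU m D * (K0 k + 1) := mul_nonneg (by linarith) (by linarith)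
      linarith
    have h6 := sum_split_le (F := S.F k) (fun ω => gex a x t A k ω - σ k ω) (E k)
      (m * (Real.logb 2 (cU m D * (K0 k + 1) + 2) / (S.F k).n)) M (mul_nonneg (Nat.cast_nonneg m) hlog) hM0 (by
        intro ω hω hEω
        have h7 := h1 ω hω (cU m D * (K0 k + 1) + 2) (by
          have : 0 ≤ cU m D * (K0 k + 1) := mul_nonneg (by linarith) (by linarith)
          linarith) (by
          have h8 := mul_le_mul_of_nonneg_left (h4 ω hω hEω) (show 0 ≤ cU m D by linarith)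
          nlinarith)
        have h9 : σ k ω = min (m : ℝ) (gex a x t A k ω) := by
          rw [hσd]
          beta_reduce
          rw [max_eq_right (h3 ω hω)]
        rw [h9]
        rcases le_total (m : ℝ) (gex a x t A k ω) with h | h
        · rw [min_eq_left h]
          linarith
        · rw [min_eq_right h, sub_self]
          exact mul_nonneg (Nat.cast_nonneg m) hlog) (by
        intro ω hω
        have h7 := h2 ω hω
        have h8 : 0 ≤ σ k ω := le_min (Nat.cast_nonneg m) (le_max_left _ _)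
        linarith)
    have e3 : ∑ ω, (S.F k).μ ω * (gex a x t A k ω - σ k ω) =
        ∑ ω, (S.F k).μ ω * gex a x t A k ω - ∑ ω, (S.F k).μ ω * σ k ω := by
      rw [← Finset.sum_sub_distrib]
      exact Finset.sum_congr rfl fun ω _ => by ring
    rw [e3] at h6
    rw [hee]
    beta_reduce
    linarith
  have h1 := ul_tendsto hσU
  have h2 := ul_tendsto hgU
  have h3 := h1.add hee0
  rw [add_zero] at h3
  have h4 := le_of_tendsto_of_tendsto h2 h3 hle
  linarith

end

end Pool.Agent.Helper59.EV
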