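import Pool.Agent.Helper59.EV.Fin
import Pool.Agent.Helper31.EC.Dig
import Pool.Agent.Helper31.EC.Vec

/-! END, volume form, in the exact calculus. -/

set_option autoImplicit false

namespace Pool.Agent.Helper59.EV

open Finset Filter Topology MvPolynomial MeasureTheory Pool.Agent.Helper69.RK Pool.Agent.Helper59.EN
open Pool.Agent.Helper31.EC Pool.Agent.Helper31.EC.Sp

noncomputable section

theorem CH_lab {Ω α γ : Type} [Fintype Ω] (μ : Ω → ℝ) (f : Ω → α) (g : Ω → γ) (j : Ω → ℕ) (J : ℕ)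
    (hμ : ∀ ω, 0 ≤ μ ω) (hm : mass μ = 1) (hj : ∀ ω, μ ω ≠ 0 → j ω ≤ J) :
    CH μ f g ≤ Real.logb 2 (J + 1) + CH μ f (fun ω => (g ω, j ω)) := by
  have h1 := e1_chain μ j f g
  have h2 : CH μ f g ≤ CH μ (fun ω => (j ω, f ω)) g := by
    apply (st_E2 st_E1).1 Ω _ _ _ μ _ _ _ hμ
    intro ω ω' _ _ h3
    rw [Prod.mk.injEq, Prod.mk.injEq] at h3
    exact h3.1.2
  have h3 : CH μ j g ≤ mass μ * Real.logb 2 (J + 1) := by
    apply CH_card μ j g _ hμ
    intro ω _ T hT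
    have h4 : T ⊆ Finset.range (J + 1) := by
      intro i hi
      obtain ⟨ω', h5, _, rfl⟩ := hT i hi
      rw [Finset.mem_range]
      exact Nat.lt_succ_of_le (hj ω' h5)
    have h5 := Finset.card_le_card h4
    rw [Finset.card_range] at h5
    exact_mod_cast h5
  have h4 : CH μ f (fun ω => (j ω, g ω)) = CH μ f (fun ω => (g ω, j ω)) := by
    apply e2_CH_congr
    · intro ω ω' _ _
      rw [Prod.mk.injEq, Prod.mk.injEq]
      exact and_comm
    · intro ω ω' _ _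
      rw [Prod.mk.injEq, Prod.mk.injEq, Prod.mk.injEq, Prod.mk.injEq]
      exact and_congr Iff.rfl and_comm
  rw [h4] at h1
  rw [hm, one_mul] at h3
  linarith

/-- THE FINITE THEOREM with a label of few values -/
theorem fin_endJ (m r d : ℕ) (hd : 1 ≤ d) : ∃ C : ℝ, 1 ≤ C ∧ ∀ R : ℝ, 1 ≤ R →
    ∀ {Ω ζ : Type} [Fintype Ω] (μ : Ω → ℝ) (Z : Ω → ζ) (a x : Ω → Fin m → ℝ) (t : Ω → ℝ)
      (Φ : Ω → ℤ → MvPolynomial (Fin m ⊕ Fin r) ℝ) (E : Ω → Prop) (δ K q : ℝ) (θ : Ω → ℝ) (j : Ω → ℕ) (J : ℕ),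
    (∀ ω, 0 ≤ μ ω) → mass μ = 1 →
    0 < δ → δ ≤ 1 → 0 < K → 0 < q → q ≤ 1 →
    (∀ ω, μ ω ≠ 0 → (∀ i, |x ω i| ≤ R) ∧ |t ω| ≤ R - 1) →
    (∀ ω, μ ω ≠ 0 → j ω ≤ J) →
    (∀ ω, μ ω ≠ 0 → E ω → ∀ k, (Φ ω k).totalDegree ≤ d + 1 ∧ ∀ z, 0 ≤ eval z (Φ ω k)) →
    (∀ ω ω', μ ω ≠ 0 → μ ω' ≠ 0 → E ω → E ω' → Z ω = Z ω' → j ω = j ω' → Φ ω = Φ ω' ∧ θ ω = θ ω') →
    (∀ ω, μ ω ≠ 0 → δ ^ m ≤ θ ω) →
    (∀ ω, μ ω ≠ 0 → E ω → volume (SL (Φ ω ⌊t ω / δ⌋) ((m + 2) * K)) ≤ ENNReal.ofReal (θ ω)) →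
    (∀ ω, μ ω ≠ 0 → E ω → ∀ y : Fin m → ℝ, (∀ i, |y i - (a ω i + t ω * x ω i)| ≤ (2 * R + 1) * δ) →
      y ∈ SL (Φ ω ⌊t ω / δ⌋) K) →
    ∃ p : ℝ, 0 ≤ p ∧
      CH μ (fun ω => ⌊t ω / δ⌋) (fun ω => ((fun i => ⌊a ω i / δ⌋, fun i => ⌊x ω i / δ⌋), Z ω)) +
        p * Real.logb 2 (1 / q) ≤
        mass (res μ (fun ω => ¬ E ω)) * Real.logb 2 (4 * R / δ) + Real.logb 2 (4 * R / δ) + 2 +
          Real.logb 2 (J + 1) ∧
      CH μ (fun ω i => ⌊x ω i / δ⌋) Z ≤ Real.logb 2 (C * R ^ (m + 1) * (1 / q) ^ (2 * m + 1)) +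
        ∑ ω, μ ω * Real.logb 2 (θ ω / δ ^ m) +
        m * Real.logb 2 (4 * R / δ) * (mass (res μ (fun ω => ¬ E ω)) + p) + 1 + Real.logb 2 (J + 1) := by
  obtain ⟨C, hC, hfin⟩ := fin_endV m r d hd
  refine ⟨C, hC, ?_⟩
  intro R hR Ω ζ _ μ Z a x t Φ E δ K q θ j J hμ hmass hδ hδ1 hK hq hq1 hb hj hΦ hFZ hθ hvol hreg
  obtain ⟨p, hp, h1, h2⟩ := hfin R hR μ (fun ω => (Z ω, j ω)) a x t Φ E δ K q θ hμ hmass hδ hδ1 hK hq hq1 hb hΦ
    (fun ω ω' a b c d e => hFZ ω ω' a b c d (Prod.mk.inj e).1 (Prod.mk.inj e).2) hθ hvol hreg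
  refine ⟨p, hp, ?_, ?_⟩
  · have h3 := CH_lab μ (fun ω => ⌊t ω / δ⌋) (fun ω => ((fun i => ⌊a ω i / δ⌋, fun i => ⌊x ω i / δ⌋), Z ω))
      j J hμ hmass hj
    have h4 : CH μ (fun ω => ⌊t ω / δ⌋)
        (fun ω => (((fun i => ⌊a ω i / δ⌋, fun i => ⌊x ω i / δ⌋), Z ω), j ω)) =
        CH μ (fun ω => ⌊t ω / δ⌋)
        (fun ω => ((fun i => ⌊a ω i / δ⌋, fun i => ⌊x ω i / δ⌋), (Z ω, j ω))) := by
      apply e2_CH_congr
      · intro ω ω' _ _
        simp only [Prod.mk.injEq]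
        exact and_assoc
      · intro ω ω' _ _
        simp only [Prod.mk.injEq]
        exact and_congr Iff.rfl and_assoc
    rw [h4] at h3
    linarith
  · have h3 := CH_lab μ (fun ω i => ⌊x ω i / δ⌋) Z j J hμ hmass hj
    linarith

/-- END, VOLUME FORM. The system is near a family of sets of small volume: if on the typical event the points
`a + t x` lie (with their neighbourhoods) in projections of sublevel sets, known to the base and a label `j` of few
values, whose volume is at most `L 2 ^ (w j n) δ ^ m`, then `h(x) ≤ E w(j)`. -/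
theorem END_vol {S : Sp} {m r d : ℕ} (hd : 1 ≤ d) (a x : S.VV m) (t : S.VV 1) (s : ℝ) (hs : 0 < s)
    (Φ : ∀ k, (S.F k).Ω → ℤ → MvPolynomial (Fin m ⊕ Fin r) ℝ)
    (E : ∀ k, (S.F k).Ω → Prop) (hE : Typ E) (K L R : ℕ → ℝ) (hK : ∀ᶠ k in UF, 0 < K k) (hL : S.Sub L)
    (hL1 : ∀ᶠ k in UF, 1 ≤ L k) (hR : S.Sub R) (hR1 : ∀ᶠ k in UF, 1 ≤ R k)
    (hb : ∀ᶠ k in UF, ∀ ω, (S.F k).μ ω ≠ 0 → (∀ i, |x.v k ω i| ≤ R k) ∧ |t.v k ω 0| ≤ R k - 1)
    (J : ℕ) (w : ℕ → ℝ) (hw : ∀ i, 0 ≤ w i) (j : ∀ k, (S.F k).Ω → ℕ)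
    (hj : ∀ᶠ k in UF, ∀ ω, (S.F k).μ ω ≠ 0 → j k ω ≤ J)
    (hΦ : ∀ᶠ k in UF, ∀ ω, (S.F k).μ ω ≠ 0 → E k ω → ∀ i, (Φ k ω i).totalDegree ≤ d + 1 ∧
      ∀ z, 0 ≤ eval z (Φ k ω i))
    (hZ : ∀ᶠ k in UF, ∀ ω ω', (S.F k).μ ω ≠ 0 → (S.F k).μ ω' ≠ 0 → E k ω → E k ω' →
      (S.F k).Z ω ω' → j k ω = j k ω' → Φ k ω = Φ k ω')
    (hvol : ∀ᶠ k in UF, ∀ ω, (S.F k).μ ω ≠ 0 → E k ω →
      volume (SL (Φ k ω ⌊t.v k ω 0 / S.dl s k⌋) ((m + 2) * K k)) ≤
        ENNReal.ofReal (L k * 2 ^ (w (j k ω) * (S.F k).n) * S.dl s k ^ m))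
    (hreg : ∀ᶠ k in UF, ∀ ω, (S.F k).μ ω ≠ 0 → E k ω → ∀ y : Fin m → ℝ,
      (∀ i, |y i - (a.v k ω i + t.v k ω 0 * x.v k ω i)| ≤ (2 * R k + 1) * S.dl s k) →
      y ∈ SL (Φ k ω ⌊t.v k ω 0 / S.dl s k⌋) (K k))
    (ht : s ≤ h (t.dg s) (a.dg s ⊔ x.dg s)) :
    H (x.dg s) ≤ ul (fun k => ∑ ω, (S.F k).μ ω * w (j k ω)) := by
  classical
  obtain ⟨C, hC, hfin⟩ := fin_endJ m r d hd
  -- subexponential constants
  have hpow : ∀ n : ℕ, S.Sub (fun k => R k ^ n) := by
    intro n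
    induction n with
    | zero =>
      simp only [pow_zero]
      exact S.Sub_const zero_le_one
    | succ n ih =>
      simp only [pow_succ]
      exact ih.mul hR
  set V : ℕ → ℝ := fun k => 4 * R k with hV
  have hVS : S.Sub V := (S.Sub_const (by norm_num : (0 : ℝ) ≤ 4)).mul hR
  set W : ℕ → ℝ := fun k => C * R k ^ (m + 1) with hW
  have hWS : S.Sub W := (S.Sub_const (by linarith)).mul (hpow _)
  set g : ℕ → ℝ := fun k => ∑ ω, (S.F k).μ ω * w (j k ω) with hg
  set w1 : ℝ := ∑ i ∈ Finset.range (J + 1), w i with hw1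
  have hgU : UB g := by
    apply UB_of_nonneg_le (C := w1)
    · exact Eventually.of_forall fun k => Finset.sum_nonneg fun ω _ => mul_nonneg ((S.F k).nn ω) (hw _)
    · filter_upwards [hj] with k hk
      calc g k ≤ ∑ ω, (S.F k).μ ω * w1 := by
            refine Finset.sum_le_sum fun ω _ => ?_
            by_cases hω : (S.F k).μ ω = 0
            · rw [hω, zero_mul, zero_mul]
            · apply mul_le_mul_of_nonneg_left _ ((S.F k).nn ω)
              exact Finset.single_le_sum (f := w) (fun i _ => hw i)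
                (Finset.mem_range.2 (Nat.lt_succ_of_le (hk ω hω)))
        _ = w1 := by
            rw [← Finset.sum_mul]
            have : ∑ ω, (S.F k).μ ω = 1 := (S.F k).ms
            rw [this, one_mul]
  apply le_of_forall_pos_le_add
  intro ε hε
  -- the parameter
  have hm2 : (0 : ℝ) < 2 * m + 1 := by positivity
  set η : ℝ := ε / (2 * m + 1) with hη
  have hη0 : 0 < η := div_pos hε hm2
  have hηε : (2 * (m : ℝ) + 1) * η = ε := by
    rw [hη]
    field_simp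
  -- entropies as ultralimits
  set ft : ℕ → ℝ := S.rt (fun k => Setoid.ker (t.cellv s k))
    (fun k => Setoid.ker (fun ω => (a.cellv s k ω, x.cellv s k ω))) with hft
  set fx : ℕ → ℝ := S.rt (fun k => Setoid.ker (x.cellv s k)) S.tr with hfx
  have hHx : H (x.dg s) = ul fx := Sp.H_io (x.bdd s)
  have hht : h (t.dg s) (a.dg s ⊔ x.dg s) = ul ft := by
    have h1 : a.dg s ⊔ x.dg s = io (fun k ω => (a.cellv s k ω, x.cellv s k ω)) :=
      (Sp.io_pair (a.bdd s) (x.bdd s)).symm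
    rw [h1]
    exact Sp.h_io (t.bdd s) ((a.bdd s).pair (x.bdd s))
  have hUBt : UB ft := Sp.UB_rt (t.bdd s).toInf _
  have hUBx : UB fx := Sp.UB_rt (x.bdd s).toInf _
  have hlt := ul_tendsto hUBt
  rw [hht] at ht
  -- the error of the exceptional event
  set p0 : ℕ → ℝ := fun k => mass (res (S.F k).μ (fun ω => ¬ E k ω)) with hp0
  have hp0t : Tendsto p0 UF (𝓝 0) := hE
  set lJ : ℝ := Real.logb 2 (J + 1) with hlJ
  set u : ℕ → ℝ := fun k => p0 k * (Real.logb 2 (V k + 2) / (S.F k).n + s) +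
    (Real.logb 2 (V k + 2) / (S.F k).n + s) + (2 + lJ) / (S.F k).n - ft k with hu
  have hut : Tendsto u UF (𝓝 (s - ul ft)) := by
    have t1 := hp0t.mul (hVS.2.add_const s)
    have t2 := hVS.2.add_const s
    have t3 := S.div_n_tendsto (2 + lJ)
    have t4 := ((t1.add t2).add t3).sub hlt
    simpa using t4
  set f : ℕ → ℝ := fun k => (Real.logb 2 (W k + 2) / (S.F k).n + (2 * m + 1) * η) +
    Real.logb 2 (L k + 2) / (S.F k).n +
    m * (Real.logb 2 (V k + 2) / (S.F k).n + s) * (p0 k + u k / η) + (1 + lJ) / (S.F k).n with hf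
  have hft' : Tendsto f UF (𝓝 ((2 * m + 1) * η + m * s * ((s - ul ft) / η))) := by
    have t1 := hWS.2.add_const ((2 * (m : ℝ) + 1) * η)
    have t2 := ((hVS.2.add_const s).const_mul (m : ℝ)).mul (hp0t.add (hut.div_const η))
    have t3 := ((t1.add hL.2).add t2).add (S.div_n_tendsto (1 + lJ))
    rw [zero_add, zero_add, zero_add, add_zero, add_zero] at t3
    exact t3
  have hfx : ∀ᶠ k in UF, fx k ≤ f k + g k := by
    filter_upwards [hK, hL1, hR1, hb, hj, hΦ, hZ, hvol, hreg] with k hKk hLk hRk hbk hjk hΦk hZk hvolk hregk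
    have hVk : V k = 4 * R k := rfl
    have hWk : W k = C * R k ^ (m + 1) := rfl
    have hn := (S.F k).pos
    have hδ := S.dl_pos s k
    have hδ1 : S.dl s k ≤ 1 := by
      have := S.dl_anti hs.le k
      rwa [S.dl_zero] at this
    set qq : ℝ := 2 ^ (-(η * (S.F k).n)) with hqq
    have hqq0 : 0 < qq := by positivity
    have hqq1 : qq ≤ 1 := by
      rw [hqq]
      apply Real.rpow_le_one_of_one_le_of_nonpos (by norm_num)
      have : 0 ≤ η * (S.F k).n := by positivity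
      linarith
    have hpw : ∀ ω, (1 : ℝ) ≤ 2 ^ (w (j k ω) * (S.F k).n) := fun ω =>
      Real.one_le_rpow (by norm_num) (mul_nonneg (hw _) hn.le)
    obtain ⟨p, hp, hp1, hp2⟩ := hfin (R k) hRk (S.F k).μ (Quotient.mk (S.F k).Z) (a.v k) (x.v k)
      (fun ω => t.v k ω 0) (Φ k) (E k) (S.dl s k) (K k) qq
      (fun ω => L k * 2 ^ (w (j k ω) * (S.F k).n) * S.dl s k ^ m) (j k) J (S.F k).nn (S.F k).ms hδ hδ1
      hKk hqq0 hqq1 hbk hjk hΦk (by
        intro ω ω' h1 h2 h3 h4 h5 h6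
        refine ⟨hZk ω ω' h1 h2 h3 h4 (Quotient.exact h5) h6, ?_⟩
        rw [h6]) (by
        intro ω _
        have h1 : 1 ≤ L k * 2 ^ (w (j k ω) * (S.F k).n) := by
          have := hpw ω
          nlinarith
        calc S.dl s k ^ m = 1 * S.dl s k ^ m := (one_mul _).symm
          _ ≤ _ := mul_le_mul_of_nonneg_right h1 (by positivity)) hvolk hregk
    -- translate
    have hct : CH (S.F k).μ (fun ω => ⌊t.v k ω 0 / S.dl s k⌋) (fun ω => ((fun i => ⌊a.v k ω i / S.dl s k⌋,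
        fun i => ⌊x.v k ω i / S.dl s k⌋), Quotient.mk (S.F k).Z ω)) = ft k * (S.F k).n := by
      rw [hft]
      unfold rt
      rw [div_mul_cancel₀ _ hn.ne']
      symm
      apply FSp.e_congr
      · intro ω ω' _ _
        show t.cellv s k ω' = t.cellv s k ω ↔ _
        constructor
        · intro h'
          exact congrFun h' 0
        · intro h'
          funext i
          have hi : i = 0 := Subsingleton.elim _ _
          rw [hi]
          exact h'
      · intro ω ω' _ _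
        constructor
        · rintro ⟨h1, h2⟩
          exact Prod.ext h1 (Quotient.sound h2)
        · intro h1
          have h2 := Prod.mk.inj h1
          exact ⟨h2.1, Quotient.exact h2.2⟩
    have hcx : CH (S.F k).μ (fun ω i => ⌊x.v k ω i / S.dl s k⌋) (Quotient.mk (S.F k).Z) = fx k * (S.F k).n := by
      show _ = S.rt (fun k => Setoid.ker (x.cellv s k)) S.tr k * (S.F k).n
      unfold rt
      rw [div_mul_cancel₀ _ hn.ne']
      symm
      apply FSp.e_congr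
      · intro ω ω' _ _
        exact Iff.rfl
      · intro ω ω' _ _
        constructor
        · rintro ⟨_, h2⟩
          exact Quotient.sound h2
        · intro h1
          exact ⟨trivial, Quotient.exact h1⟩
    rw [hct] at hp1
    rw [hcx] at hp2
    -- logarithms
    have l1 : Real.logb 2 (4 * R k / S.dl s k) ≤ Real.logb 2 (V k + 2) + s * (S.F k).n := by
      rw [Real.logb_div (by positivity) hδ.ne']
      unfold dl
      rw [Real.logb_rpow (by norm_num) (by norm_num)]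
      have e1 : Real.logb 2 (4 * R k) ≤ Real.logb 2 (V k + 2) :=
        Real.logb_le_logb_of_le (by norm_num) (by linarith) (by rw [hVk]; linarith)
      linarith
    have l3 : Real.logb 2 (1 / qq) = η * (S.F k).n := by
      rw [one_div, Real.logb_inv, hqq, Real.logb_rpow (by norm_num) (by norm_num)]
      ring
    rw [l3] at hp1
    have hp0k : 0 ≤ p0 k := mass_nn _ (res_nn _ _ (S.F k).nn)
    have hp1' : p0 k * Real.logb 2 (4 * R k / S.dl s k) ≤
        p0 k * (Real.logb 2 (V k + 2) + s * (S.F k).n) := mul_le_mul_of_nonneg_left l1 hp0k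
    have hp1'' : ft k * (S.F k).n + p * (η * (S.F k).n) ≤
        p0 k * (Real.logb 2 (V k + 2) + s * (S.F k).n) +
        (Real.logb 2 (V k + 2) + s * (S.F k).n) + (2 + lJ) := by
      have e0 : ft k * (S.F k).n + p * (η * (S.F k).n) ≤
        p0 k * Real.logb 2 (4 * R k / S.dl s k) + Real.logb 2 (4 * R k / S.dl s k) + 2 + lJ := hp1
      linarith
    have hpu : p ≤ u k / η := by
      rw [le_div_iff₀ hη0]
      have e1 : p * η * (S.F k).n ≤ u k * (S.F k).n := by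
        rw [hu]
        have e2 : (p0 k * (Real.logb 2 (V k + 2) / (S.F k).n + s) +
          (Real.logb 2 (V k + 2) / (S.F k).n + s) + (2 + lJ) / (S.F k).n - ft k) * (S.F k).n =
          p0 k * (Real.logb 2 (V k + 2) + s * (S.F k).n) +
          (Real.logb 2 (V k + 2) + s * (S.F k).n) + (2 + lJ) - ft k * (S.F k).n := by
          field_simp
        show p * η * (S.F k).n ≤ (p0 k * (Real.logb 2 (V k + 2) / (S.F k).n + s) +
          (Real.logb 2 (V k + 2) / (S.F k).n + s) + (2 + lJ) / (S.F k).n - ft k) * (S.F k).n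
        rw [e2]
        have e3 : p * (η * (S.F k).n) = p * η * (S.F k).n := by ring
        rw [e3] at hp1''
        linarith
      exact le_of_mul_le_mul_right e1 hn
    -- the number of cells
    have hWk1 : 1 ≤ W k := by
      rw [hWk]
      have : 1 ≤ R k ^ (m + 1) := one_le_pow₀ hRk
      nlinarith
    have l4 : Real.logb 2 (C * R k ^ (m + 1) * (1 / qq) ^ (2 * m + 1)) ≤
        Real.logb 2 (W k + 2) + (2 * m + 1) * η * (S.F k).n := by
      rw [← hWk, Real.logb_mul (by linarith) (by positivity), Real.logb_pow, l3]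
      have e1 : Real.logb 2 (W k) ≤ Real.logb 2 (W k + 2) :=
        Real.logb_le_logb_of_le (by norm_num) (by linarith) (by linarith)
      push_cast
      have e2 : (2 * (m : ℝ) + 1) * (η * (S.F k).n) = (2 * m + 1) * η * (S.F k).n := by ring
      linarith
    have l5 : ∑ ω, (S.F k).μ ω * Real.logb 2 (L k * 2 ^ (w (j k ω) * (S.F k).n) * S.dl s k ^ m / S.dl s k ^ m) ≤
        Real.logb 2 (L k + 2) + g k * (S.F k).n := by
      have e1 : ∀ ω, Real.logb 2 (L k * 2 ^ (w (j k ω) * (S.F k).n) * S.dl s k ^ m / S.dl s k ^ m) =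
          Real.logb 2 (L k) + w (j k ω) * (S.F k).n := by
        intro ω
        rw [mul_div_cancel_right₀ _ (by positivity), Real.logb_mul (by linarith) (by positivity),
          Real.logb_rpow (by norm_num) (by norm_num)]
      rw [Finset.sum_congr rfl (fun ω _ => by rw [e1 ω])]
      simp_rw [mul_add]
      rw [Finset.sum_add_distrib, ← Finset.sum_mul]
      have e2 : ∑ ω, (S.F k).μ ω = 1 := (S.F k).ms
      have e3 : ∑ ω, (S.F k).μ ω * (w (j k ω) * (S.F k).n) = g k * (S.F k).n := by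
        rw [hg, Finset.sum_mul]
        refine Finset.sum_congr rfl fun ω _ => ?_
        ring
      rw [e2, one_mul, e3]
      have e4 : Real.logb 2 (L k) ≤ Real.logb 2 (L k + 2) :=
        Real.logb_le_logb_of_le (by norm_num) (by linarith) (by linarith)
      linarith
    have hl4R : 0 ≤ Real.logb 2 (V k + 2) := Real.logb_nonneg (by norm_num) (by rw [hVk]; linarith)
    have hfin2 : fx k * (S.F k).n ≤ (f k + g k) * (S.F k).n := by
      have e1 : (f k + g k) * (S.F k).n = (Real.logb 2 (W k + 2) + (2 * m + 1) * η * (S.F k).n) +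
          Real.logb 2 (L k + 2) +
          m * (Real.logb 2 (V k + 2) + s * (S.F k).n) * (p0 k + u k / η) + (1 + lJ) + g k * (S.F k).n := by
        show (((Real.logb 2 (W k + 2) / (S.F k).n + (2 * m + 1) * η) + Real.logb 2 (L k + 2) / (S.F k).n +
          m * (Real.logb 2 (V k + 2) / (S.F k).n + s) * (p0 k + u k / η) + (1 + lJ) / (S.F k).n) + g k) *
          (S.F k).n = _
        generalize u k / η = U'
        field_simp
      rw [e1]
      have e2 : m * (Real.logb 2 (V k + 2) + s * (S.F k).n) * (p0 k + p) ≤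
          m * (Real.logb 2 (V k + 2) + s * (S.F k).n) * (p0 k + u k / η) := by
        apply mul_le_mul_of_nonneg_left (by linarith)
        have : 0 ≤ s * (S.F k).n := by positivity
        exact mul_nonneg (Nat.cast_nonneg m) (by linarith)
      have e4 : m * Real.logb 2 (4 * R k / S.dl s k) * (p0 k + p) ≤
          m * (Real.logb 2 (V k + 2) + s * (S.F k).n) * (p0 k + p) := by
        apply mul_le_mul_of_nonneg_right _ (by linarith)
        exact mul_le_mul_of_nonneg_left l1 (Nat.cast_nonneg m)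
      have e3 : fx k * (S.F k).n ≤ Real.logb 2 (C * R k ^ (m + 1) * (1 / qq) ^ (2 * m + 1)) +
        ∑ ω, (S.F k).μ ω * Real.logb 2 (L k * 2 ^ (w (j k ω) * (S.F k).n) * S.dl s k ^ m / S.dl s k ^ m) +
        m * Real.logb 2 (4 * R k / S.dl s k) * (p0 k + p) + 1 + lJ := hp2
      linarith
    exact le_of_mul_le_mul_right hfin2 hn
  rw [hHx]
  have h1 : ul fx ≤ ul (fun k => f k + g k) := ul_mono hUBx ((UB_of_tendsto hft').add hgU) hfx
  rw [ul_add (UB_of_tendsto hft') hgU, ul_eq hft'] at h1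
  have h2 : (m : ℝ) * s * ((s - ul ft) / η) ≤ 0 := by
    apply mul_nonpos_of_nonneg_of_nonpos (by positivity)
    exact div_nonpos_of_nonpos_of_nonneg (by linarith) hη0.le
  rw [hηε] at h1
  linarith

end

end Pool.Agent.Helper59.EV
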