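import Pool.Agent.Helper52.KP.Add
import Pool.Agent.Helper3.PR.Vol

/-! Glueing and restriction of labels with forms, finite level. -/

set_option autoImplicit false

namespace Pool.Agent.Helper59.EV

open Finset Filter Topology Matrix Pool.Agent.Helper69.RK
open Pool.Agent.Helper31.EC Pool.Agent.Helper31.EC.Sp Pool.Agent.Helper40.EL
open Pool.Agent.Helper89.LX
open Pool.Agent.Helper52.KP (glue gπ gμ gT gT_law glue_leak pb_restμ pb_not)

noncomputable section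

variable {ι : Type} [Fintype ι] [DecidableEq ι]

/-- the expectation of a function of the point and of the first form -/
def fval {F : FSp} (f : F.Ω → Matrix ι ι ℝ → ℝ) (y : FD F ι) : ℝ :=
  ∑ ω, y.l.T.μ ω * f (y.l.p.π ω) (y.g ω)

/-- the same for both forms -/
def fval2 {F : FSp} (f : F.Ω → Matrix ι ι ℝ → Matrix ι ι ℝ → ℝ) (y : FD F ι) : ℝ :=
  ∑ ω, y.l.T.μ ω * f (y.l.p.π ω) (y.g ω) (y.g' ω)

/-- expectation of a pull-back -/
theorem sum_pull {T F : FSp} (p : FPj T F) (f : F.Ω → ℝ) : ∑ ω, T.μ ω * f (p.π ω) = ∑ ω, F.μ ω * f ω := by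
  have h1 : ∀ ω, F.μ ω = ∑ w, e1_ind (p.π w = ω) * T.μ w := fun ω => by
    rw [← congrFun p.law ω, push_ind]
  have h2 : ∑ ω, F.μ ω * f ω = ∑ ω, ∑ w, e1_ind (p.π w = ω) * T.μ w * f ω :=
    Finset.sum_congr rfl fun ω _ => by rw [h1 ω, Finset.sum_mul]
  rw [h2, Finset.sum_comm]
  apply Finset.sum_congr rfl
  intro w _
  rw [Finset.sum_eq_single (p.π w)]
  · rw [e1_ind_pos rfl, one_mul]
  · intro b _ hb
    rw [e1_ind_neg (fun h => hb h.symm), zero_mul, zero_mul]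
  · intro h
    exact absurd (Finset.mem_univ _) h

/-- expectations split over an event -/
theorem sum_rest (F : FSp) (E : F.Ω → Prop) (f : F.Ω → ℝ) : ∑ ω, F.μ ω * f ω =
    F.pb E * (∑ ω, (F.rest E).μ ω * f ω) + (1 - F.pb E) * ∑ ω, (F.rest fun ω => ¬ E ω).μ ω * f ω := by
  rw [← pb_not, Finset.mul_sum, Finset.mul_sum]
  have e1 : ∀ ω, F.pb E * ((F.rest E).μ ω * f ω) = res F.μ E ω * f ω := fun ω => by
    rw [← pb_restμ F E ω, mul_assoc]
    rfl
  have e2 : ∀ ω, F.pb (fun ω => ¬ E ω) * ((F.rest fun ω => ¬ E ω).μ ω * f ω) =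
      res F.μ (fun ω => ¬ E ω) ω * f ω := fun ω => by
    rw [← pb_restμ F (fun ω => ¬ E ω) ω, mul_assoc]
    rfl
  have h1 : ∑ ω, F.pb E * ((F.rest E).μ ω * f ω) = ∑ ω, res F.μ E ω * f ω := Finset.sum_congr rfl fun ω _ => e1 ω
  have h2 : ∑ ω, F.pb (fun ω => ¬ E ω) * ((F.rest fun ω => ¬ E ω).μ ω * f ω) =
      ∑ ω, res F.μ (fun ω => ¬ E ω) ω * f ω := Finset.sum_congr rfl fun ω _ => e2 ω
  have h3 : ∑ ω, F.pb E * ((F.rest E).μ ω * f ω) + ∑ ω, F.pb (fun ω => ¬ E ω) *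
      ((F.rest fun ω => ¬ E ω).μ ω * f ω) = ∑ ω, F.μ ω * f ω := by
    rw [h1, h2, ← Finset.sum_add_distrib]
    apply Finset.sum_congr rfl
    intro ω _
    by_cases hE : E ω
    · rw [res_pos _ _ _ hE, res_neg F.μ (fun ω => ¬ E ω) _ (fun h => h hE)]
      ring
    · rw [res_neg _ _ _ hE, res_pos F.μ (fun ω => ¬ E ω) _ hE]
      ring
  exact h3.symm

section
variable {T F : FSp} (p : FPj T F) (E : T.Ω → Prop)

/-- GLUEING of labels with forms -/
def gluFD (y1 : FD (FSp.im p E) ι) (y2 : FD (FSp.im p (fun ω => ¬ E ω)) ι) : FD F ι where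
  l := glue p E y1.l y2.l
  g := Sum.elim y1.g y2.g
  g' := Sum.elim y1.g' y2.g'
  meas := by
    intro w w' h h' hV hZ
    have hV' : Sum.map (Quotient.mk y1.l.V) (Quotient.mk y2.l.V) w =
      Sum.map (Quotient.mk y1.l.V) (Quotient.mk y2.l.V) w' := hV
    have hZ' : F.Z (gπ p E y1.l y2.l w) (gπ p E y1.l y2.l w') := hZ
    have g1 : gμ p E y1.l y2.l w ≠ 0 := h
    have g2 : gμ p E y1.l y2.l w' ≠ 0 := h'
    rcases w with a | a <;> rcases w' with b | b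
    · rw [Sum.map_inl, Sum.map_inl, Sum.inl.injEq] at hV'
      have k1 : y1.l.T.μ a ≠ 0 := right_ne_zero_of_mul g1
      have k2 : y1.l.T.μ b ≠ 0 := right_ne_zero_of_mul g2
      have k3 : y1.l.T.Z a b := (y1.l.p.hZ a b k1 k2).mpr hZ'
      exact y1.meas a b k1 k2 (Quotient.eq (r := y1.l.V).mp hV') k3
    · rw [Sum.map_inl, Sum.map_inr] at hV'
      exact absurd hV' (by simp)
    · rw [Sum.map_inr, Sum.map_inl] at hV'
      exact absurd hV' (by simp)
    · rw [Sum.map_inr, Sum.map_inr, Sum.inr.injEq] at hV'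
      have k1 : y2.l.T.μ a ≠ 0 := right_ne_zero_of_mul g1
      have k2 : y2.l.T.μ b ≠ 0 := right_ne_zero_of_mul g2
      have k3 : y2.l.T.Z a b := (y2.l.p.hZ a b k1 k2).mpr hZ'
      exact y2.meas a b k1 k2 (Quotient.eq (r := y2.l.V).mp hV') k3

variable {p E}

omit [Fintype ι] [DecidableEq ι] in
theorem fval2_glu (f : F.Ω → Matrix ι ι ℝ → Matrix ι ι ℝ → ℝ) (y1 : FD (FSp.im p E) ι)
    (y2 : FD (FSp.im p (fun ω => ¬ E ω)) ι) :
    fval2 f (gluFD p E y1 y2) = T.pb E * fval2 (F := FSp.im p E) f y1 +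
      (1 - T.pb E) * fval2 (F := FSp.im p (fun ω => ¬ E ω)) f y2 := by
  unfold fval2
  have e0 : ∑ w, (gluFD p E y1 y2).l.T.μ w * f ((gluFD p E y1 y2).l.p.π w) ((gluFD p E y1 y2).g w)
      ((gluFD p E y1 y2).g' w) =
      ∑ a, T.pb E * y1.l.T.μ a * f (y1.l.p.π a) (y1.g a) (y1.g' a) +
      ∑ a, (1 - T.pb E) * y2.l.T.μ a * f (y2.l.p.π a) (y2.g a) (y2.g' a) := Fintype.sum_sum_type _
  rw [e0, Finset.mul_sum, Finset.mul_sum]
  congr 1
  · exact Finset.sum_congr rfl fun a _ => mul_assoc _ _ _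
  · exact Finset.sum_congr rfl fun a _ => mul_assoc _ _ _

omit [Fintype ι] [DecidableEq ι] in
theorem fval_glu (f : F.Ω → Matrix ι ι ℝ → ℝ) (y1 : FD (FSp.im p E) ι) (y2 : FD (FSp.im p (fun ω => ¬ E ω)) ι) :
    fval f (gluFD p E y1 y2) = T.pb E * fval (F := FSp.im p E) f y1 +
      (1 - T.pb E) * fval (F := FSp.im p (fun ω => ¬ E ω)) f y2 :=
  fval2_glu (fun ω A _ => f ω A) y1 y2

omit [Fintype ι] [DecidableEq ι] in
/-- everything which holds for the forms of the two labels holds for the forms of the glued label -/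
theorem glu_all (Q : Matrix ι ι ℝ → Prop) (y1 : FD (FSp.im p E) ι) (y2 : FD (FSp.im p (fun ω => ¬ E ω)) ι)
    (h1 : ∀ ω, y1.l.T.μ ω ≠ 0 → Q (y1.g ω) ∧ Q (y1.g' ω)) (h2 : ∀ ω, y2.l.T.μ ω ≠ 0 → Q (y2.g ω) ∧ Q (y2.g' ω))
    (w : (gluFD p E y1 y2).l.T.Ω) (hw : (gluFD p E y1 y2).l.T.μ w ≠ 0) :
    Q ((gluFD p E y1 y2).g w) ∧ Q ((gluFD p E y1 y2).g' w) := by
  have g1 : gμ p E y1.l y2.l w ≠ 0 := hw
  rcases w with a | a
  · exact h1 a (right_ne_zero_of_mul g1)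
  · exact h2 a (right_ne_zero_of_mul g1)

variable (p E)

/-- RESTRICTION of a label with forms to an event of an extension -/
def imFD (hn : T.n = F.n) (y : FD F ι) : FD (FSp.im p E) ι where
  l := FLab.down (FSp.imp p E) hn ((y.l.up' p hn).rst E)
  g := fun w => y.g w.1
  g' := fun w => y.g' w.1
  meas := by
    intro w w' h h' hV hZ
    have k1 : ((y.l.amx p).sp.rest fun w => E w.2).μ w ≠ 0 := h
    have k2 : ((y.l.amx p).sp.rest fun w => E w.2).μ w' ≠ 0 := h'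
    have k3 := ((y.l.amx p).sp.rest_supp _ w k1).1
    have k4 := ((y.l.amx p).sp.rest_supp _ w' k2).1
    have k5 := ((y.l.amx p).supp w k3).2.1
    have k6 := ((y.l.amx p).supp w' k4).2.1
    have k7 : y.l.T.Z w.1 w'.1 := ((y.l.amx p).p1.hZ w w' k3 k4).mp hZ
    exact y.meas w.1 w'.1 k5 k6 hV k7

variable {p E}

omit [Fintype ι] [DecidableEq ι] in
theorem fval2_im (hn : T.n = F.n) (f : F.Ω → Matrix ι ι ℝ → Matrix ι ι ℝ → ℝ) (y : FD F ι) :
    fval2 f y = T.pb E * fval2 (F := FSp.im p E) f (imFD p E hn y) +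
      (1 - T.pb E) * fval2 (F := FSp.im p (fun ω => ¬ E ω)) f (imFD p (fun ω => ¬ E ω) hn y) := by
  have h1 := sum_rest (y.l.amx p).sp (fun w => E w.2) (fun w => f (p.π w.2) (y.g w.1) (y.g' w.1))
  have h2 : (y.l.amx p).sp.pb (fun w => E w.2) = T.pb E := (push_restμ (y.l.amx p).p2 E).2
  rw [h2] at h1
  have h3 : ∑ w, (y.l.amx p).sp.μ w * f (p.π w.2) (y.g w.1) (y.g' w.1) = fval2 f y := by
    have h4 := sum_pull (y.l.amx p).p1 (fun a => f (y.l.p.π a) (y.g a) (y.g' a))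
    refine Eq.trans (Finset.sum_congr rfl fun w _ => ?_) h4
    by_cases h0 : (y.l.amx p).sp.μ w = 0
    · rw [h0, zero_mul, zero_mul]
    · have h5 : y.l.p.π w.1 = p.π w.2 := ((y.l.amx p).supp w h0).1
      show (y.l.amx p).sp.μ w * f (p.π w.2) (y.g w.1) (y.g' w.1) =
        (y.l.amx p).sp.μ w * f (y.l.p.π w.1) (y.g w.1) (y.g' w.1)
      rw [h5]
  exact h3.symm.trans h1

omit [Fintype ι] [DecidableEq ι] in
theorem fval_im (hn : T.n = F.n) (f : F.Ω → Matrix ι ι ℝ → ℝ) (y : FD F ι) :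
    fval f y = T.pb E * fval (F := FSp.im p E) f (imFD p E hn y) +
      (1 - T.pb E) * fval (F := FSp.im p (fun ω => ¬ E ω)) f (imFD p (fun ω => ¬ E ω) hn y) :=
  fval2_im hn (fun ω A _ => f ω A) y

omit [Fintype ι] [DecidableEq ι] in
/-- everything which holds for the forms of a label holds for the forms of its restriction -/
theorem im_all (hn : T.n = F.n) (Q : Matrix ι ι ℝ → Prop) (y : FD F ι)
    (h1 : ∀ ω, y.l.T.μ ω ≠ 0 → Q (y.g ω) ∧ Q (y.g' ω)) (w : (imFD p E hn y).l.T.Ω)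
    (hw : (imFD p E hn y).l.T.μ w ≠ 0) : Q ((imFD p E hn y).g w) ∧ Q ((imFD p E hn y).g' w) := by
  have k1 : ((y.l.amx p).sp.rest fun w => E w.2).μ w ≠ 0 := hw
  have k3 := ((y.l.amx p).sp.rest_supp _ w k1).1
  exact h1 w.1 ((y.l.amx p).supp w k3).2.1

omit [Fintype ι] [DecidableEq ι] in
theorem im_leak (hn : T.n = F.n) (y : FD F ι) (x : FL F) :
    T.pb E * (imFD p E hn y).l.leak (FSp.imap p E x) ≤ y.l.leak x + 1 := by
  have h1 : (imFD p E hn y).l.leak (FSp.imap p E x) ≤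
      ((y.l.up' p hn).rst E).leak ((FSp.imp p E).map (FSp.imap p E x)) :=
    FLab.down_leak (FSp.imp p E) hn ((y.l.up' p hn).rst E) (FSp.imap p E x)
  rw [FSp.imp_imap] at h1
  have h2 := (y.l.up' p hn).rst_leak_le E (p.map x)
  have h3 := FLab.up'_leak y.l p hn x
  have h4 := mul_le_mul_of_nonneg_left h1 (T.pb_nonneg E)
  linarith

omit [Fintype ι] [DecidableEq ι] in
theorem glu_leak (y1 : FD (FSp.im p E) ι) (y2 : FD (FSp.im p (fun ω => ¬ E ω)) ι) (x : FL F) :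
    (gluFD p E y1 y2).l.leak x ≤ T.pb E * y1.l.leak (FSp.imap p E x) +
      (1 - T.pb E) * y2.l.leak (FSp.imap p (fun ω => ¬ E ω) x) + 1 := by
  have h1 := glue_leak p E y1.l y2.l x
  have h2 := (abs_le.mp h1).2
  have h3 : (gluFD p E y1 y2).l.leak x = (glue p E y1.l y2.l).leak x := rfl
  rw [h3]
  linarith

end

end

end Pool.Agent.Helper59.EV
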