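import Pool.Agent.Helper59.EV.Vol
import Pool.Agent.Helper3.LF.PhiRem

/-! END, regular volume, for abstract functions `φ` (size of the form) and `γ` (Gram determinant). -/

set_option autoImplicit false

namespace Pool.Agent.Helper59.EV

open Finset Filter Topology MvPolynomial MeasureTheory Pool.Agent.Helper69.RK Pool.Agent.Helper59.EN
open Pool.Agent.Helper31.EC Pool.Agent.Helper31.EC.Sp
open Pool.Agent.Helper3.LF (pl pl_zero pl_succ)

noncomputable section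

open Classical in
/-- a polynomial with the given values, if it exists -/
def Qof {m : ℕ} (d : ℕ) (f : (Fin m → ℝ) → ℝ) : MvPolynomial (Fin m) ℝ :=
  if h : ∃ Q : MvPolynomial (Fin m) ℝ, Q.totalDegree ≤ d ∧ ∀ P, eval P Q = f P then h.choose else 0

theorem Qof_deg {m : ℕ} (d : ℕ) (f : (Fin m → ℝ) → ℝ) : (Qof d f).totalDegree ≤ d := by
  unfold Qof
  split_ifs with h
  · exact h.choose_spec.1
  · rw [totalDegree_zero]
    exact Nat.zero_le _

theorem Qof_eval {m : ℕ} (d : ℕ) (f : (Fin m → ℝ) → ℝ)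
    (h : ∃ Q : MvPolynomial (Fin m) ℝ, Q.totalDegree ≤ d ∧ ∀ P, eval P Q = f P) (P : Fin m → ℝ) :
    eval P (Qof d f) = f P := by
  unfold Qof
  rw [dif_pos h]
  exact h.choose_spec.2 P

/-- the polynomial of the set `f ≤ .., g ≥ ..` -/
def PsQ {m : ℕ} (d : ℕ) (f g : (Fin m → ℝ) → ℝ) (κ T : ℝ) : MvPolynomial (Fin m ⊕ Fin 1) ℝ :=
  rename Sum.inl (Qof d f) + C κ * (X (Sum.inr 0) * rename Sum.inl (Qof d g) - 1) ^ 2 +
    (C T * X (Sum.inr 0)) ^ 2

theorem eval_PsQ {m : ℕ} (d : ℕ) (f g : (Fin m → ℝ) → ℝ) (κ T : ℝ)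
    (hf : ∃ Q : MvPolynomial (Fin m) ℝ, Q.totalDegree ≤ d ∧ ∀ P, eval P Q = f P)
    (hg : ∃ Q : MvPolynomial (Fin m) ℝ, Q.totalDegree ≤ d ∧ ∀ P, eval P Q = g P) (z : Fin m ⊕ Fin 1 → ℝ) :
    eval z (PsQ d f g κ T) = f (fun i => z (Sum.inl i)) +
      κ * (z (Sum.inr 0) * g (fun i => z (Sum.inl i)) - 1) ^ 2 + (T * z (Sum.inr 0)) ^ 2 := by
  unfold PsQ
  simp only [map_add, map_mul, map_pow, map_sub, eval_C, eval_X, eval_rename, map_one]
  have e1 : (z ∘ Sum.inl : Fin m → ℝ) = fun i => z (Sum.inl i) := rfl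
  rw [e1, Qof_eval d f hf, Qof_eval d g hg]

theorem deg_PsQ {m : ℕ} (d : ℕ) (f g : (Fin m → ℝ) → ℝ) (κ T : ℝ) :
    (PsQ d f g κ T).totalDegree ≤ (2 * d + 1) + 1 := by
  unfold PsQ
  refine (totalDegree_add _ _).trans (max_le ((totalDegree_add _ _).trans (max_le ?_ ?_)) ?_)
  · refine (totalDegree_rename_le _ _).trans ((Qof_deg d f).trans (by omega))
  · refine (totalDegree_mul _ _).trans ?_
    rw [totalDegree_C, zero_add]
    refine (totalDegree_pow _ _).trans ?_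
    have h1 : (X (Sum.inr 0) * rename Sum.inl (Qof d g) - 1 : MvPolynomial (Fin m ⊕ Fin 1) ℝ).totalDegree ≤
        d + 1 := by
      refine (totalDegree_sub _ _).trans (max_le ?_ ?_)
      · refine (totalDegree_mul _ _).trans ?_
        rw [totalDegree_X]
        have := (totalDegree_rename_le (Sum.inl : Fin m → Fin m ⊕ Fin 1) (Qof d g)).trans (Qof_deg d g)
        omega
      · rw [totalDegree_one]
        exact Nat.zero_le _
    omega
  · refine (totalDegree_pow _ _).trans ?_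
    have h1 : (C T * X (Sum.inr 0) : MvPolynomial (Fin m ⊕ Fin 1) ℝ).totalDegree ≤ 1 := by
      refine (totalDegree_mul _ _).trans ?_
      rw [totalDegree_C, totalDegree_X]
    omega

/-- sublevel sets -/
theorem SL_PsQ {m : ℕ} (d : ℕ) (f g : (Fin m → ℝ) → ℝ) (T K : ℝ) (hK : 1 ≤ K) (hT : 0 < T)
    (hf : ∃ Q : MvPolynomial (Fin m) ℝ, Q.totalDegree ≤ d ∧ ∀ P, eval P Q = f P)
    (hg : ∃ Q : MvPolynomial (Fin m) ℝ, Q.totalDegree ≤ d ∧ ∀ P, eval P Q = g P)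
    (hf0 : ∀ P, 0 ≤ f P) (hg0 : ∀ P, 0 < g P) :
    SL (PsQ d f g (4 * ((m + 2) * K)) (T ^ 2)) ((m + 2) * K) ⊆
      {P | f P ≤ ((m + 2) * K) ^ 2 ∧ (T / (2 * ((m + 2) * K))) ^ 2 ≤ g P} := by
  rintro P ⟨q, hq⟩
  rw [eval_PsQ d f g _ _ hf hg] at hq
  have e0 : (fun i => (Sum.elim P q : Fin m ⊕ Fin 1 → ℝ) (Sum.inl i)) = P := rfl
  have e1 : (Sum.elim P q : Fin m ⊕ Fin 1 → ℝ) (Sum.inr 0) = q 0 := rfl
  rw [e0, e1] at hq
  set M : ℝ := (m + 2) * K with hM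
  have hM1 : 1 ≤ M := by
    have : (0 : ℝ) ≤ m := Nat.cast_nonneg m
    nlinarith
  have h1 := hf0 P
  have h2 := hg0 P
  have h3 : 0 ≤ (q 0 * g P - 1) ^ 2 := sq_nonneg _
  have h4 : 0 ≤ (T ^ 2 * q 0) ^ 2 := sq_nonneg _
  have h5 : 4 * M * (q 0 * g P - 1) ^ 2 ≤ M := by
    have : 0 ≤ 4 * M * (q 0 * g P - 1) ^ 2 := by positivity
    linarith
  have h6 : (q 0 * g P - 1) ^ 2 ≤ (1 / 2) ^ 2 := by
    have : 4 * (q 0 * g P - 1) ^ 2 ≤ 1 := by
      by_contra hcon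
      push Not at hcon
      nlinarith
    nlinarith
  have h7 := abs_le_of_sq_le_sq h6 (by norm_num)
  have h8 : 1 / 2 ≤ q 0 * g P := by
    have := (abs_le.1 h7).1
    linarith
  have h9 : (T ^ 2 * q 0) ^ 2 ≤ M ^ 2 := by
    have e2 : (T ^ 2 * q 0) ^ 2 ≤ M := by
      have : 0 ≤ 4 * M * (q 0 * g P - 1) ^ 2 := by positivity
      linarith
    nlinarith
  have h10 := (abs_le.1 (abs_le_of_sq_le_sq h9 (by linarith))).2
  constructor
  · show f P ≤ M ^ 2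
    have : 0 ≤ 4 * M * (q 0 * g P - 1) ^ 2 := by positivity
    nlinarith
  · show (T / (2 * M)) ^ 2 ≤ g P
    have e3 : T ^ 2 * (1 / 2) ≤ M * g P := by
      calc T ^ 2 * (1 / 2) ≤ T ^ 2 * (q 0 * g P) := mul_le_mul_of_nonneg_left h8 (by positivity)
        _ = (T ^ 2 * q 0) * g P := by ring
        _ ≤ M * g P := mul_le_mul_of_nonneg_right h10 h2.le
    rw [div_pow, div_le_iff₀ (by positivity)]
    have e4 : g P * (2 * M) ^ 2 = 4 * M * (M * g P) := by ring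
    rw [e4]
    have e5 : T ^ 2 ≤ 2 * (M * g P) := by linarith
    have e6 : 0 ≤ M * g P := by positivity
    nlinarith

/-- membership in the sublevel set -/
theorem mem_PsQ {m : ℕ} (d : ℕ) (f g : (Fin m → ℝ) → ℝ) (κ T B : ℝ)
    (hf : ∃ Q : MvPolynomial (Fin m) ℝ, Q.totalDegree ≤ d ∧ ∀ P, eval P Q = f P)
    (hg : ∃ Q : MvPolynomial (Fin m) ℝ, Q.totalDegree ≤ d ∧ ∀ P, eval P Q = g P)
    (P : Fin m → ℝ) (h1 : f P ≤ B) (h2 : 0 < g P) (h3 : T ^ 2 ≤ B * g P) :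
    P ∈ SL (PsQ d f g κ (T ^ 2)) (B + B ^ 2) := by
  refine ⟨fun _ => 1 / g P, ?_⟩
  rw [eval_PsQ d f g _ _ hf hg]
  have e0 : (fun i => (Sum.elim P (fun _ => 1 / g P) : Fin m ⊕ Fin 1 → ℝ) (Sum.inl i)) = P := rfl
  have e1 : (Sum.elim P (fun _ => 1 / g P) : Fin m ⊕ Fin 1 → ℝ) (Sum.inr 0) = 1 / g P := rfl
  rw [e0, e1, one_div_mul_cancel h2.ne', sub_self]
  have h4 : 0 ≤ T ^ 2 * (1 / g P) := by positivity
  have h5 : T ^ 2 * (1 / g P) ≤ B := by
    rw [mul_one_div, div_le_iff₀ h2]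
    exact h3
  have h6 : (T ^ 2 * (1 / g P)) ^ 2 ≤ B ^ 2 := pow_le_pow_left₀ h4 h5 2
  have e2 : κ * (0 : ℝ) ^ 2 = 0 := by ring
  rw [e2]
  linarith

theorem dl_pow_m (S : Sp) (s : ℝ) (k m : ℕ) : S.dl s k ^ m = 2 ^ (-(m * s * (S.F k).n)) := by
  unfold dl
  rw [← Real.rpow_natCast, ← Real.rpow_mul (by norm_num)]
  congr 1
  ring

/-- END IN REGULAR VOLUME, abstract form. `φ` = size of the form at a point, `γ` = Gram determinant of its gradients:
if typically `φ ≤ 2 ^ o(n)` and `γ ≥ 2 ^ (2 σ n)` then `h(x_s) ≤ m s - E σ`. -/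
theorem END_abs {S : Sp} {m : ℕ} (d : ℕ) (a x : S.VV m) (t : S.VV 1) (s : ℝ) (hs : 0 < s)
    (φ γ : ∀ k, (S.F k).Ω → (Fin (m + 1) → ℝ) → ℝ)
    (hφ0 : ∀ᶠ k in UF, ∀ ω, (S.F k).μ ω ≠ 0 → ∀ p, 0 ≤ φ k ω p)
    (hγ0 : ∀ᶠ k in UF, ∀ ω, (S.F k).μ ω ≠ 0 → ∀ p, 0 < γ k ω p)
    (hφP : ∀ᶠ k in UF, ∀ ω, (S.F k).μ ω ≠ 0 → ∀ τ : ℝ, ∃ Q : MvPolynomial (Fin m) ℝ, Q.totalDegree ≤ d ∧
      ∀ P, eval P Q = φ k ω (Fin.cons τ P))
    (hγP : ∀ᶠ k in UF, ∀ ω, (S.F k).μ ω ≠ 0 → ∀ τ : ℝ, ∃ Q : MvPolynomial (Fin m) ℝ, Q.totalDegree ≤ d ∧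
      ∀ P, eval P Q = γ k ω (Fin.cons τ P))
    (hcmp : ∀ R : ℕ → ℝ, S.Sub R → ∃ K : ℕ → ℝ, S.Sub K ∧ ∀ᶠ k in UF, ∀ ω, (S.F k).μ ω ≠ 0 →
      ∀ p p' : Fin (m + 1) → ℝ, (∀ i, |p' i - p i| ≤ R k * S.dl s k) →
        φ k ω p' ≤ K k * φ k ω p ∧ γ k ω p ≤ K k * γ k ω p')
    (hvol : ∃ C : ℝ, 0 < C ∧ ∀ᶠ k in UF, ∀ ω, (S.F k).μ ω ≠ 0 → ∀ τ ρ g : ℝ, 0 < ρ → 0 < g →
      volume {P : Fin m → ℝ | φ k ω (Fin.cons τ P) ≤ ρ ^ 2 ∧ g ^ 2 ≤ γ k ω (Fin.cons τ P)} ≤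
        ENNReal.ofReal (C * ρ ^ m / g))
    (hZ : ∀ᶠ k in UF, ∀ ω ω', (S.F k).μ ω ≠ 0 → (S.F k).μ ω' ≠ 0 → (S.F k).Z ω ω' →
      φ k ω = φ k ω' ∧ γ k ω = γ k ω')
    (E : ∀ k, (S.F k).Ω → Prop) (hE : Typ E) (K0 : ℕ → ℝ) (hK0 : S.Sub K0)
    (σ : ∀ k, (S.F k).Ω → ℝ)
    (hσ : ∀ᶠ k in UF, ∀ ω, (S.F k).μ ω ≠ 0 → 0 ≤ σ k ω ∧ σ k ω ≤ m * s)
    (hφE : ∀ᶠ k in UF, ∀ ω, (S.F k).μ ω ≠ 0 → E k ω → φ k ω (pl (a.v k ω) (x.v k ω) (t.v k ω 0)) ≤ K0 k)
    (hγE : ∀ᶠ k in UF, ∀ ω, (S.F k).μ ω ≠ 0 → E k ω →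
      2 ^ (2 * σ k ω * (S.F k).n) ≤ K0 k * γ k ω (pl (a.v k ω) (x.v k ω) (t.v k ω 0)))
    (ht : s ≤ h (t.dg s) (a.dg s ⊔ x.dg s)) :
    H (x.dg s) ≤ m * s - ul (fun k => ∑ ω, (S.F k).μ ω * σ k ω) := by
  classical
  obtain ⟨Cx, hCxS, hCx⟩ := x.bd
  obtain ⟨Ct, hCtS, hCt⟩ := t.bd
  set R : ℕ → ℝ := fun k => Cx k + Ct k + 1 with hR
  have hRS : S.Sub R := (hCxS.add hCtS).add (S.Sub_const zero_le_one)
  have hRS' : S.Sub (fun k => 2 * R k + 1) :=
    ((S.Sub_const (by norm_num : (0 : ℝ) ≤ 2)).mul hRS).add (S.Sub_const zero_le_one)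
  obtain ⟨Kc, hKcS, hKc⟩ := hcmp _ hRS'
  obtain ⟨C, hC, hvolC⟩ := hvol
  -- the constants
  set B : ℕ → ℝ := fun k => Kc k * K0 k + 1 with hB
  have hBS : S.Sub B := (hKcS.mul hK0).add (S.Sub_const zero_le_one)
  set Kt : ℕ → ℝ := fun k => B k + B k * B k with hKt
  have hKtS : S.Sub Kt := hBS.add (hBS.mul hBS)
  set M : ℕ → ℝ := fun k => (m + 2) * Kt k with hM
  have hMS : S.Sub M := (S.Sub_const (by positivity : (0 : ℝ) ≤ m + 2)).mul hKtS
  have hpow : ∀ n : ℕ, S.Sub (fun k => M k ^ n) := by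
    intro n
    induction n with
    | zero =>
      simp only [pow_zero]
      exact S.Sub_const zero_le_one
    | succ n ih =>
      simp only [pow_succ]
      exact ih.mul hMS
  set L : ℕ → ℝ := fun k => 2 * C * M k ^ (m + 1) + 1 with hL
  have hLS : S.Sub L := ((S.Sub_const (by linarith : (0 : ℝ) ≤ 2 * C)).mul (hpow _)).add (S.Sub_const zero_le_one)
  have hBpos : ∀ᶠ k in UF, 1 ≤ B k := by
    filter_upwards [hKcS.1, hK0.1] with k h1 h2
    show 1 ≤ Kc k * K0 k + 1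
    have := mul_nonneg h1 h2
    linarith
  have hms : 0 ≤ (m : ℝ) * s := by positivity
  -- the average
  set g0 : ℕ → ℝ := fun k => ∑ ω, (S.F k).μ ω * σ k ω with hg0
  have hmass : ∀ k, ∑ ω, (S.F k).μ ω = 1 := fun k => (S.F k).ms
  have hg0U : UB g0 := by
    apply UB_of_nonneg_le (C := m * s)
    · filter_upwards [hσ] with k hk
      refine Finset.sum_nonneg fun ω _ => ?_
      by_cases hω : (S.F k).μ ω = 0
      · rw [hω, zero_mul]
      · exact mul_nonneg ((S.F k).nn ω) (hk ω hω).1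
    · filter_upwards [hσ] with k hk
      calc g0 k ≤ ∑ ω, (S.F k).μ ω * (m * s) := by
            refine Finset.sum_le_sum fun ω _ => ?_
            by_cases hω : (S.F k).μ ω = 0
            · rw [hω, zero_mul, zero_mul]
            · exact mul_le_mul_of_nonneg_left (hk ω hω).2 ((S.F k).nn ω)
        _ = m * s := by rw [← Finset.sum_mul, hmass, one_mul]
  apply le_of_forall_pos_le_add
  intro ε hε
  -- the label
  set j : ∀ k, (S.F k).Ω → ℕ := fun k ω => ⌊(m * s - σ k ω) / ε⌋₊ with hj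
  set w : ℕ → ℝ := fun i => (i + 1) * ε with hw
  set J : ℕ := ⌊m * s / ε⌋₊ with hJ
  have hjJ : ∀ᶠ k in UF, ∀ ω, (S.F k).μ ω ≠ 0 → j k ω ≤ J := by
    filter_upwards [hσ] with k hk ω hω
    apply Nat.floor_le_floor
    apply div_le_div_of_nonneg_right _ hε.le
    have := (hk ω hω).1
    linarith
  have hjw : ∀ᶠ k in UF, ∀ ω, (S.F k).μ ω ≠ 0 → m * s - σ k ω ≤ w (j k ω) ∧ w (j k ω) ≤ m * s - σ k ω + ε := by
    filter_upwards [hσ] with k hk ω hω
    have h1 : 0 ≤ (m * s - σ k ω) / ε := div_nonneg (by linarith [(hk ω hω).2]) hε.le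
    have h2 := Nat.floor_le h1
    have h3 := Nat.lt_floor_add_one ((m * s - σ k ω) / ε)
    rw [le_div_iff₀ hε] at h2
    rw [div_lt_iff₀ hε] at h3
    constructor
    · exact h3.le
    · show ((⌊(m * s - σ k ω) / ε⌋₊ : ℝ) + 1) * ε ≤ _
      linarith
  -- the family of polynomials
  set TT : ∀ k, (S.F k).Ω → ℝ := fun k ω => 2 ^ ((m * s - w (j k ω)) * (S.F k).n) with hTT
  set Φ : ∀ k, (S.F k).Ω → ℤ → MvPolynomial (Fin m ⊕ Fin 1) ℝ := fun k ω i =>
    PsQ d (fun P => φ k ω (Fin.cons ((i : ℝ) * S.dl s k) P)) (fun P => γ k ω (Fin.cons ((i : ℝ) * S.dl s k) P))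
      (4 * ((m + 2) * Kt k)) ((TT k ω) ^ 2) with hΦ
  have hmain := END_vol (r := 1) (d := 2 * d + 1) (by omega) a x t s hs Φ E hE Kt L R
    (by
      filter_upwards [hBpos] with k hk
      show 0 < B k + B k * B k
      have : 0 ≤ B k * B k := by positivity
      linarith) hLS
    (by
      filter_upwards [hBpos] with k hk
      show 1 ≤ 2 * C * M k ^ (m + 1) + 1
      have h1 : 0 ≤ M k := by
        show 0 ≤ (m + 2) * (B k + B k * B k)
        have : 0 ≤ B k * B k := by positivity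
        have : 0 ≤ B k := by linarith
        positivity
      have : 0 ≤ 2 * C * M k ^ (m + 1) := by positivity
      linarith) hRS
    (by
      filter_upwards [hCxS.1, hCtS.1] with k h1 h2
      show 1 ≤ Cx k + Ct k + 1
      linarith)
    (by
      filter_upwards [hCx, hCt, hCxS.1, hCtS.1] with k h1 h2 h3 h4 ω hω
      refine ⟨fun i => (h1 ω hω i).trans ?_, (h2 ω hω 0).trans ?_⟩
      · show Cx k ≤ Cx k + Ct k + 1
        linarith
      · show Ct k ≤ Cx k + Ct k + 1 - 1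
        linarith) J w (fun i => by
          show 0 ≤ ((i : ℝ) + 1) * ε
          positivity) j hjJ
    (by
      filter_upwards [hφP, hγP, hφ0, hBpos] with k h1 h2 h3 hBk ω hω _ i
      refine ⟨deg_PsQ _ _ _ _ _, fun z => ?_⟩
      rw [eval_PsQ d _ _ _ _ (h1 ω hω _) (h2 ω hω _)]
      have e1 := h3 ω hω (Fin.cons ((i : ℝ) * S.dl s k) (fun i => z (Sum.inl i)))
      have hKt0 : 0 ≤ Kt k := by
        show 0 ≤ B k + B k * B k
        have : 0 ≤ B k * B k := by positivity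
        linarith
      positivity)
    (by
      filter_upwards [hZ] with k h1 ω ω' h2 h3 _ _ h4 h5
      obtain ⟨e1, e2⟩ := h1 ω ω' h2 h3 h4
      funext i
      show PsQ d (fun P => φ k ω (Fin.cons ((i : ℝ) * S.dl s k) P)) (fun P => γ k ω (Fin.cons ((i : ℝ) * S.dl s k) P))
        (4 * ((m + 2) * Kt k)) ((2 ^ ((m * s - w (j k ω)) * (S.F k).n)) ^ 2) =
        PsQ d (fun P => φ k ω' (Fin.cons ((i : ℝ) * S.dl s k) P)) (fun P => γ k ω' (Fin.cons ((i : ℝ) * S.dl s k) P))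
        (4 * ((m + 2) * Kt k)) ((2 ^ ((m * s - w (j k ω')) * (S.F k).n)) ^ 2)
      rw [e1, e2, h5])
    (by
      filter_upwards [hφP, hγP, hφ0, hγ0, hBpos, hvolC] with k h1 h2 h3 h4 hBk h5 ω hω _
      have hKt1 : 1 ≤ Kt k := by
        show 1 ≤ B k + B k * B k
        have : 0 ≤ B k * B k := by positivity
        linarith
      have hT : 0 < TT k ω := by
        show (0 : ℝ) < 2 ^ ((m * s - w (j k ω)) * (S.F k).n)
        positivity
      set τ : ℝ := ((⌊t.v k ω 0 / S.dl s k⌋ : ℤ) : ℝ) * S.dl s k with hτ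
      have h6 := SL_PsQ d (fun P => φ k ω (Fin.cons τ P)) (fun P => γ k ω (Fin.cons τ P)) (TT k ω) (Kt k)
        hKt1 hT (h1 ω hω τ) (h2 ω hω τ) (fun P => h3 ω hω _) (fun P => h4 ω hω _)
      have hM0 : 0 < (m + 2) * Kt k := by positivity
      refine (measure_mono h6).trans ((h5 ω hω τ _ _ hM0 (div_pos hT (by positivity))).trans ?_)
      apply ENNReal.ofReal_le_ofReal
      have e1 : C * ((m + 2) * Kt k) ^ m / (TT k ω / (2 * ((m + 2) * Kt k))) =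
          2 * C * M k ^ (m + 1) / TT k ω := by
        show C * M k ^ m / (TT k ω / (2 * M k)) = _
        have hMk : 0 < M k := hM0
        rw [pow_succ]
        field_simp
      have e2 : 1 / TT k ω = 2 ^ (w (j k ω) * (S.F k).n) * S.dl s k ^ m := by
        show 1 / (2 : ℝ) ^ ((m * s - w (j k ω)) * (S.F k).n) = _
        rw [dl_pow_m, one_div, ← Real.rpow_neg (by norm_num), ← Real.rpow_add (by norm_num)]
        congr 1
        ring
      rw [e1, ← mul_one_div, e2, mul_assoc (L k)]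
      apply mul_le_mul_of_nonneg_right _ (by have := S.dl_pos s k; positivity)
      show 2 * C * M k ^ (m + 1) ≤ 2 * C * M k ^ (m + 1) + 1
      linarith)
    (by
      filter_upwards [hφP, hγP, hφ0, hγ0, hBpos, hφE, hγE, hKc, hjw, hKcS.1, hK0.1, hCtS.1, hCxS.1] with
        k h1 h2 h3 h4 hBk h5 h6 h7 h8 h9 h10 h11 h12 ω hω hEω y hy
      set τ : ℝ := ((⌊t.v k ω 0 / S.dl s k⌋ : ℤ) : ℝ) * S.dl s k with hτ
      have hδ := S.dl_pos s k
      have hn := (S.F k).pos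
      have hτt : |τ - t.v k ω 0| ≤ S.dl s k := by
        have g2 := Int.floor_le (t.v k ω 0 / S.dl s k)
        have g3 := Int.lt_floor_add_one (t.v k ω 0 / S.dl s k)
        rw [le_div_iff₀ hδ] at g2
        rw [div_lt_iff₀ hδ] at g3
        rw [abs_le]
        constructor <;> rw [hτ] <;> nlinarith
      obtain ⟨c1, c2⟩ := h7 ω hω (pl (a.v k ω) (x.v k ω) (t.v k ω 0)) (Fin.cons τ y) (by
        intro i
        refine Fin.cases ?_ (fun i => ?_) i
        · rw [Fin.cons_zero, pl_zero]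
          refine hτt.trans ?_
          have : 1 ≤ 2 * R k + 1 := by
            show 1 ≤ 2 * (Cx k + Ct k + 1) + 1
            linarith
          nlinarith
        · rw [Fin.cons_succ, pl_succ]
          exact hy i)
      have hφω := h5 ω hω hEω
      have hγω := h6 ω hω hEω
      have hKK := mul_nonneg h9 h10
      have hsq : Kt k = B k + B k ^ 2 := by
        show B k + B k * B k = B k + B k ^ 2
        ring
      rw [hsq]
      apply mem_PsQ d _ _ _ _ _ (h1 ω hω τ) (h2 ω hω τ) y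
      · calc φ k ω (Fin.cons τ y) ≤ Kc k * φ k ω (pl (a.v k ω) (x.v k ω) (t.v k ω 0)) := c1
          _ ≤ Kc k * K0 k := mul_le_mul_of_nonneg_left hφω h9
          _ ≤ B k := by
              show Kc k * K0 k ≤ Kc k * K0 k + 1
              linarith
      · exact h4 ω hω _
      · have e1 : (TT k ω) ^ 2 ≤ 2 ^ (2 * σ k ω * (S.F k).n) := by
          show ((2 : ℝ) ^ ((m * s - w (j k ω)) * (S.F k).n)) ^ 2 ≤ _
          rw [← Real.rpow_natCast, ← Real.rpow_mul (by norm_num)]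
          apply Real.rpow_le_rpow_of_exponent_le (by norm_num)
          have := (h8 ω hω).1
          push_cast
          nlinarith
        have e2 : K0 k * γ k ω (pl (a.v k ω) (x.v k ω) (t.v k ω 0)) ≤ K0 k * (Kc k * γ k ω (Fin.cons τ y)) :=
          mul_le_mul_of_nonneg_left c2 h10
        have e3 : 0 ≤ γ k ω (Fin.cons τ y) := (h4 ω hω _).le
        calc (TT k ω) ^ 2 ≤ K0 k * (Kc k * γ k ω (Fin.cons τ y)) := e1.trans (hγω.trans e2)
          _ = (Kc k * K0 k) * γ k ω (Fin.cons τ y) := by ring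
          _ ≤ B k * γ k ω (Fin.cons τ y) := by
              apply mul_le_mul_of_nonneg_right _ e3
              show Kc k * K0 k ≤ Kc k * K0 k + 1
              linarith)
    ht
  refine hmain.trans ?_
  have hle : ∀ᶠ k in UF, ∑ ω, (S.F k).μ ω * w (j k ω) ≤ (m * s + ε) - g0 k := by
    filter_upwards [hjw] with k hk
    calc ∑ ω, (S.F k).μ ω * w (j k ω) ≤ ∑ ω, (S.F k).μ ω * ((m * s + ε) - σ k ω) := by
          refine Finset.sum_le_sum fun ω _ => ?_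
          by_cases hω : (S.F k).μ ω = 0
          · rw [hω, zero_mul, zero_mul]
          · apply mul_le_mul_of_nonneg_left _ ((S.F k).nn ω)
            have := (hk ω hω).2
            linarith
      _ = (m * s + ε) - g0 k := by
          simp_rw [mul_sub]
          rw [Finset.sum_sub_distrib, ← Finset.sum_mul, hmass, one_mul]
  have hU1 : UB (fun k => ∑ ω, (S.F k).μ ω * w (j k ω)) := by
    refine UB.sandwich (UB_const 0) ((UB_const (m * s + ε)).sub hg0U) ?_ hle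
    exact Eventually.of_forall fun k => Finset.sum_nonneg fun ω _ =>
      mul_nonneg ((S.F k).nn ω) (by
        show 0 ≤ ((j k ω : ℝ) + 1) * ε
        positivity)
  have h1 := ul_mono hU1 ((UB_const (m * s + ε)).sub hg0U) hle
  rw [ul_sub (UB_const (m * s + ε)) hg0U, ul_const] at h1
  linarith

end

end Pool.Agent.Helper59.EV
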