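import Pool.Agent.Helper59.EN.Cnt
import Pool.Agent.Helper59.PWE.Main

/-! Volume form of the counting theorem: lines which spend many times in sublevel sets of a family of polynomials. -/

set_option autoImplicit false

namespace Pool.Agent.Helper59.EV

open Set MvPolynomial MeasureTheory Pool.Agent.Helper59.EN
open scoped ENNReal

variable {m : ℕ}

/-- projections of sublevel sets -/
def SL {m r : ℕ} (Φ : MvPolynomial (Fin m ⊕ Fin r) ℝ) (K : ℝ) : Set (Fin m → ℝ) :=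
  {P | ∃ p : Fin r → ℝ, eval (Sum.elim P p) Φ ≤ K}

/-- the constant -/
def CW (m r d : ℕ) : ℕ := ((m + (m + 1) * r + 1) * d) ^ (m + (m + 1) * r)

/-- Wolff axioms with separate blocks of auxiliary variables -/
theorem wolffR (m r d : ℕ) (hd : 1 ≤ d) (t : Fin (m + 1) → ℝ) (ht : Function.Injective t)
    (Φ : Fin (m + 1) → MvPolynomial (Fin m ⊕ Fin r) ℝ) (hΦ : ∀ l, (Φ l).totalDegree ≤ d + 1)
    (h0 : ∀ l z, 0 ≤ eval z (Φ l)) :
    volume {x : Fin m → ℝ | ∃ a : Fin m → ℝ, ∀ l, a + t l • x ∈ SL (Φ l) 1} ≤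
      ∑ k, ENNReal.ofReal (PWE.wgt t k) * (CW m r d * volume (SL (Φ k) (m + 2))) := by
  -- the blocks of auxiliary variables
  let e : Fin (m + 1) → Fin r → Fin ((m + 1) * r) := fun l j => finProdFinEquiv (l, j)
  let Ψ : Fin (m + 1) → MvPolynomial (Fin m ⊕ Fin ((m + 1) * r)) ℝ := fun l =>
    rename (Sum.map id (e l)) (Φ l)
  have hΨe : ∀ l (P : Fin m → ℝ) (p : Fin ((m + 1) * r) → ℝ),
      eval (Sum.elim P p) (Ψ l) = eval (Sum.elim P (fun j => p (e l j))) (Φ l) := by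
    intro l P p
    simp only [Ψ]
    rw [eval_rename]
    congr 2
    funext i
    rcases i with i | i <;> rfl
  have h1 := PWE.wolffE (m := m) (q := (m + 1) * r) d hd t ht
    Ψ (fun l => (totalDegree_rename_le _ _).trans (hΦ l)) (fun l z => by
      simp only [Ψ]
      rw [eval_rename]
      exact h0 l _)
  refine le_trans (measure_mono ?_) (h1.trans (Finset.sum_le_sum fun k _ => ?_))
  · rintro x ⟨a, ha⟩
    choose q hq using ha
    refine ⟨a, fun s => q (finProdFinEquiv.symm s).1 (finProdFinEquiv.symm s).2, fun l => ?_⟩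
    rw [hΨe]
    have e1 : (fun j => q (finProdFinEquiv.symm (e l j)).1 (finProdFinEquiv.symm (e l j)).2) =
        q l := by
      funext j
      simp only [e, Equiv.symm_apply_apply]
    rw [e1]
    exact hq l
  · refine mul_le_mul_right (le_of_eq ?_) _
    congr 2
    ext P
    constructor
    · rintro ⟨p, hp⟩
      rw [hΨe] at hp
      exact ⟨_, hp⟩
    · rintro ⟨q, hq⟩
      refine ⟨fun s => q (finProdFinEquiv.symm s).2, ?_⟩
      show eval (Sum.elim P _) (Ψ k) ≤ _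
      rw [hΨe]
      have e1 : (fun j => q (finProdFinEquiv.symm (e k j)).2) = q := by
        funext j
        simp only [e, Equiv.symm_apply_apply]
      rw [e1]
      exact hq

/-- one tuple of times -/
theorem tupV (m r d : ℕ) (hd : 1 ≤ d) (Φ : ℤ → MvPolynomial (Fin m ⊕ Fin r) ℝ)
    (hΦ : ∀ k, (Φ k).totalDegree ≤ d + 1)
    (h0 : ∀ k z, 0 ≤ eval z (Φ k)) (δ g θ K : ℝ) (hδ : 0 < δ) (hg : 0 < g) (hθ : 0 ≤ θ) (hK : 0 < K)
    (k : Fin (m + 1) → ℤ) (hgap : ∀ l l', l ≠ l' → g ≤ |((k l - k l' : ℤ) : ℝ)|)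
    (hvol : ∀ l, volume (SL (Φ (k l)) ((m + 2) * K)) ≤ ENNReal.ofReal θ)
    {ι : Type} (J : Finset ι) (x : ι → Fin m → ℝ)
    (hcell : ∀ X ∈ J, ∀ Y ∈ J, (∀ i, ⌊x X i / δ⌋ = ⌊x Y i / δ⌋) → X = Y)
    (hin : ∀ X ∈ J, ∀ y ∈ Ce δ (x X), ∃ a : Fin m → ℝ, ∀ l, a + ((k l : ℝ) * δ) • y ∈ SL (Φ (k l)) K) :
    (J.card : ℝ) * δ ^ m ≤ (m + 1) * (CW m r d : ℕ) * (1 / (g * δ)) ^ m * θ := by
  set C0 : ℕ := CW m r d with hC0
  have htinj : Function.Injective (fun l => (k l : ℝ) * δ) := by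
    intro l l' h
    by_contra hne
    have h1 := hgap l l' hne
    have h2 : (k l : ℝ) = (k l' : ℝ) := mul_right_cancel₀ hδ.ne' h
    push_cast at h1
    rw [h2, sub_self, abs_zero] at h1
    linarith
  have hev : ∀ (l : Fin (m + 1)) (c : ℝ), SL (C K⁻¹ * Φ (k l)) c = SL (Φ (k l)) (c * K) := by
    intro l c
    ext P
    constructor
    · rintro ⟨p, hp⟩
      rw [map_mul, eval_C, inv_mul_le_iff₀ hK, mul_comm K] at hp
      exact ⟨p, hp⟩
    · rintro ⟨p, hp⟩
      refine ⟨p, ?_⟩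
      rw [map_mul, eval_C, inv_mul_le_iff₀ hK, mul_comm K]
      exact hp
  have hW := wolffR m r d hd (fun l => (k l : ℝ) * δ) htinj (fun l => C K⁻¹ * Φ (k l)) (by
      intro l
      refine (totalDegree_mul _ _).trans ?_
      rw [totalDegree_C, zero_add]
      exact hΦ _) (by
      intro l P
      rw [map_mul, eval_C]
      exact mul_nonneg (inv_nonneg.2 hK.le) (h0 _ _))
  simp only [hev, one_mul] at hW
  have hwgt : ∀ l, PWE.wgt (fun l => (k l : ℝ) * δ) l ≤ (1 / (g * δ)) ^ m := by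
    intro l
    unfold PWE.wgt
    rw [Finset.abs_prod, ← Finset.prod_inv_distrib]
    have h1 : (Finset.univ.erase l : Finset (Fin (m + 1))).card = m := by
      rw [Finset.card_erase_of_mem (Finset.mem_univ l), Finset.card_univ, Fintype.card_fin]
      rfl
    calc _ ≤ ∏ _j ∈ Finset.univ.erase l, (1 / (g * δ)) := by
          refine Finset.prod_le_prod (fun j _ => inv_nonneg.2 (abs_nonneg _)) fun j hj => ?_
          have h2 := hgap l j (Finset.ne_of_mem_erase hj).symm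
          have h3 : g * δ ≤ |(k l : ℝ) * δ - (k j : ℝ) * δ| := by
            rw [← sub_mul, abs_mul, abs_of_pos hδ]
            push_cast at h2
            exact mul_le_mul_of_nonneg_right h2 hδ.le
          rw [one_div]
          exact inv_anti₀ (by positivity) h3
      _ = (1 / (g * δ)) ^ m := by rw [Finset.prod_const, h1]
  have h1 : (J.card : ℝ≥0∞) * ENNReal.ofReal (δ ^ m) ≤
      volume {y : Fin m → ℝ | ∃ a : Fin m → ℝ, ∀ l, a + ((k l : ℝ) * δ) • y ∈ SL (Φ (k l)) K} := by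
    have h2 : (J.card : ℝ≥0∞) * ENNReal.ofReal (δ ^ m) = ∑ X ∈ J, volume (Ce δ (x X)) := by
      simp_rw [Ce_vol δ hδ]
      rw [Finset.sum_const, nsmul_eq_mul]
    rw [h2, ← measure_biUnion_finset]
    · refine measure_mono ?_
      intro y hy
      rw [mem_iUnion₂] at hy
      obtain ⟨X, hX, hy⟩ := hy
      exact hin X hX y hy
    · intro X hX Y hY hXY
      rw [Function.onFun, Set.disjoint_left]
      intro y hyX hyY
      exact hXY (hcell X hX Y hY fun i => (hyX i).symm.trans (hyY i))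
    · intro X _
      exact Ce_meas δ hδ _
  have h3 : ∑ l : Fin (m + 1), ENNReal.ofReal (PWE.wgt (fun l => (k l : ℝ) * δ) l) *
      ((C0 : ℝ≥0∞) * volume (SL (Φ (k l)) ((m + 2) * K))) ≤
      ENNReal.ofReal ((m + 1) * ((1 / (g * δ)) ^ m * (C0 * θ))) := by
    calc _ ≤ ∑ l : Fin (m + 1), ENNReal.ofReal ((1 / (g * δ)) ^ m * (C0 * θ)) := by
          refine Finset.sum_le_sum fun l _ => ?_
          rw [ENNReal.ofReal_mul (by positivity), ENNReal.ofReal_mul (by positivity),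
            ENNReal.ofReal_natCast]
          exact mul_le_mul' (ENNReal.ofReal_le_ofReal (hwgt l)) (mul_le_mul' le_rfl (hvol l))
      _ = ENNReal.ofReal ((m + 1) * ((1 / (g * δ)) ^ m * (C0 * θ))) := by
          rw [Finset.sum_const, Finset.card_univ, Fintype.card_fin, nsmul_eq_mul,
            ← ENNReal.ofReal_natCast, ← ENNReal.ofReal_mul (Nat.cast_nonneg _)]
          congr 1
          push_cast
          rfl
  have h4 : (J.card : ℝ≥0∞) * ENNReal.ofReal (δ ^ m) = ENNReal.ofReal ((J.card : ℝ) * δ ^ m) := by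
    rw [ENNReal.ofReal_mul (Nat.cast_nonneg _), ENNReal.ofReal_natCast]
  rw [h4] at h1
  have h5 := h1.trans (hW.trans h3)
  have h6 := (ENNReal.ofReal_le_ofReal_iff (by positivity)).1 h5
  refine h6.trans (le_of_eq ?_)
  ring

open Classical in
/-- the counting theorem, volume form -/
theorem countV (m r d : ℕ) (hd : 1 ≤ d) : ∃ C : ℝ, 0 < C ∧ ∀ R : ℝ, 1 ≤ R →
    ∀ (Φ : ℤ → MvPolynomial (Fin m ⊕ Fin r) ℝ), (∀ k, (Φ k).totalDegree ≤ d + 1) → (∀ k z, 0 ≤ eval z (Φ k)) →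
    ∀ (δ K lam θ : ℝ), 0 < δ → δ ≤ 1 → 0 < K → 0 < lam → δ ^ m ≤ θ →
    ∀ {ι : Type} (I : Finset ι) (a x : ι → Fin m → ℝ) (T : ι → Finset ℤ),
    (∀ X ∈ I, ∀ i, |x X i| ≤ R) →
    (∀ X ∈ I, ∀ Y ∈ I, (∀ i, ⌊x X i / δ⌋ = ⌊x Y i / δ⌋) → X = Y) →
    (∀ X ∈ I, lam ≤ ((T X).card : ℝ)) →
    (∀ X ∈ I, ∀ k ∈ T X, |(k : ℝ) * δ| ≤ R) →
    (∀ X ∈ I, ∀ k ∈ T X, volume (SL (Φ k) ((m + 2) * K)) ≤ ENNReal.ofReal θ) →
    (∀ X ∈ I, ∀ k ∈ T X, ∀ y ∈ Ce δ (x X), a X + ((k : ℝ) * δ) • y ∈ SL (Φ k) K) →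
    (I.card : ℝ) * δ ^ m ≤ C * R ^ (m + 1) * (1 / (lam * δ)) ^ (2 * m + 1) * θ := by
  set C1 : ℝ := (m + 1) * (CW m r d : ℕ) with hC1
  have hC10 : 0 ≤ C1 := by positivity
  set c0 : ℝ := 6 * ((m : ℝ) + 1) ^ 2 with hc0
  have hc00 : 0 < c0 := by positivity
  refine ⟨5 ^ m * c0 ^ (2 * m + 1) + 2 * 3 ^ (m + 1) * C1 * c0 ^ m, by positivity, ?_⟩
  intro R hR Φ hΦ h0 δ K lam θ hδ hδ1 hK hlam hθ ι I a x T hxR hcell hT hTR hvol hin
  have hθ0 : 0 < θ := lt_of_lt_of_le (by positivity) hθ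
  have hld : 0 < lam * δ := mul_pos hlam hδ
  have hRp : 0 < R ^ (m + 1) := by positivity
  have hsplit : (5 ^ m * c0 ^ (2 * m + 1) + 2 * 3 ^ (m + 1) * C1 * c0 ^ m) * R ^ (m + 1) *
      (1 / (lam * δ)) ^ (2 * m + 1) * θ = 5 ^ m * c0 ^ (2 * m + 1) * R ^ (m + 1) *
      (1 / (lam * δ)) ^ (2 * m + 1) * θ + 2 * 3 ^ (m + 1) * C1 * c0 ^ m * R ^ (m + 1) *
      (1 / (lam * δ)) ^ (2 * m + 1) * θ := by ring
  rw [hsplit]
  by_cases hcase : lam < c0
  · -- few times: trivial bound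
    have h1 := trivial_count R δ hR hδ hδ1 I x (fun X hX i => hxR X hX i) hcell
    have h2 : (I.card : ℝ) * δ ^ m ≤ (5 * R) ^ m := by
      calc (I.card : ℝ) * δ ^ m ≤ (5 * R / δ) ^ m * δ ^ m := mul_le_mul_of_nonneg_right h1 (by positivity)
        _ = (5 * R) ^ m := by
            rw [← mul_pow, div_mul_cancel₀ _ hδ.ne']
    have h3 : (1 / c0) ^ (2 * m + 1) ≤ (1 / (lam * δ)) ^ (2 * m + 1) * θ := by
      have e1 : 1 / (c0 * δ) ≤ 1 / (lam * δ) := by
        apply one_div_le_one_div_of_le hld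
        exact mul_le_mul_of_nonneg_right hcase.le hδ.le
      have e2 : (1 / (c0 * δ)) ^ (2 * m + 1) ≤ (1 / (lam * δ)) ^ (2 * m + 1) :=
        pow_le_pow_left₀ (by positivity) e1 _
      have e3 : (1 / c0) ^ (2 * m + 1) ≤ (1 / (c0 * δ)) ^ (2 * m + 1) * δ ^ m := by
        have e4 : (1 / (c0 * δ)) ^ (2 * m + 1) * δ ^ m = (1 / c0) ^ (2 * m + 1) * (1 / δ) ^ (m + 1) := by
          have e5 : (1 / (c0 * δ)) ^ (2 * m + 1) = (1 / c0) ^ (2 * m + 1) * (1 / δ) ^ (2 * m + 1) := by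
            rw [← mul_pow]
            congr 1
            field_simp
          have e6 : (1 / δ) ^ (2 * m + 1) = (1 / δ) ^ (m + 1) * (1 / δ) ^ m := by
            rw [← pow_add]
            congr 1
            ring
          have e7 : (1 / δ) ^ m * δ ^ m = 1 := by
            rw [← mul_pow, one_div_mul_cancel hδ.ne', one_pow]
          rw [e5, e6, mul_assoc, mul_assoc, e7, mul_one]
        rw [e4]
        have e7 : 1 ≤ (1 / δ) ^ (m + 1) := one_le_pow₀ (by
          rw [le_div_iff₀ hδ]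
          linarith)
        have e8 : 0 ≤ (1 / c0) ^ (2 * m + 1) := by positivity
        calc (1 / c0) ^ (2 * m + 1) = (1 / c0) ^ (2 * m + 1) * 1 := (mul_one _).symm
          _ ≤ _ := mul_le_mul_of_nonneg_left e7 e8
      refine e3.trans ?_
      exact mul_le_mul e2 hθ (by positivity) (by positivity)
    have h4 : (5 * R) ^ m ≤ 5 ^ m * c0 ^ (2 * m + 1) * R ^ (m + 1) * (1 / (lam * δ)) ^ (2 * m + 1) * θ := by
      have e1 : 1 ≤ c0 ^ (2 * m + 1) * ((1 / (lam * δ)) ^ (2 * m + 1) * θ) := by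
        calc (1 : ℝ) = c0 ^ (2 * m + 1) * (1 / c0) ^ (2 * m + 1) := by
              rw [← mul_pow, mul_one_div_cancel hc00.ne', one_pow]
          _ ≤ _ := mul_le_mul_of_nonneg_left h3 (by positivity)
      have e2 : R ^ m ≤ R ^ (m + 1) := pow_le_pow_right₀ hR (by omega)
      calc (5 * R) ^ m = 5 ^ m * R ^ m * 1 := by rw [mul_pow, mul_one]
        _ ≤ 5 ^ m * R ^ (m + 1) * (c0 ^ (2 * m + 1) * ((1 / (lam * δ)) ^ (2 * m + 1) * θ)) := by
            apply mul_le_mul _ e1 zero_le_one (by positivity)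
            exact mul_le_mul_of_nonneg_left e2 (by positivity)
        _ = _ := by ring
    have h5 : 0 ≤ 2 * 3 ^ (m + 1) * C1 * c0 ^ m * R ^ (m + 1) * (1 / (lam * δ)) ^ (2 * m + 1) * θ := by
      positivity
    linarith
  · push Not at hcase
    set g : ℝ := lam / c0 with hg
    have hg1 : 1 ≤ g := by
      rw [hg, le_div_iff₀ hc00]
      linarith
    -- the tuples of a line
    let G : ι → Finset (Fin (m + 1) → ℤ) := fun X =>
      (Fintype.piFinset (fun _ : Fin (m + 1) => T X)).filter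
        (fun k => ∀ l l', l ≠ l' → g ≤ |((k l - k l' : ℤ) : ℝ)|)
    have hG : ∀ X ∈ I, (1 / 2) * lam ^ (m + 1) ≤ ((G X).card : ℝ) := by
      intro X hX
      have e1 := hT X hX
      have e2 := gapcount m (T X) g hg1 (by
        have e3 : 6 * ((m : ℝ) + 1) ^ 2 * g = lam := by
          rw [hg, ← hc0]
          field_simp
        rw [e3]
        exact e1)
      refine le_trans ?_ e2
      apply mul_le_mul_of_nonneg_left _ (by norm_num)
      exact pow_le_pow_left₀ (by positivity) e1 _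
    -- all tuples
    let TT : Finset (Fin (m + 1) → ℤ) := (Fintype.piFinset (fun _ : Fin (m + 1) =>
      Finset.Icc (-⌊R / δ⌋) ⌊R / δ⌋)).filter
        (fun k => (∀ l l', l ≠ l' → g ≤ |((k l - k l' : ℤ) : ℝ)|) ∧
          ∀ l, volume (SL (Φ (k l)) ((m + 2) * K)) ≤ ENNReal.ofReal θ)
    have hTT : (TT.card : ℝ) ≤ (3 * R / δ) ^ (m + 1) := by
      have e1 : TT.card ≤ (Fintype.piFinset (fun _ : Fin (m + 1) =>
        Finset.Icc (-⌊R / δ⌋) ⌊R / δ⌋)).card := Finset.card_filter_le _ _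
      rw [Fintype.card_piFinset, Finset.prod_const, Finset.card_univ, Fintype.card_fin,
        Int.card_Icc] at e1
      have hRδ : 1 ≤ R / δ := by
        rw [le_div_iff₀ hδ]
        linarith
      have e0 : 0 ≤ ⌊R / δ⌋ := Int.floor_nonneg.2 (by linarith)
      have e2 : (((⌊R / δ⌋ + 1 - -⌊R / δ⌋).toNat : ℕ) : ℝ) ≤ 3 * R / δ := by
        rw [← Int.cast_natCast, Int.toNat_of_nonneg (by omega)]
        push_cast
        have e3 : (⌊R / δ⌋ : ℝ) ≤ R / δ := Int.floor_le _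
        have e4 : 3 * R / δ = 3 * (R / δ) := by ring
        rw [e4]
        linarith
      calc (TT.card : ℝ) ≤ (((⌊R / δ⌋ + 1 - -⌊R / δ⌋).toNat ^ (m + 1) : ℕ) : ℝ) := by exact_mod_cast e1
        _ = (((⌊R / δ⌋ + 1 - -⌊R / δ⌋).toNat : ℕ) : ℝ) ^ (m + 1) := by push_cast; rfl
        _ ≤ _ := pow_le_pow_left₀ (Nat.cast_nonneg _) e2 _
    have hGT : ∀ X ∈ I, G X ⊆ TT := by
      intro X hX k hk
      rw [Finset.mem_filter, Fintype.mem_piFinset] at hk
      rw [Finset.mem_filter, Fintype.mem_piFinset]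
      refine ⟨fun l => ?_, hk.2, fun l => hvol X hX _ (hk.1 l)⟩
      have e1 := hTR X hX _ (hk.1 l)
      rw [abs_mul, abs_of_pos hδ, ← le_div_iff₀ hδ] at e1
      have e2 := abs_le.1 e1
      rw [Finset.mem_Icc]
      constructor
      · have e3 : ((-(k l) : ℤ) : ℝ) ≤ R / δ := by push_cast; linarith
        have e4 := Int.le_floor.2 e3
        omega
      · exact Int.le_floor.2 e2.2
    -- one tuple
    have hone : ∀ k ∈ TT, ((I.filter (fun X => k ∈ G X)).card : ℝ) * δ ^ m ≤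
        C1 * (1 / (g * δ)) ^ m * θ := by
      intro k hk
      rw [Finset.mem_filter] at hk
      refine tupV m r d hd Φ hΦ h0 δ g θ K hδ (by linarith) hθ0.le hK k hk.2.1 hk.2.2 _ x ?_ ?_
      · intro X hX Y hY h
        exact hcell X (Finset.mem_filter.1 hX).1 Y (Finset.mem_filter.1 hY).1 h
      · intro X hX y hy
        obtain ⟨hXI, hXG⟩ := Finset.mem_filter.1 hX
        rw [Finset.mem_filter, Fintype.mem_piFinset] at hXG
        exact ⟨a X, fun l => hin X hXI _ (hXG.1 l) y hy⟩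
    -- double counting
    have hdc : (I.card : ℝ) * ((1 / 2) * lam ^ (m + 1)) * δ ^ m ≤
        (3 * R / δ) ^ (m + 1) * (C1 * (1 / (g * δ)) ^ m * θ) := by
      have e1 : (I.card : ℝ) * ((1 / 2) * lam ^ (m + 1)) ≤ ∑ X ∈ I, ((G X).card : ℝ) := by
        rw [← nsmul_eq_mul]
        exact Finset.card_nsmul_le_sum _ _ _ hG
      have e2 : ∑ X ∈ I, ((G X).card : ℝ) = ∑ k ∈ TT, ((I.filter (fun X => k ∈ G X)).card : ℝ) := by
        have e3 : ∀ X ∈ I, ((G X).card : ℝ) = ∑ k ∈ TT, if k ∈ G X then (1 : ℝ) else 0 := by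
          intro X hX
          rw [Finset.sum_ite_mem, Finset.inter_eq_right.2 (hGT X hX), Finset.sum_const, nsmul_eq_mul,
            mul_one]
        rw [Finset.sum_congr rfl e3, Finset.sum_comm]
        refine Finset.sum_congr rfl fun k _ => ?_
        rw [Finset.sum_ite, Finset.sum_const_zero, add_zero, Finset.sum_const, nsmul_eq_mul, mul_one]
      rw [e2] at e1
      calc (I.card : ℝ) * ((1 / 2) * lam ^ (m + 1)) * δ ^ m ≤
            (∑ k ∈ TT, ((I.filter (fun X => k ∈ G X)).card : ℝ)) * δ ^ m :=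
            mul_le_mul_of_nonneg_right e1 (by positivity)
        _ = ∑ k ∈ TT, ((I.filter (fun X => k ∈ G X)).card : ℝ) * δ ^ m := Finset.sum_mul _ _ _
        _ ≤ ∑ _k ∈ TT, C1 * (1 / (g * δ)) ^ m * θ := Finset.sum_le_sum hone
        _ = (TT.card : ℝ) * (C1 * (1 / (g * δ)) ^ m * θ) := by rw [Finset.sum_const, nsmul_eq_mul]
        _ ≤ _ := mul_le_mul_of_nonneg_right hTT (by positivity)
    have hfin : (I.card : ℝ) * δ ^ m ≤ 2 * 3 ^ (m + 1) * C1 * c0 ^ m * R ^ (m + 1) *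
        (1 / (lam * δ)) ^ (2 * m + 1) * θ := by
      have e0 : 0 < (1 / 2) * lam ^ (m + 1) := by positivity
      have e1 : (I.card : ℝ) * δ ^ m ≤ (3 * R / δ) ^ (m + 1) * (C1 * (1 / (g * δ)) ^ m * θ) /
          ((1 / 2) * lam ^ (m + 1)) := by
        rw [le_div_iff₀ e0]
        calc (I.card : ℝ) * δ ^ m * ((1 / 2) * lam ^ (m + 1)) =
            (I.card : ℝ) * ((1 / 2) * lam ^ (m + 1)) * δ ^ m := by ring
          _ ≤ _ := hdc
      refine e1.trans (le_of_eq ?_)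
      have e2 : 1 / (g * δ) = c0 * (1 / (lam * δ)) := by
        rw [hg]
        field_simp
      have e3 : (3 * R / δ) ^ (m + 1) / lam ^ (m + 1) = (3 * R) ^ (m + 1) * (1 / (lam * δ)) ^ (m + 1) := by
        rw [← div_pow, ← mul_pow]
        congr 1
        field_simp
      have e4 : (1 / (lam * δ)) ^ (2 * m + 1) = (1 / (lam * δ)) ^ (m + 1) * (1 / (lam * δ)) ^ m := by
        rw [← pow_add]
        congr 1
        ring
      have e5 : (3 * R / δ) ^ (m + 1) * (C1 * (1 / (g * δ)) ^ m * θ) / ((1 / 2) * lam ^ (m + 1)) =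
          2 * ((3 * R / δ) ^ (m + 1) / lam ^ (m + 1)) * (C1 * (1 / (g * δ)) ^ m * θ) := by
        field_simp
      rw [e5, e3, e2, e4, mul_pow c0, mul_pow 3 R]
      ring
    have h5 : 0 ≤ 5 ^ m * c0 ^ (2 * m + 1) * R ^ (m + 1) * (1 / (lam * δ)) ^ (2 * m + 1) * θ := by
      positivity
    linarith

end Pool.Agent.Helper59.EV
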