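import Pool.Agent.Helper42.NS.Tow
import Pool.Agent.Helper42.NS.Fnl

/-! Every system has an event of positive probability on which finitely many functionals are almost constant
(energy increment), and a further functional does not drop. -/

set_option autoImplicit false

namespace Pool.Agent.Helper59.EV

open Finset Filter Topology Pool.Agent.Helper69.RK
open Pool.Agent.Helper31.EC Pool.Agent.Helper31.EC.Sp Pool.Agent.Helper40.EL Pool.Agent.Helper42.NS

noncomputable section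

/-- functionals of systems which are at most the average of their values on an event and on its complement -/
structure Sfn (m : ℕ) where
  f : ∀ S : Sp, Sys S m → ℝ
  spl : ∀ (S : Sp) (s : Sys S m) (T : Sp) (p : Pj T S) (E : ∀ k, (T.F k).Ω → Prop) (hE : 0 < ul (T.pr E))
    (hE' : 0 < ul (T.pr fun k ω => ¬ E k ω)),
    f S s ≤ ul (T.pr E) * f _ (s.im p E hE) + (1 - ul (T.pr E)) * f _ (s.im p (fun k ω => ¬ E k ω) hE')
  typ : ∀ (S : Sp) (s : Sys S m) (T : Sp) (p : Pj T S) (E : ∀ k, (T.F k).Ω → Prop) (hE : 0 < ul (T.pr E)),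
    Typ E → f S s ≤ f _ (s.im p E hE)
  fin : ∀ (S T : Sp) (s : Sys S m) (u : Sys T m), (∀ k, u.fin k = s.fin k) → f T u = f S s

/-- the functionals of helper42 -/
def sfn {m : ℕ} (Φ : Fnl m) : Sfn m := ⟨Φ.f, Φ.spl, Φ.typ, fun _ _ _ _ h => Φ.eq_of_fin h⟩

/-- the arithmetic of one split -/
theorem split_arith {r a b F d : ℝ} (hr1 : r ≤ 1) (hF : 0 ≤ F) (hFa : F ≤ r * a + (1 - r) * b)
    (hd : r * a ^ 2 + (1 - r) * b ^ 2 - F ^ 2 ≤ d) : r * (a - F) ^ 2 ≤ d := by
  have h1 : 0 ≤ (1 - r) * (b - F) ^ 2 := mul_nonneg (by linarith) (sq_nonneg _)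
  have h2 := mul_le_mul_of_nonneg_left hFa hF
  nlinarith

theorem sq_avg {r a b F : ℝ} (hr0 : 0 ≤ r) (hr1 : r ≤ 1) (hF : 0 ≤ F) (hFa : F ≤ r * a + (1 - r) * b) :
    0 ≤ r * a ^ 2 + (1 - r) * b ^ 2 - F ^ 2 := by
  have h1 : F ^ 2 ≤ (r * a + (1 - r) * b) ^ 2 := pow_le_pow_left₀ hF hFa 2
  have h2 : 0 ≤ r * (1 - r) * (a - b) ^ 2 := mul_nonneg (mul_nonneg hr0 (by linarith)) (sq_nonneg _)
  nlinarith

/-- EPS-ROBUSTNESS: for every system, finitely many functionals and every `e, p0 > 0` there is an event of positive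
probability of an extension on which the functionals vary by at most `e` on all events of probability at least `p0`
of all extensions, and on which the functional `Ψ` has dropped by at most `e`. -/
theorem exists_eps {m : ℕ} {ι : Type} [Fintype ι] (Φ : ι → Sfn m) (Ψ : Sfn m) (M : ℝ)
    (h0 : ∀ i S s, 0 ≤ (Φ i).f S s) (hM : ∀ i S s, (Φ i).f S s ≤ M) (hΨ : ∀ S s, Ψ.f S s ≤ M)
    {S : Sp} (s : Sys S m) {e p0 : ℝ} (he : 0 < e) (hp0 : 0 < p0) :
    ∃ (T : Sp) (q : Pj T S) (E : ∀ k, (T.F k).Ω → Prop) (hE : 0 < ul (T.pr E)),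
      Ψ.f S s - e ≤ Ψ.f _ (s.im q E hE) ∧
      ∀ (T' : Sp) (q' : Pj T' (Sp.im q E)) (E' : ∀ k, (T'.F k).Ω → Prop) (hE' : 0 < ul (T'.pr E')),
        p0 ≤ ul (T'.pr E') → ∀ i, |(Φ i).f _ ((s.im q E hE).im q' E' hE') - (Φ i).f _ (s.im q E hE)| ≤ e := by
  classical
  set N : ℝ := (Fintype.card ι : ℝ) * M ^ 2 with hN
  have hN0 : 0 ≤ N := by positivity
  set c : ℝ := (N + 1) / e with hc
  have hc0 : 0 < c := by positivity
  set U : ∀ T : Sp, Sys T m → ℝ := fun T u => ∑ i, ((Φ i).f T u) ^ 2 + c * Ψ.f T u with hU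
  have hsq : ∀ T (u : Sys T m), ∑ i, ((Φ i).f T u) ^ 2 ≤ N := by
    intro T u
    calc ∑ i, ((Φ i).f T u) ^ 2 ≤ ∑ _i : ι, M ^ 2 :=
          Finset.sum_le_sum fun i _ => pow_le_pow_left₀ (h0 i T u) (hM i T u) 2
      _ = N := by rw [Finset.sum_const, Finset.card_univ, nsmul_eq_mul]
  have hUM : ∀ T (u : Sys T m), U T u ≤ N + c * M := fun T u => by
    have h1 := hsq T u
    have h2 := mul_le_mul_of_nonneg_left (hΨ T u) hc0.le
    rw [hU]
    beta_reduce
    linarith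
  have hUf : ∀ (T T' : Sp) (u : Sys T m) (u' : Sys T' m), (∀ k, u'.fin k = u.fin k) → U T' u' = U T u := by
    intro T T' u u' h
    rw [hU]
    beta_reduce
    rw [Ψ.fin T T' u u' h]
    congr 1
    exact Finset.sum_congr rfl fun i _ => by rw [(Φ i).fin T T' u u' h]
  set V : Set ℝ := {r | ∃ (T : Sp) (q : Pj T S) (E : ∀ k, (T.F k).Ω → Prop) (hE : 0 < ul (T.pr E)),
    r = U _ (s.im q E hE)} with hV
  have hVb : BddAbove V := by
    refine ⟨N + c * M, ?_⟩
    rintro r ⟨T, q, E, hE, rfl⟩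
    exact hUM _ _
  -- the trivial event
  have hT1 : Typ (S := S) (fun _ _ => True) := Typ_true
  have hpr1 : ul (S.pr fun _ _ => True) = 1 := ul_eq ((Typ_iff _).mp hT1)
  have hE1 : 0 < ul (S.pr fun _ _ => True) := by rw [hpr1]; exact one_pos
  set s1 := s.im (Pj.id S) (fun _ _ => True) hE1 with hs1
  have hs1V : U _ s1 ∈ V := ⟨S, Pj.id S, fun _ _ => True, hE1, rfl⟩
  have hUs : U S s ≤ U _ s1 := by
    rw [hU]
    beta_reduce
    have h1 := Ψ.typ S s S (Pj.id S) (fun _ _ => True) hE1 hT1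
    have h2 : ∀ i, ((Φ i).f S s) ^ 2 ≤ ((Φ i).f _ s1) ^ 2 := fun i =>
      pow_le_pow_left₀ (h0 i S s) ((Φ i).typ S s S (Pj.id S) (fun _ _ => True) hE1 hT1) 2
    have h3 := mul_le_mul_of_nonneg_left h1 hc0.le
    have h4 := Finset.sum_le_sum (s := Finset.univ) fun i (_ : i ∈ Finset.univ) => h2 i
    linarith
  set d : ℝ := p0 * e ^ 2 with hd
  have hd0 : 0 < d := by positivity
  obtain ⟨T, q, E, hE, h1, h2⟩ : ∃ (T : Sp) (q : Pj T S) (E : ∀ k, (T.F k).Ω → Prop) (hE : 0 < ul (T.pr E)),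
      sSup V - d < U _ (s.im q E hE) ∧ U S s ≤ U _ (s.im q E hE) := by
    by_cases hcase : sSup V - d < U _ s1
    · exact ⟨S, Pj.id S, fun _ _ => True, hE1, hcase, hUs⟩
    · obtain ⟨r, ⟨T, q, E, hE, rfl⟩, hr⟩ := exists_lt_of_lt_csSup ⟨_, hs1V⟩ (show sSup V - d < sSup V by linarith)
      exact ⟨T, q, E, hE, hr, by linarith⟩
  refine ⟨T, q, E, hE, ?_, ?_⟩
  · have h3 := hsq _ (s.im q E hE)
    have h4 : 0 ≤ ∑ i, ((Φ i).f S s) ^ 2 := Finset.sum_nonneg fun i _ => sq_nonneg _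
    have h5 : c * Ψ.f S s ≤ N + c * Ψ.f _ (s.im q E hE) := by
      have : U S s ≤ U _ (s.im q E hE) := h2
      rw [hU] at this
      beta_reduce at this
      linarith
    have h6 : c * e = N + 1 := by rw [hc]; field_simp
    by_contra hcon
    push Not at hcon
    have h7 := mul_lt_mul_of_pos_left hcon hc0
    linarith
  · intro T' q' E' hE' hp i
    set u := s.im q E hE with hu
    have hmem : ∀ (T' : Sp) (q' : Pj T' (Sp.im q E)) (E' : ∀ k, (T'.F k).Ω → Prop) (hE' : 0 < ul (T'.pr E')),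
        U _ (u.im q' E' hE') ≤ sSup V := by
      intro T' q' E' hE'
      obtain ⟨W, w, D, hD, _, h3⟩ := exists_tow s q E hE q' E' hE'
      have h4 : U _ (u.im q' E' hE') = U _ (s.im w D hD) := (hUf _ _ _ _ h3).symm
      rw [h4]
      exact le_csSup hVb ⟨W, w, D, hD, rfl⟩
    have hr1 : ul (T'.pr E') ≤ 1 := ul_pr_le_one E'
    have key : ∃ b : ℝ, (Φ i).f _ u ≤ ul (T'.pr E') * (Φ i).f _ (u.im q' E' hE') + (1 - ul (T'.pr E')) * b ∧
        ul (T'.pr E') * (Φ i).f _ (u.im q' E' hE') ^ 2 + (1 - ul (T'.pr E')) * b ^ 2 - (Φ i).f _ u ^ 2 ≤ d := by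
      rcases typ_or E' with ht | hE''
      · refine ⟨0, ?_, ?_⟩
        · have h3 : ul (T'.pr E') = 1 := ul_eq ((Typ_iff _).mp ht)
          rw [h3]
          have := (Φ i).typ _ u T' q' E' hE' ht
          linarith
        · have h3 : ul (T'.pr E') = 1 := ul_eq ((Typ_iff _).mp ht)
          rw [h3]
          have h4 := hmem T' q' E' hE'
          have h5 : U _ (u.im q' E' hE') < U _ u + d := by linarith
          rw [hU] at h5
          beta_reduce at h5
          have h6 := mul_le_mul_of_nonneg_left (Ψ.typ _ u T' q' E' hE' ht) hc0.le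
          have h7 : (∑ i, (((Φ i).f _ (u.im q' E' hE')) ^ 2 - ((Φ i).f _ u) ^ 2)) < d := by
            rw [Finset.sum_sub_distrib]
            linarith
          have h8 : ((Φ i).f _ (u.im q' E' hE')) ^ 2 - ((Φ i).f _ u) ^ 2 ≤
              ∑ i, (((Φ i).f _ (u.im q' E' hE')) ^ 2 - ((Φ i).f _ u) ^ 2) :=
            Finset.single_le_sum (f := fun i => ((Φ i).f _ (u.im q' E' hE')) ^ 2 - ((Φ i).f _ u) ^ 2)
              (fun j _ => sub_nonneg.mpr
                (pow_le_pow_left₀ (h0 j _ u) ((Φ j).typ _ u T' q' E' hE' ht) 2)) (Finset.mem_univ i)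
          linarith
      · refine ⟨(Φ i).f _ (u.im q' (fun k ω => ¬ E' k ω) hE''), (Φ i).spl _ u T' q' E' hE' hE'', ?_⟩
        set r := ul (T'.pr E') with hr
        have h4 := hmem T' q' E' hE'
        have h4' := hmem T' q' (fun k ω => ¬ E' k ω) hE''
        have h5 : r * U _ (u.im q' E' hE') + (1 - r) * U _ (u.im q' (fun k ω => ¬ E' k ω) hE'') < U _ u + d := by
          have a1 := mul_le_mul_of_nonneg_left h4 hE'.le
          have a2 := mul_le_mul_of_nonneg_left h4' (show 0 ≤ 1 - r by linarith)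
          nlinarith
        rw [hU] at h5
        beta_reduce at h5
        have h6 := mul_le_mul_of_nonneg_left (Ψ.spl _ u T' q' E' hE' hE'') hc0.le
        have h7 : (∑ i, (r * (Φ i).f _ (u.im q' E' hE') ^ 2 +
            (1 - r) * (Φ i).f _ (u.im q' (fun k ω => ¬ E' k ω) hE'') ^ 2 - (Φ i).f _ u ^ 2)) < d := by
          rw [Finset.sum_sub_distrib, Finset.sum_add_distrib, ← Finset.mul_sum, ← Finset.mul_sum]
          nlinarith
        have h8 : r * (Φ i).f _ (u.im q' E' hE') ^ 2 +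
            (1 - r) * (Φ i).f _ (u.im q' (fun k ω => ¬ E' k ω) hE'') ^ 2 - (Φ i).f _ u ^ 2 ≤
            ∑ i, (r * (Φ i).f _ (u.im q' E' hE') ^ 2 +
            (1 - r) * (Φ i).f _ (u.im q' (fun k ω => ¬ E' k ω) hE'') ^ 2 - (Φ i).f _ u ^ 2) :=
          Finset.single_le_sum (f := fun i => r * (Φ i).f _ (u.im q' E' hE') ^ 2 +
            (1 - r) * (Φ i).f _ (u.im q' (fun k ω => ¬ E' k ω) hE'') ^ 2 - (Φ i).f _ u ^ 2)
            (fun j _ => sq_avg hE'.le hr1 (h0 j _ u) ((Φ j).spl _ u T' q' E' hE' hE'')) (Finset.mem_univ i)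
        linarith
    obtain ⟨b, k1, k2⟩ := key
    have k3 := split_arith hr1 (h0 i _ u) k1 k2
    have k4 : p0 * ((Φ i).f _ (u.im q' E' hE') - (Φ i).f _ u) ^ 2 ≤ p0 * e ^ 2 :=
      (mul_le_mul_of_nonneg_right hp (sq_nonneg _)).trans k3
    have k5 := le_of_mul_le_mul_left k4 hp0
    exact abs_le_of_sq_le_sq k5 he.le

end

end Pool.Agent.Helper59.EV
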