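import Pool.Agent.Helper59.EV.Cnt
import Pool.Agent.Helper59.EN.Ent

/-! The finite form of the last step, volume version. -/

set_option autoImplicit false

namespace Pool.Agent.Helper59.EV

open Set MvPolynomial MeasureTheory Pool.Agent.Helper69.RK Pool.Agent.Helper59.EN

noncomputable section

theorem CH_cardv {Ω α γ : Type} [Fintype Ω] (μ : Ω → ℝ) (f : Ω → α) (g : Ω → γ) (c : Ω → ℝ)
    (hμ : ∀ ω, 0 ≤ μ ω)
    (h : ∀ ω, μ ω ≠ 0 → ∀ T : Finset α, (∀ a ∈ T, ∃ ω', μ ω' ≠ 0 ∧ g ω' = g ω ∧ f ω' = a) →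
      (T.card : ℝ) ≤ c ω) :
    CH μ f g ≤ ∑ ω, μ ω * Real.logb 2 (c ω) := by
  classical
  exact (st_E3.1) Ω α γ μ f g c hμ (by
    intro ω hω
    apply h ω hω
    intro a ha
    rw [Finset.mem_image] at ha
    obtain ⟨ω', hω', rfl⟩ := ha
    rw [Finset.mem_filter] at hω'
    exact ⟨ω', hω'.2.1, hω'.2.2, rfl⟩)

open Classical in
/-- number of direction cells with a good line -/
theorem fin_countV (m r d : ℕ) (hd : 1 ≤ d) : ∃ C : ℝ, 1 ≤ C ∧ ∀ R : ℝ, 1 ≤ R →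
    ∀ {Ω ζ : Type} [Fintype Ω] (μ : Ω → ℝ) (Z : Ω → ζ) (a x : Ω → Fin m → ℝ) (t : Ω → ℝ)
      (Φ : Ω → ℤ → MvPolynomial (Fin m ⊕ Fin r) ℝ) (E : Ω → Prop) (δ K lam : ℝ) (θ : Ω → ℝ),
    0 < δ → δ ≤ 1 → 0 < K → 0 < lam →
    (∀ ω, μ ω ≠ 0 → (∀ i, |x ω i| ≤ R) ∧ |t ω| ≤ R - 1) →
    (∀ ω, μ ω ≠ 0 → E ω → ∀ k, (Φ ω k).totalDegree ≤ d + 1 ∧ ∀ z, 0 ≤ eval z (Φ ω k)) →
    (∀ ω ω', μ ω ≠ 0 → μ ω' ≠ 0 → E ω → E ω' → Z ω = Z ω' → Φ ω = Φ ω' ∧ θ ω = θ ω') →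
    (∀ ω, μ ω ≠ 0 → E ω → δ ^ m ≤ θ ω) →
    (∀ ω, μ ω ≠ 0 → E ω → volume (SL (Φ ω ⌊t ω / δ⌋) ((m + 2) * K)) ≤ ENNReal.ofReal (θ ω)) →
    (∀ ω, μ ω ≠ 0 → E ω → ∀ y : Fin m → ℝ, (∀ i, |y i - (a ω i + t ω * x ω i)| ≤ (2 * R + 1) * δ) →
      y ∈ SL (Φ ω ⌊t ω / δ⌋) K) →
    ∀ (ω₀ : Ω), μ ω₀ ≠ 0 → E ω₀ → ∀ (T : Finset (Fin m → ℤ)), (∀ X ∈ T, ∃ ω', μ ω' ≠ 0 ∧ E ω' ∧
      lam ≤ (nv μ Z a x t E δ ω' : ℝ) ∧ Z ω' = Z ω₀ ∧ (fun i => ⌊x ω' i / δ⌋) = X) →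
    (T.card : ℝ) * δ ^ m ≤ C * R ^ (m + 1) * (1 / (lam * δ)) ^ (2 * m + 1) * θ ω₀ := by
  obtain ⟨C, hC, hcount⟩ := countV m r d hd
  refine ⟨C + 1, by linarith, ?_⟩
  intro R hR Ω ζ _ μ Z a x t Φ E δ K lam θ hδ hδ1 hK hlam hb hΦ hFZ hθ hvol hreg ω₀ hω₀ hE₀ T hT
  have hθ0 : 0 < θ ω₀ := lt_of_lt_of_le (by positivity) (hθ ω₀ hω₀ hE₀)
  have hld : 0 < lam * δ := mul_pos hlam hδ
  have : Nonempty Ω := ⟨ω₀⟩
  choose! w hw1 hw2 hw3 hw4 hw5 using hT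
  have h1 := hcount R hR (Φ ω₀) (fun k => (hΦ ω₀ hω₀ hE₀ k).1) (fun k z => (hΦ ω₀ hω₀ hE₀ k).2 z)
    δ K lam (θ ω₀) hδ hδ1 hK hlam (hθ ω₀ hω₀ hE₀) T
    (fun X => a (w X)) (fun X => x (w X)) (fun X => (Finset.univ.filter (fun ω' => μ ω' ≠ 0 ∧ E ω' ∧
      (∀ i, ⌊a ω' i / δ⌋ = ⌊a (w X) i / δ⌋) ∧ (∀ i, ⌊x ω' i / δ⌋ = ⌊x (w X) i / δ⌋) ∧
      Z ω' = Z (w X))).image (fun ω' => ⌊t ω' / δ⌋)) ?_ ?_ ?_ ?_ ?_ ?_
  · refine h1.trans ?_
    have e1 : 0 ≤ R ^ (m + 1) * ((1 / (lam * δ)) ^ (2 * m + 1) * θ ω₀) := by positivity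
    have e2 : (C + 1) * R ^ (m + 1) * (1 / (lam * δ)) ^ (2 * m + 1) * θ ω₀ =
        C * R ^ (m + 1) * (1 / (lam * δ)) ^ (2 * m + 1) * θ ω₀ +
        R ^ (m + 1) * ((1 / (lam * δ)) ^ (2 * m + 1) * θ ω₀) := by ring
    rw [e2]
    linarith
  · intro X hX i
    exact (hb (w X) (hw1 X hX)).1 i
  · intro X hX Y hY h
    rw [← hw5 X hX, ← hw5 Y hY]
    funext i
    exact h i
  · intro X hX
    exact hw3 X hX
  · intro X hX k hk
    rw [Finset.mem_image] at hk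
    obtain ⟨ω', hω', rfl⟩ := hk
    rw [Finset.mem_filter] at hω'
    have h1 := (hb ω' hω'.2.1).2
    have h2 := Int.floor_le (t ω' / δ)
    have h3 := Int.lt_floor_add_one (t ω' / δ)
    rw [le_div_iff₀ hδ] at h2
    rw [div_lt_iff₀ hδ] at h3
    have h4 := abs_le.1 h1
    rw [abs_le]
    constructor <;> nlinarith
  · intro X hX k hk
    rw [Finset.mem_image] at hk
    obtain ⟨ω', hω', rfl⟩ := hk
    rw [Finset.mem_filter] at hω'
    obtain ⟨_, hμ', hE', ha', hx', hZ'⟩ := hω'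
    have hFe := hFZ ω' ω₀ hμ' hω₀ hE' hE₀ (hZ'.trans (hw4 X hX))
    have h1 := hvol ω' hμ' hE'
    rw [hFe.1, hFe.2] at h1
    exact h1
  · intro X hX k hk y hy
    rw [Finset.mem_image] at hk
    obtain ⟨ω', hω', rfl⟩ := hk
    rw [Finset.mem_filter] at hω'
    obtain ⟨_, hμ', hE', ha', hx', hZ'⟩ := hω'
    have hFe := hFZ ω' ω₀ hμ' hω₀ hE' hE₀ (hZ'.trans (hw4 X hX))
    have h1 := hreg ω' hμ' hE' (a (w X) + (((⌊t ω' / δ⌋ : ℤ) : ℝ) * δ) • y) (by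
      intro i
      have hbw := hb (w X) (hw1 X hX)
      have hb' := hb ω' hμ'
      have h2 := Int.floor_le (t ω' / δ)
      have h3 := Int.lt_floor_add_one (t ω' / δ)
      rw [le_div_iff₀ hδ] at h2
      rw [div_lt_iff₀ hδ] at h3
      have ht1 : |((⌊t ω' / δ⌋ : ℤ) : ℝ) * δ - t ω'| ≤ δ := by
        rw [abs_le]
        constructor <;> nlinarith
      have htR : |((⌊t ω' / δ⌋ : ℤ) : ℝ) * δ| ≤ R := by
        have e1 := abs_le.1 hb'.2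
        have e2 := abs_le.1 ht1
        rw [abs_le]
        constructor <;> linarith
      have hac : |a ω' i - a (w X) i| ≤ δ :=
        Ce_close δ hδ (a (w X)) (a ω') (fun i => ha' i) i
      have hyx : |y i - x ω' i| ≤ δ :=
        Ce_close δ hδ (x ω') y (fun i => (hy i).trans (hx' i).symm) i
      have e1 : (a (w X) + (((⌊t ω' / δ⌋ : ℤ) : ℝ) * δ) • y) i - (a ω' i + t ω' * x ω' i) =
          -(a ω' i - a (w X) i) + (((⌊t ω' / δ⌋ : ℤ) : ℝ) * δ) * (y i - x ω' i) +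
          (((⌊t ω' / δ⌋ : ℤ) : ℝ) * δ - t ω') * x ω' i := by
        show a (w X) i + (((⌊t ω' / δ⌋ : ℤ) : ℝ) * δ) * y i - (a ω' i + t ω' * x ω' i) = _
        ring
      have e2 : |(((⌊t ω' / δ⌋ : ℤ) : ℝ) * δ) * (y i - x ω' i)| ≤ R * δ := by
        rw [abs_mul]
        exact mul_le_mul htR hyx (abs_nonneg _) (by linarith)
      have e3 : |(((⌊t ω' / δ⌋ : ℤ) : ℝ) * δ - t ω') * x ω' i| ≤ δ * R := by
        rw [abs_mul]
        exact mul_le_mul ht1 (hb'.1 i) (abs_nonneg _) hδ.le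
      rw [e1]
      calc _ ≤ |-(a ω' i - a (w X) i) + (((⌊t ω' / δ⌋ : ℤ) : ℝ) * δ) * (y i - x ω' i)| +
            |(((⌊t ω' / δ⌋ : ℤ) : ℝ) * δ - t ω') * x ω' i| := abs_add_le _ _
        _ ≤ (|-(a ω' i - a (w X) i)| + |(((⌊t ω' / δ⌋ : ℤ) : ℝ) * δ) * (y i - x ω' i)|) +
            |(((⌊t ω' / δ⌋ : ℤ) : ℝ) * δ - t ω') * x ω' i| := add_le_add (abs_add_le _ _) le_rfl
        _ ≤ (δ + R * δ) + δ * R := by
            rw [abs_neg]
            exact add_le_add (add_le_add hac e2) e3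
        _ = (2 * R + 1) * δ := by ring)
    rw [hFe.1] at h1
    exact h1

/-- THE FINITE THEOREM -/
theorem fin_endV (m r d : ℕ) (hd : 1 ≤ d) : ∃ C : ℝ, 1 ≤ C ∧ ∀ R : ℝ, 1 ≤ R →
    ∀ {Ω ζ : Type} [Fintype Ω] (μ : Ω → ℝ) (Z : Ω → ζ) (a x : Ω → Fin m → ℝ) (t : Ω → ℝ)
      (Φ : Ω → ℤ → MvPolynomial (Fin m ⊕ Fin r) ℝ) (E : Ω → Prop) (δ K q : ℝ) (θ : Ω → ℝ),
    (∀ ω, 0 ≤ μ ω) → mass μ = 1 →
    0 < δ → δ ≤ 1 → 0 < K → 0 < q → q ≤ 1 →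
    (∀ ω, μ ω ≠ 0 → (∀ i, |x ω i| ≤ R) ∧ |t ω| ≤ R - 1) →
    (∀ ω, μ ω ≠ 0 → E ω → ∀ k, (Φ ω k).totalDegree ≤ d + 1 ∧ ∀ z, 0 ≤ eval z (Φ ω k)) →
    (∀ ω ω', μ ω ≠ 0 → μ ω' ≠ 0 → E ω → E ω' → Z ω = Z ω' → Φ ω = Φ ω' ∧ θ ω = θ ω') →
    (∀ ω, μ ω ≠ 0 → δ ^ m ≤ θ ω) →
    (∀ ω, μ ω ≠ 0 → E ω → volume (SL (Φ ω ⌊t ω / δ⌋) ((m + 2) * K)) ≤ ENNReal.ofReal (θ ω)) →
    (∀ ω, μ ω ≠ 0 → E ω → ∀ y : Fin m → ℝ, (∀ i, |y i - (a ω i + t ω * x ω i)| ≤ (2 * R + 1) * δ) →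
      y ∈ SL (Φ ω ⌊t ω / δ⌋) K) →
    ∃ p : ℝ, 0 ≤ p ∧
      CH μ (fun ω => ⌊t ω / δ⌋) (fun ω => ((fun i => ⌊a ω i / δ⌋, fun i => ⌊x ω i / δ⌋), Z ω)) +
        p * Real.logb 2 (1 / q) ≤
        mass (res μ (fun ω => ¬ E ω)) * Real.logb 2 (4 * R / δ) + Real.logb 2 (4 * R / δ) + 2 ∧
      CH μ (fun ω i => ⌊x ω i / δ⌋) Z ≤ Real.logb 2 (C * R ^ (m + 1) * (1 / q) ^ (2 * m + 1)) +
        ∑ ω, μ ω * Real.logb 2 (θ ω / δ ^ m) +
        m * Real.logb 2 (4 * R / δ) * (mass (res μ (fun ω => ¬ E ω)) + p) + 1 := by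
  classical
  obtain ⟨C, hC, hcount⟩ := fin_countV m r d hd
  refine ⟨C, hC, ?_⟩
  intro R hR Ω ζ _ μ Z a x t Φ E δ K q θ hμ hmass hδ hδ1 hK hq hq1 hb hΦ hFZ hθ hvol hreg
  set h : ℝ := 4 * R / δ with hh0
  have hh : 1 ≤ h := by
    rw [hh0, le_div_iff₀ hδ]
    linarith
  set Lo : Ω → Prop := fun ω => (nv μ Z a x t E δ ω : ℝ) < q * h with hLo
  set p0 : ℝ := mass (res μ (fun ω => ¬ E ω)) with hp0
  set p1 : ℝ := mass (res μ (fun ω => E ω ∧ Lo ω)) with hp1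
  set p2 : ℝ := mass (res μ (fun ω => E ω ∧ ¬ Lo ω)) with hp2
  have hp00 : 0 ≤ p0 := mass_nn _ (res_nn μ _ hμ)
  have hp10 : 0 ≤ p1 := mass_nn _ (res_nn μ _ hμ)
  have hp20 : 0 ≤ p2 := mass_nn _ (res_nn μ _ hμ)
  have hsum : p0 + p1 + p2 = 1 := by
    have h1 := mass_compl μ E
    have h2 := mass_res_add μ E Lo
    rw [hmass] at h1
    linarith
  have hqh : 0 < q * h := mul_pos hq (by linarith)
  have hlogh : 0 ≤ Real.logb 2 h := Real.logb_nonneg (by norm_num) hh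
  -- the side length of the box of cells
  have hbox : 2 * R / δ + 1 + 1 ≤ h := by
    have h1 : 1 ≤ R / δ := by
      rw [le_div_iff₀ hδ]
      linarith
    have h2 : 2 * R / δ = 2 * (R / δ) := by ring
    have h3 : h = 4 * (R / δ) := by rw [hh0]; ring
    rw [h2, h3]
    linarith
  have hbox0 : 0 < 2 * R / δ + 1 + 1 := by positivity
  have hlogbox : Real.logb 2 (2 * R / δ + 1 + 1) ≤ Real.logb 2 h :=
    Real.logb_le_logb_of_le (by norm_num) hbox0 hbox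
  -- the count
  have hB : ∀ ω, μ ω ≠ 0 → 0 ≤ Real.logb 2 (θ ω / δ ^ m) := by
    intro ω hω
    apply Real.logb_nonneg (by norm_num)
    rw [le_div_iff₀ (by positivity), one_mul]
    exact hθ ω hω
  have hC1 : 1 ≤ C * R ^ (m + 1) * (1 / q) ^ (2 * m + 1) := by
    have e1 : 1 ≤ R ^ (m + 1) := one_le_pow₀ hR
    have e2 : 1 ≤ (1 / q) ^ (2 * m + 1) := one_le_pow₀ (by
      rw [le_div_iff₀ hq]
      linarith)
    have e3 : 1 ≤ C * R ^ (m + 1) := by nlinarith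
    nlinarith
  have hC10 : 0 < C * R ^ (m + 1) * (1 / q) ^ (2 * m + 1) := by linarith
  have hlogC : 0 ≤ Real.logb 2 (C * R ^ (m + 1) * (1 / q) ^ (2 * m + 1)) :=
    Real.logb_nonneg (by norm_num) hC1
  refine ⟨p1, hp10, ?_, ?_⟩
  · -- times
    set G : Ω → ((Fin m → ℤ) × (Fin m → ℤ)) × ζ := fun ω =>
      ((fun i => ⌊a ω i / δ⌋, fun i => ⌊x ω i / δ⌋), Z ω) with hG
    have hboxt : ∀ ν : Ω → ℝ, (∀ ω, 0 ≤ ν ω) → (∀ ω, ν ω ≠ 0 → μ ω ≠ 0) →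
        CH ν (fun ω => ⌊t ω / δ⌋) G ≤ mass ν * Real.logb 2 h := by
      intro ν hν hνμ
      have e1 : CH ν (fun ω => ⌊t ω / δ⌋) G = CH ν (fun ω => fun _ : Fin 1 => ⌊t ω / δ⌋) G := by
        apply e2_CH_congr
        · intro ω ω' _ _
          exact Iff.rfl
        · intro ω ω' _ _
          constructor
          · intro h'
            have h'' := Prod.mk.inj h'
            exact Prod.ext (funext fun _ => h''.1) h''.2
          · intro h'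
            have h'' := Prod.mk.inj h'
            exact Prod.ext (congrFun h''.1 0) h''.2
      rw [e1]
      have e2 := CH_box (m := 1) ν (fun ω => fun _ : Fin 1 => ⌊t ω / δ⌋) G
        (2 * R / δ + 1) hν (by positivity) (by
          intro ω ω' h3 h4 _
          have h5 := (hb ω (hνμ ω h3)).2
          have h6 := (hb ω' (hνμ ω' h4)).2
          exact fl_diff hδ (by linarith) (by linarith))
      refine e2.trans ?_
      rw [Nat.cast_one, one_mul, mul_comm]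
      exact mul_le_mul_of_nonneg_left hlogbox (mass_nn _ hν)
    have h1 := CH_split μ (fun ω => ⌊t ω / δ⌋) G E hμ
    have h2 : CH (res μ (fun ω => ¬ E ω)) (fun ω => ⌊t ω / δ⌋) G ≤ p0 * Real.logb 2 h :=
      hboxt _ (res_nn μ _ hμ) (fun ω hω => (res_ne _ _ _ hω).1)
    have h3 := CH_split (res μ E) (fun ω => ⌊t ω / δ⌋) G Lo (res_nn μ _ hμ)
    rw [res_res, res_res] at h3
    have h4 : CH (res μ (fun ω => E ω ∧ Lo ω)) (fun ω => ⌊t ω / δ⌋) G ≤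
        p1 * Real.logb 2 (q * h) := by
      apply CH_card _ _ _ _ (res_nn μ _ hμ)
      intro ω hω T hTT
      obtain ⟨hω1, hω2, hω3⟩ := res_ne _ _ _ hω
      refine le_trans ?_ (le_of_lt hω3)
      unfold nv
      norm_cast
      apply Finset.card_le_card
      intro k hk
      obtain ⟨ω', hω', hG', rfl⟩ := hTT k hk
      obtain ⟨h5, h6, _⟩ := res_ne _ _ _ hω'
      rw [hG, Prod.mk.injEq, Prod.mk.injEq] at hG'
      rw [Finset.mem_image]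
      exact ⟨ω', Finset.mem_filter.2 ⟨Finset.mem_univ _, h5, h6, fun i => congrFun hG'.1.1 i,
        fun i => congrFun hG'.1.2 i, hG'.2⟩, rfl⟩
    have h5 : CH (res μ (fun ω => E ω ∧ ¬ Lo ω)) (fun ω => ⌊t ω / δ⌋) G ≤
        p2 * Real.logb 2 h :=
      hboxt _ (res_nn μ _ hμ) (fun ω hω => (res_ne _ _ _ hω).1)
    have h6 : mass (res μ E) ≤ 1 := by
      have := mass_compl μ E
      rw [hmass] at this
      linarith
    have h7 : Real.logb 2 (q * h) = Real.logb 2 h - Real.logb 2 (1 / q) := by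
      rw [Real.logb_mul hq.ne' (by linarith), one_div, Real.logb_inv]
      ring
    rw [hmass] at h1
    rw [h7] at h4
    have h8 : p1 * (Real.logb 2 h - Real.logb 2 (1 / q)) + p2 * Real.logb 2 h =
        (p1 + p2) * Real.logb 2 h - p1 * Real.logb 2 (1 / q) := by ring
    have h9 : (p1 + p2) * Real.logb 2 h ≤ 1 * Real.logb 2 h :=
      mul_le_mul_of_nonneg_right (by linarith) hlogh
    linarith
  · -- directions
    have h1 := CH_split μ (fun ω i => ⌊x ω i / δ⌋) Z (fun ω => E ω ∧ ¬ Lo ω) hμ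
    have h2 : CH (res μ (fun ω => ¬ (E ω ∧ ¬ Lo ω))) (fun ω i => ⌊x ω i / δ⌋) Z ≤
        m * Real.logb 2 h * (p0 + p1) := by
      have e2 := CH_box (m := m) (res μ (fun ω => ¬ (E ω ∧ ¬ Lo ω))) (fun ω i => ⌊x ω i / δ⌋) Z
        (2 * R / δ + 1) (res_nn μ _ hμ) (by positivity) (by
          intro ω ω' h3 h4 i
          exact fl_diff hδ ((hb ω (res_ne _ _ _ h3).1).1 i) ((hb ω' (res_ne _ _ _ h4).1).1 i))
      refine e2.trans ?_
      have e3 : mass (res μ (fun ω => ¬ (E ω ∧ ¬ Lo ω))) = p0 + p1 := by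
        have := mass_compl μ (fun ω => E ω ∧ ¬ Lo ω)
        rw [hmass] at this
        linarith
      rw [e3]
      apply mul_le_mul_of_nonneg_right _ (by linarith)
      exact mul_le_mul_of_nonneg_left hlogbox (Nat.cast_nonneg m)
    have h3 : CH (res μ (fun ω => E ω ∧ ¬ Lo ω)) (fun ω i => ⌊x ω i / δ⌋) Z ≤
        ∑ ω, res μ (fun ω => E ω ∧ ¬ Lo ω) ω *
          Real.logb 2 (C * R ^ (m + 1) * (1 / q) ^ (2 * m + 1) * (θ ω / δ ^ m)) := by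
      apply CH_cardv _ _ _ _ (res_nn μ _ hμ)
      intro ω hω T hTT
      obtain ⟨g1, g2, g3⟩ := res_ne _ _ _ hω
      have h4 := hcount R hR μ Z a x t Φ E δ K (q * h) θ hδ hδ1 hK hqh hb hΦ hFZ
        (fun ω hω _ => hθ ω hω) hvol hreg ω g1 g2 T (by
          intro X hX
          obtain ⟨ω', hω', hZ', hX'⟩ := hTT X hX
          obtain ⟨h5, h6, h7⟩ := res_ne _ _ _ hω'
          exact ⟨ω', h5, h6, not_lt.1 h7, hZ', hX'⟩)
      have h5 : 1 / (q * h * δ) ≤ 1 / q := by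
        apply one_div_le_one_div_of_le hq
        have : q * h * δ = q * (4 * R) := by
          rw [hh0]
          field_simp
        rw [this]
        nlinarith
      have h6 : (1 / (q * h * δ)) ^ (2 * m + 1) ≤ (1 / q) ^ (2 * m + 1) :=
        pow_le_pow_left₀ (by positivity) h5 _
      have hθω : 0 < θ ω := lt_of_lt_of_le (by positivity) (hθ ω g1)
      have h7 : (T.card : ℝ) * δ ^ m ≤ C * R ^ (m + 1) * (1 / q) ^ (2 * m + 1) * θ ω := by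
        refine h4.trans ?_
        apply mul_le_mul_of_nonneg_right _ hθω.le
        exact mul_le_mul_of_nonneg_left h6 (by positivity)
      rw [← mul_div_assoc, le_div_iff₀ (by positivity)]
      exact h7
    have h4 : ∑ ω, res μ (fun ω => E ω ∧ ¬ Lo ω) ω *
          Real.logb 2 (C * R ^ (m + 1) * (1 / q) ^ (2 * m + 1) * (θ ω / δ ^ m)) ≤
        ∑ ω, μ ω * (Real.logb 2 (C * R ^ (m + 1) * (1 / q) ^ (2 * m + 1)) +
          Real.logb 2 (θ ω / δ ^ m)) := by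
      refine Finset.sum_le_sum fun ω _ => ?_
      by_cases hω : μ ω = 0
      · have e1 : res μ (fun ω => E ω ∧ ¬ Lo ω) ω = 0 := by
          by_contra hne
          exact (res_ne _ _ _ hne).1 hω
        rw [e1, hω, zero_mul, zero_mul]
      · have hθω : 0 < θ ω / δ ^ m := div_pos (lt_of_lt_of_le (by positivity) (hθ ω hω)) (by positivity)
        rw [Real.logb_mul hC10.ne' hθω.ne']
        apply mul_le_mul_of_nonneg_right _ (add_nonneg hlogC (hB ω hω))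
        unfold res
        split_ifs
        · exact le_rfl
        · exact hμ ω
    have h5 : ∑ ω, μ ω * (Real.logb 2 (C * R ^ (m + 1) * (1 / q) ^ (2 * m + 1)) +
          Real.logb 2 (θ ω / δ ^ m)) = Real.logb 2 (C * R ^ (m + 1) * (1 / q) ^ (2 * m + 1)) +
          ∑ ω, μ ω * Real.logb 2 (θ ω / δ ^ m) := by
      simp_rw [mul_add]
      rw [Finset.sum_add_distrib, ← Finset.sum_mul]
      have : ∑ ω, μ ω = 1 := hmass
      rw [this, one_mul]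
    rw [hmass] at h1
    linarith

end

end Pool.Agent.Helper59.EV
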