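import Pool.Agent.Helper59.EV.Abs
import Pool.Agent.Helper48.NS.Gr
import Pool.Agent.Helper38.NS.Area

/-! END in regular volume: `h(x | V) ≤ m - E log G_A / (2 n)` for a form `A` known to the base. -/

set_option autoImplicit false

namespace Pool.Agent.Helper59.EV

open Finset Filter Topology MvPolynomial MeasureTheory Matrix Pool.Agent.Helper69.RK Pool.Agent.Helper59.EN
open Pool.Agent.Helper31.EC Pool.Agent.Helper31.EC.Sp Pool.Agent.Helper95.LF
open Pool.Agent.Helper3.LF Pool.Agent.Helper48.NS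

noncomputable section

/-- END IN REGULAR VOLUME -/
theorem END_reg {S : Sp} {m D : ℕ} (hD : 1 ≤ D) (a x : S.VV m) (t : S.VV 1) (s : ℝ) (hs : 0 < s)
    (A : ∀ k, (S.F k).Ω → Matrix (Mon (m + 1) D) (Mon (m + 1) D) ℝ)
    (hA : ∀ᶠ k in UF, ∀ ω, (S.F k).μ ω ≠ 0 → (A k ω).IsSymm ∧ ∀ v, v ⬝ᵥ v ≤ v ⬝ᵥ (A k ω *ᵥ v))
    (hZ : ∀ᶠ k in UF, ∀ ω ω', (S.F k).μ ω ≠ 0 → (S.F k).μ ω' ≠ 0 → (S.F k).Z ω ω' → A k ω = A k ω')
    (E : ∀ k, (S.F k).Ω → Prop) (hE : Typ E) (K0 : ℕ → ℝ) (hK0 : S.Sub K0)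
    (σ : ∀ k, (S.F k).Ω → ℝ)
    (hσ : ∀ᶠ k in UF, ∀ ω, (S.F k).μ ω ≠ 0 → 0 ≤ σ k ω ∧ σ k ω ≤ m * s)
    (hφE : ∀ᶠ k in UF, ∀ ω, (S.F k).μ ω ≠ 0 → E k ω →
      phi (S.dl s k) (A k ω) (pl (a.v k ω) (x.v k ω) (t.v k ω 0)) ≤ K0 k)
    (hγE : ∀ᶠ k in UF, ∀ ω, (S.F k).μ ω ≠ 0 → E k ω →
      2 ^ (2 * σ k ω * (S.F k).n) ≤ K0 k * GG (S.dl s k) (A k ω) (pl (a.v k ω) (x.v k ω) (t.v k ω 0)))
    (ht : s ≤ h (t.dg s) (a.dg s ⊔ x.dg s)) :
    H (x.dg s) ≤ m * s - ul (fun k => ∑ ω, (S.F k).μ ω * σ k ω) := by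
  have hPd : ∀ᶠ k in UF, ∀ ω, (S.F k).μ ω ≠ 0 → PdM (A k ω) := by
    filter_upwards [hA] with k hk ω hω
    exact ⟨(hk ω hω).1, fun v hv => (self_pos hv).trans_le ((hk ω hω).2 v)⟩
  refine END_abs (2 * m * D + 2 * D) a x t s hs (fun k ω => phi (S.dl s k) (A k ω))
    (fun k ω => GG (S.dl s k) (A k ω)) ?_ ?_ ?_ ?_ ?_ ?_ ?_ E hE K0 hK0 σ hσ hφE hγE ht
  · filter_upwards [hPd] with k hk ω hω p
    exact phi_nonneg _ (hk ω hω).nonneg p
  · filter_upwards [hPd] with k hk ω hω p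
    have := one_le_GG (S.dl s k) (hk ω hω).1 (hk ω hω).nonneg p
    linarith
  · filter_upwards [hPd] with k hk ω hω τ
    obtain ⟨Q, h1, h2⟩ := phi_poly (S.dl s k) τ (A k ω) (hk ω hω)
    exact ⟨Q, h1.trans (by omega), h2⟩
  · filter_upwards [hPd] with k hk ω hω τ
    obtain ⟨Q, h1, h2⟩ := GG_poly (S.dl s k) τ (A k ω) (hk ω hω)
    exact ⟨Q, h1.trans (by omega), h2⟩
  · intro R hR
    have hR1 : S.Sub (fun k => R k + 1) := hR.add (S.Sub_const zero_le_one)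
    have hCu := Cu_one D
    have hCm := Cm_one (m + 1) D
    have hnn := nn_one (m + 1) D
    have hcJ := cJ_one m D
    refine ⟨fun k => nn (m + 1) D * (Cu D * Cm (m + 1) D) ^ 2 * (R k + 1) ^ (2 * D) +
      cJ m D ^ m * (R k + 1) ^ (2 * D * m), ?_, ?_⟩
    · exact ((S.Sub_const (by positivity)).mul (Sub_powN hR1 _)).add
        ((S.Sub_const (by positivity)).mul (Sub_powN hR1 _))
    · filter_upwards [hPd, hR.1] with k hk hRk ω hω p p' hp
      have hδ := S.dl_pos s k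
      have hK1 : 1 ≤ R k + 1 := by linarith
      have h1 := phi_comp (A k ω) (hk ω hω) (S.dl s k) (S.dl s k) (R k + 1) hδ hδ.le hK1 p p' (by
        intro i
        have := hp i
        linarith)
      have h2 := GG_comp (A k ω) (hk ω hω) (S.dl s k) (S.dl s k) (R k + 1) hδ hδ.le hK1 p' p (by
        intro i
        have := hp i
        rw [abs_sub_comm] at this
        linarith)
      have h3 := phi_nonneg (S.dl s k) (hk ω hω).nonneg p
      have h4 := one_le_GG (S.dl s k) (hk ω hω).1 (hk ω hω).nonneg p'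
      have e1 : nn (m + 1) D * (Cu D * Cm (m + 1) D * (R k + 1) ^ D) ^ 2 =
          nn (m + 1) D * (Cu D * Cm (m + 1) D) ^ 2 * (R k + 1) ^ (2 * D) := by
        rw [mul_pow, ← pow_mul, mul_comm D 2]
        ring
      rw [e1] at h1
      have h5 : 0 ≤ cJ m D ^ m * (R k + 1) ^ (2 * D * m) := by positivity
      have h6 : 0 ≤ nn (m + 1) D * (Cu D * Cm (m + 1) D) ^ 2 * (R k + 1) ^ (2 * D) := by positivity
      constructor
      · refine h1.trans (mul_le_mul_of_nonneg_right ?_ h3)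
        linarith
      · refine h2.trans (mul_le_mul_of_nonneg_right ?_ (by linarith))
        linarith
  · refine ⟨|Pool.Agent.Helper38.NS.areaC (Fintype.card (Fin m ⊕ (Mon (m + 1) D × (Fin (m + 1) → Fin (D + 1))))) m D| + 1,
      by positivity, ?_⟩
    filter_upwards [hA] with k hk ω hω τ ρ g hρ hg
    obtain ⟨f, hf1, hf2, hf3⟩ := exists_fam hD (S.dl s k) τ (A k ω) (hk ω hω).1 (hk ω hω).2
    have h1 := Pool.Agent.Helper38.NS.area D f hf1 ρ g hρ.le hg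
    refine (measure_mono ?_).trans (h1.trans ?_)
    · rintro P ⟨h2, h3⟩
      refine ⟨fun w => (hf2 P w).trans ?_, ?_⟩
      · have h4 := Real.sqrt_le_sqrt h2
        rwa [Real.sqrt_sq hρ.le] at h4
      · show g ^ 2 ≤ (Matrix.of fun a b => ∑ w, eval P (pderiv a (f w)) * eval P (pderiv b (f w))).det
        rw [hf3]
        exact h3
    · apply ENNReal.ofReal_le_ofReal
      apply div_le_div_of_nonneg_right _ hg.le
      apply mul_le_mul_of_nonneg_right _ (by positivity)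
      have := le_abs_self (Pool.Agent.Helper38.NS.areaC (Fintype.card (Fin m ⊕ (Mon (m + 1) D × (Fin (m + 1) → Fin (D + 1))))) m D)
      linarith
  · filter_upwards [hZ] with k hk ω ω' h1 h2 h3
    have := hk ω ω' h1 h2 h3
    constructor
    · show phi (S.dl s k) (A k ω) = phi (S.dl s k) (A k ω')
      rw [this]
    · show GG (S.dl s k) (A k ω) = GG (S.dl s k) (A k ω')
      rw [this]

end

end Pool.Agent.Helper59.EV
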